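import Mathlib
import Pool.Agent.H388SL.Energy

/-!
# The discriminant of a squarefree integer polynomial and the energy of its roots
-/

set_option autoImplicit false

open Polynomial

namespace Pool.Agent.K3h71.SP

open Pool.Agent.H388SL (refl norm_refl_le pair_le one_sub_le posdef)

lemma prod_form {F : ℂ[X]} {Z : Finset ℂ} (hZ : F.roots = Z.val) :
    F = C F.leadingCoeff * ∏ z ∈ Z, (X - C z) := by
  have h := (IsAlgClosed.splits F).eq_prod_roots
  rw [hZ] at h
  exact h

lemma eval_deriv_root {F : ℂ[X]} {Z : Finset ℂ} (hZ : F.roots = Z.val) {x : ℂ} (hx : x ∈ Z) :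
    (derivative F).eval x = F.leadingCoeff * ∏ y ∈ Z.erase x, (x - y) := by
  classical
  have h := prod_form hZ
  conv_lhs => rw [h]
  rw [derivative_C_mul, eval_mul, eval_C, Polynomial.derivative_prod_finset,
    Polynomial.eval_finsetSum, Finset.sum_eq_single x]
  · rw [Polynomial.eval_mul, Polynomial.eval_prod]
    simp
  · intro y hy hyx
    rw [Polynomial.eval_mul, Polynomial.eval_prod, Finset.prod_eq_zero (i := x)]
    · simp
    · simp [Ne.symm hyx, hx]
    · simp
  · intro h1; exact absurd hx h1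

/-- the discriminant is a nonzero integer -/
lemma disc_bound (f : ℤ[X]) (hn : 0 < f.natDegree) (Z : Finset ℂ)
    (hZ : (f.map (Int.castRingHom ℂ)).roots = Z.val) :
    -(2 * f.natDegree * Real.log |(f.leadingCoeff : ℝ)|) ≤
      ∑ x ∈ Z, ∑ y ∈ Z.erase x, Real.log ‖x - y‖ := by
  classical
  set F := f.map (Int.castRingHom ℂ) with hF
  have hinj : Function.Injective (Int.castRingHom ℂ) := RingHom.injective_int _
  have hf0 : f ≠ 0 := by rintro rfl; simp at hn
  have hnd : F.natDegree = f.natDegree := natDegree_map_eq_of_injective hinj f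
  have hlc : F.leadingCoeff = (f.leadingCoeff : ℂ) := by
    rw [hF, leadingCoeff_map_of_injective hinj]; rfl
  have hlcn : ‖F.leadingCoeff‖ = |(f.leadingCoeff : ℝ)| := by
    rw [hlc, Complex.norm_intCast]
  have hlc0 : 0 < |(f.leadingCoeff : ℝ)| := by
    have := leadingCoeff_ne_zero.mpr hf0
    positivity
  have hlc1 : 1 ≤ |(f.leadingCoeff : ℝ)| := by
    exact_mod_cast Int.one_le_abs (leadingCoeff_ne_zero.mpr hf0)
  have hcard : Z.card = f.natDegree := by
    rw [← hnd, (IsAlgClosed.splits F).natDegree_eq_card_roots, hZ]; rfl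
  have h1 : ((resultant f (derivative f) f.natDegree (f.natDegree - 1) : ℤ) : ℂ) =
      F.leadingCoeff ^ (f.natDegree - 1) * ∏ z ∈ Z, (derivative F).eval z := by
    have h2 := resultant_map_map (f := f) (g := derivative f) (m := f.natDegree)
      (n := f.natDegree - 1) (Int.castRingHom ℂ)
    have h3 := resultant_eq_prod_eval F (derivative F) (f.natDegree - 1)
      (by rw [← hnd]; exact natDegree_derivative_le F) (IsAlgClosed.splits F)
    rw [hZ, hnd] at h3
    rw [← derivative_map] at h2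
    have h4 : ((resultant f (derivative f) f.natDegree (f.natDegree - 1) : ℤ) : ℂ) =
      Int.castRingHom ℂ (resultant f (derivative f) f.natDegree (f.natDegree - 1)) := rfl
    rw [h4, ← h2]
    exact h3
  have hne : ∀ z ∈ Z, ∀ y ∈ Z.erase z, ‖z - y‖ ≠ 0 := by
    intro z _ y hy
    rw [norm_ne_zero_iff, sub_ne_zero]
    exact (Finset.ne_of_mem_erase hy).symm
  have h5 : ‖((resultant f (derivative f) f.natDegree (f.natDegree - 1) : ℤ) : ℂ)‖ =
      |(f.leadingCoeff : ℝ)| ^ (f.natDegree - 1) *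
        ∏ z ∈ Z, (|(f.leadingCoeff : ℝ)| * ∏ y ∈ Z.erase z, ‖z - y‖) := by
    rw [h1, norm_mul, norm_pow, hlcn, norm_prod]
    congr 1
    refine Finset.prod_congr rfl fun z hz => ?_
    rw [eval_deriv_root hZ hz, norm_mul, hlcn, norm_prod]
  have hprod_ne : ∀ z ∈ Z, |(f.leadingCoeff : ℝ)| * ∏ y ∈ Z.erase z, ‖z - y‖ ≠ 0 := by
    intro z hz
    exact mul_ne_zero hlc0.ne' (Finset.prod_ne_zero_iff.mpr (hne z hz))
  have h6 : (resultant f (derivative f) f.natDegree (f.natDegree - 1) : ℤ) ≠ 0 := by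
    intro h0
    rw [h0, Int.cast_zero, norm_zero] at h5
    have : |(f.leadingCoeff : ℝ)| ^ (f.natDegree - 1) *
        ∏ z ∈ Z, (|(f.leadingCoeff : ℝ)| * ∏ y ∈ Z.erase z, ‖z - y‖) ≠ 0 :=
      mul_ne_zero (by positivity) (Finset.prod_ne_zero_iff.mpr hprod_ne)
    exact this h5.symm
  have h7 : (1:ℝ) ≤ ‖((resultant f (derivative f) f.natDegree (f.natDegree - 1) : ℤ) : ℂ)‖ := by
    rw [Complex.norm_intCast]
    exact_mod_cast Int.one_le_abs h6
  rw [h5] at h7
  have h8 := Real.log_le_log one_pos h7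
  rw [Real.log_one, Real.log_mul (by positivity) (Finset.prod_ne_zero_iff.mpr hprod_ne),
    Real.log_pow, Real.log_prod hprod_ne] at h8
  have h9 : ∑ z ∈ Z, Real.log (|(f.leadingCoeff : ℝ)| * ∏ y ∈ Z.erase z, ‖z - y‖) =
      f.natDegree * Real.log |(f.leadingCoeff : ℝ)| + ∑ x ∈ Z, ∑ y ∈ Z.erase x, Real.log ‖x - y‖ := by
    rw [← hcard, ← nsmul_eq_mul, ← Finset.sum_const, ← Finset.sum_add_distrib]
    refine Finset.sum_congr rfl fun z hz => ?_
    rw [Real.log_mul hlc0.ne' (Finset.prod_ne_zero_iff.mpr (hne z hz)), Real.log_prod (hne z hz)]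
  rw [h9] at h8
  have h10 : 0 ≤ Real.log |(f.leadingCoeff : ℝ)| := Real.log_nonneg hlc1
  have h11 : ((f.natDegree - 1 : ℕ) : ℝ) ≤ f.natDegree := by exact_mod_cast Nat.sub_le _ _
  nlinarith

/-- the energy bound -/
lemma energyW (Z : Finset ℂ) {t : ℝ} (ht0 : 0 ≤ t) (ht1 : t < 1) :
    ∑ z ∈ Z, ∑ w ∈ Z, - Real.log ‖1 - (t : ℂ) * (refl z * starRingEnd ℂ (refl w))‖ ≤
      2 * Z.card * (∑ z ∈ Z, Real.log (max 1 ‖z‖)) + (Z.card : ℝ) ^ 2 * Real.log (2 / (1 + t)) +
        Z.card * Real.log (1 / (1 - t)) - ∑ x ∈ Z, ∑ y ∈ Z.erase x, Real.log ‖x - y‖ := by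
  classical
  have hL : 0 ≤ Real.log (2 / (1 + t)) := by
    apply Real.log_nonneg
    rw [le_div_iff₀ (by linarith)]; linarith
  have hpt : ∀ i ∈ Z, ∀ j ∈ Z, (if i = j then (0:ℝ) else Real.log ‖i - j‖) ≤
      (Real.log (max 1 ‖i‖) + Real.log (max 1 ‖j‖) + Real.log (2 / (1 + t))
        + Real.log ‖1 - (t : ℂ) * (refl i * starRingEnd ℂ (refl j))‖)
        + (if i = j then Real.log (1 / (1 - t)) else 0) := by
    intro i hi j hj
    have hLi : 0 ≤ Real.log (max 1 ‖i‖) := Real.log_nonneg (le_max_left _ _)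
    have hLj : 0 ≤ Real.log (max 1 ‖j‖) := Real.log_nonneg (le_max_left _ _)
    by_cases hij : i = j
    · subst hij
      rw [if_pos rfl, if_pos rfl]
      have h1 : 1 - t ≤ ‖1 - (t : ℂ) * (refl i * starRingEnd ℂ (refl i))‖ := by
        have h2 : ‖(t : ℂ) * (refl i * starRingEnd ℂ (refl i))‖ ≤ t := by
          rw [norm_mul, norm_mul, RCLike.norm_conj, Complex.norm_real, Real.norm_of_nonneg ht0]
          have h3 : ‖refl i‖ * ‖refl i‖ ≤ 1 :=
            mul_le_one₀ (norm_refl_le _) (norm_nonneg _) (norm_refl_le _)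
          nlinarith
        have h4 := norm_sub_norm_le (1:ℂ) ((t : ℂ) * (refl i * starRingEnd ℂ (refl i)))
        rw [norm_one] at h4
        linarith
      have h5 : Real.log (1 - t) ≤ Real.log ‖1 - (t : ℂ) * (refl i * starRingEnd ℂ (refl i))‖ :=
        Real.log_le_log (by linarith) h1
      have h6 : Real.log (1 / (1 - t)) = - Real.log (1 - t) := by
        rw [one_div, Real.log_inv]
      rw [h6]
      linarith
    · rw [if_neg hij, if_neg hij, add_zero]
      have hne : i - j ≠ 0 := sub_ne_zero.mpr hij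
      have hb : ‖refl i * starRingEnd ℂ (refl j)‖ ≤ 1 := by
        rw [norm_mul, RCLike.norm_conj]
        exact mul_le_one₀ (norm_refl_le _) (norm_nonneg _) (norm_refl_le _)
      have h1 := pair_le i j
      have h2 := one_sub_le ht0 ht1 _ hb
      have hmi : 0 < max 1 ‖i‖ := lt_of_lt_of_le one_pos (le_max_left _ _)
      have hmj : 0 < max 1 ‖j‖ := lt_of_lt_of_le one_pos (le_max_left _ _)
      have h3 : ‖i - j‖ ≤ max 1 ‖i‖ * max 1 ‖j‖ *
          (2 / (1 + t) * ‖1 - (t : ℂ) * (refl i * starRingEnd ℂ (refl j))‖) :=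
        h1.trans (mul_le_mul_of_nonneg_left h2 (by positivity))
      have hpos : 0 < ‖i - j‖ := norm_pos_iff.mpr hne
      have h2t : 0 < 2 / (1 + t) := by apply div_pos <;> linarith
      have h4 : 0 < ‖1 - (t : ℂ) * (refl i * starRingEnd ℂ (refl j))‖ := by
        rcases (norm_nonneg (1 - (t : ℂ) * (refl i * starRingEnd ℂ (refl j)))).lt_or_eq with h | h
        · exact h
        · rw [← h] at h3
          simp at h3
          exact absurd h3 hne
      calc Real.log ‖i - j‖ ≤ Real.log (max 1 ‖i‖ * max 1 ‖j‖ *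
          (2 / (1 + t) * ‖1 - (t : ℂ) * (refl i * starRingEnd ℂ (refl j))‖)) :=
            Real.log_le_log hpos h3
        _ = _ := by
          rw [Real.log_mul (by positivity) (by positivity), Real.log_mul (by positivity) (by positivity),
            Real.log_mul (by positivity) (by positivity)]
          ring
  have hsum := Finset.sum_le_sum fun i hi => Finset.sum_le_sum fun j hj => hpt i hi j hj
  simp only [Finset.sum_add_distrib, Finset.sum_const, nsmul_eq_mul] at hsum
  have e1 : ∑ i ∈ Z, ∑ j ∈ Z, (if i = j then Real.log (1 / (1 - t)) else 0)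
      = Z.card * Real.log (1 / (1 - t)) := by
    rw [← nsmul_eq_mul, ← Finset.sum_const]
    refine Finset.sum_congr rfl fun i hi => ?_
    rw [Finset.sum_ite_eq, if_pos hi]
  have e2 : ∑ i ∈ Z, ∑ j ∈ Z, (if i = j then (0:ℝ) else Real.log ‖i - j‖) =
      ∑ x ∈ Z, ∑ y ∈ Z.erase x, Real.log ‖x - y‖ := by
    refine Finset.sum_congr rfl fun i hi => ?_
    rw [← Finset.sum_erase_add _ _ hi, if_pos rfl, add_zero]
    refine Finset.sum_congr rfl fun j hj => ?_
    rw [if_neg (Finset.ne_of_mem_erase hj).symm]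
  rw [e1, e2, ← Finset.mul_sum] at hsum
  simp only [Finset.sum_neg_distrib]
  nlinarith [hsum]

end Pool.Agent.K3h71.SP
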