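import Mathlib
import Pool.Agent.K3h71.SP.Disc

/-!
# Roots in small discs around points of the unit circle
-/

set_option autoImplicit false

open Polynomial

namespace Pool.Agent.K3h71.SP

open Pool.Agent.H388SL (refl norm_refl_le pair_le one_sub_le posdef)

/-- the kernel -/
noncomputable def kk (t : ℝ) (u v : ℂ) : ℝ := Real.log ‖1 - (t : ℂ) * (u * starRingEnd ℂ v)‖

lemma kk_comm (t : ℝ) (u v : ℂ) : kk t u v = kk t v u := by
  unfold kk
  have : 1 - (t : ℂ) * (v * starRingEnd ℂ u) = starRingEnd ℂ (1 - (t : ℂ) * (u * starRingEnd ℂ v)) := by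
    simp [mul_comm]
  rw [this, RCLike.norm_conj]

/-- the energy -/
noncomputable def WW (Z : Finset ℂ) (t : ℝ) : ℝ := ∑ z ∈ Z, ∑ w ∈ Z, - kk t (refl z) (refl w)

lemma posdef2 (Z : Finset ℂ) {t : ℝ} (ht0 : 0 ≤ t) (ht1 : t < 1) {p q : ℂ} (hp : ‖p‖ ≤ 1)
    (hq : ‖q‖ ≤ 1) (σ : ℝ) :
    - WW Z t + 2 * σ * ∑ z ∈ Z, (kk t (refl z) p - kk t (refl z) q) +
      σ ^ 2 * (kk t p p - 2 * kk t p q + kk t q q) ≤ 0 := by
  classical
  have h := posdef (Z.disjSum (Finset.univ : Finset Bool))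
    (Sum.elim (fun _ => 1) (fun b => if b then σ else -σ))
    (Sum.elim (fun z => refl z) (fun b => if b then p else q)) (by
      intro i _
      rcases i with z | b
      · exact norm_refl_le z
      · cases b
        · simpa using hq
        · simpa using hp) ht0 ht1
  simp only [Finset.sum_disjSum, Sum.elim_inl, Sum.elim_inr, Fintype.sum_bool, if_true,
    Bool.false_eq_true, if_false, one_mul, mul_one] at h
  have h2 : - t * ‖∑ i ∈ Z.disjSum (Finset.univ : Finset Bool),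
      ((Sum.elim (fun _ => 1) (fun b => if b then σ else -σ) i : ℝ) : ℂ) *
      (Sum.elim (fun z => refl z) (fun b => if b then p else q) i)‖ ^ 2 ≤ 0 := by
    have : 0 ≤ t * ‖∑ i ∈ Z.disjSum (Finset.univ : Finset Bool),
      ((Sum.elim (fun _ => 1) (fun b => if b then σ else -σ) i : ℝ) : ℂ) *
      (Sum.elim (fun z => refl z) (fun b => if b then p else q) i)‖ ^ 2 := by positivity
    linarith
  simp only [Finset.sum_disjSum, Sum.elim_inl, Sum.elim_inr, Fintype.sum_bool, if_true,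
    Bool.false_eq_true, if_false] at h2
  have h3 := h.trans h2
  have e : ∀ u v : ℂ, Real.log ‖1 - (t : ℂ) * (u * starRingEnd ℂ v)‖ = kk t u v := fun _ _ => rfl
  simp only [e] at h3
  have hpz : ∀ z, kk t p (refl z) = kk t (refl z) p := fun z => kk_comm _ _ _
  have hqz : ∀ z, kk t q (refl z) = kk t (refl z) q := fun z => kk_comm _ _ _
  have hqp : kk t q p = kk t p q := kk_comm _ _ _
  simp only [hpz, hqz, hqp] at h3
  refine le_trans (le_of_eq ?_) h3
  unfold WW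
  simp only [Finset.sum_neg_distrib, Finset.sum_add_distrib, Finset.sum_sub_distrib, ← Finset.mul_sum,
    ← Finset.sum_mul]
  ring

/-- the quadratic inequality -/
lemma arcA (Z : Finset ℂ) {t r : ℝ} (ht0 : 0 ≤ t) (ht1 : t < 1) (hr0 : 0 ≤ r) (hr1 : r ≤ 1)
    {ζ : ℂ} (hζ : ‖ζ‖ = 1) (hL : 0 < Real.log (1 / (1 - t))) :
    (∑ z ∈ Z, (kk t (refl z) (r * ζ) - kk t (refl z) ζ)) ^ 2 ≤ WW Z t * Real.log (1 / (1 - t)) := by
  set A := ∑ z ∈ Z, (kk t (refl z) (r * ζ) - kk t (refl z) ζ) with hA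
  set L := Real.log (1 / (1 - t)) with hLdef
  have hrn : ‖(r : ℂ) * ζ‖ = r := by
    rw [norm_mul, hζ, mul_one, Complex.norm_real, Real.norm_of_nonneg hr0]
  have h := posdef2 Z ht0 ht1 (p := r * ζ) (q := ζ) (by rw [hrn]; exact hr1) hζ.le (A / L)
  rw [← hA] at h
  have hzz : ζ * starRingEnd ℂ ζ = 1 := by
    rw [Complex.mul_conj, Complex.normSq_eq_norm_sq, hζ]; norm_num
  have htr : t * r ≤ t := mul_le_of_le_one_right ht0 hr1
  have htr2 : t * r * r ≤ t * r := mul_le_of_le_one_right (by positivity) hr1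
  have k1 : kk t ζ ζ = Real.log (1 - t) := by
    unfold kk
    rw [hzz, mul_one]
    have : (1 - (t : ℂ)) = ((1 - t : ℝ) : ℂ) := by push_cast; ring
    rw [this, Complex.norm_real, Real.norm_of_nonneg (by linarith)]
  have k2 : kk t (r * ζ) ζ = Real.log (1 - t * r) := by
    unfold kk
    have : (1 - (t : ℂ) * (r * ζ * starRingEnd ℂ ζ)) = ((1 - t * r : ℝ) : ℂ) := by
      push_cast; linear_combination (- (t:ℂ) * r) * hzz
    rw [this, Complex.norm_real, Real.norm_of_nonneg (by linarith)]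
  have k3 : kk t (r * ζ) (r * ζ) = Real.log (1 - t * r * r) := by
    unfold kk
    have : (1 - (t : ℂ) * (r * ζ * starRingEnd ℂ (r * ζ))) = ((1 - t * r * r : ℝ) : ℂ) := by
      rw [map_mul, Complex.conj_ofReal]
      push_cast; linear_combination (- (t:ℂ) * r * r) * hzz
    rw [this, Complex.norm_real, Real.norm_of_nonneg (by linarith)]
  have hLl : L = - Real.log (1 - t) := by rw [hLdef, one_div, Real.log_inv]
  have h1 : Real.log (1 - t * r) ≤ Real.log (1 - t * r * r) :=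
    Real.log_le_log (by linarith) (by linarith)
  have h2 : Real.log (1 - t * r) ≤ 0 := Real.log_nonpos (by linarith) (by
    have : 0 ≤ t * r := by positivity
    linarith)
  have hD : kk t (r * ζ) (r * ζ) - 2 * kk t (r * ζ) ζ + kk t ζ ζ ≥ - L := by
    rw [k1, k2, k3, hLl]; linarith
  have h3 : (A / L) ^ 2 * (kk t (r * ζ) (r * ζ) - 2 * kk t (r * ζ) ζ + kk t ζ ζ) ≥ (A / L) ^ 2 * (- L) :=
    mul_le_mul_of_nonneg_left hD (by positivity)
  have h4 : 2 * (A / L) * A - (A / L) ^ 2 * L ≤ WW Z t := by linarith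
  have h5 : 2 * (A / L) * A - (A / L) ^ 2 * L = A ^ 2 / L := by
    field_simp; ring
  rw [h5, div_le_iff₀ hL] at h4
  exact h4

lemma kk_r (t r : ℝ) (u ζ : ℂ) :
    kk t u (r * ζ) = Real.log ‖1 - (r : ℂ) * ((t : ℂ) * (u * starRingEnd ℂ ζ))‖ := by
  unfold kk
  rw [map_mul, Complex.conj_ofReal]
  congr 3
  ring

/-- pointwise bounds -/
lemma term_all {t δ : ℝ} (ht0 : 0 ≤ t) (ht1 : t < 1) (hδ0 : 0 < δ) (hδ1 : δ ≤ 1 / 2) {u ζ : ℂ}
    (hu : ‖u‖ ≤ 1) (hζ : ‖ζ‖ = 1) :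
    -(2 * δ) ≤ kk t u (((1 - 2 * δ : ℝ) : ℂ) * ζ) - kk t u ζ := by
  rw [kk_r]
  unfold kk
  set v := (t : ℂ) * (u * starRingEnd ℂ ζ) with hv
  have hvn : ‖v‖ ≤ t := by
    rw [hv, norm_mul, norm_mul, RCLike.norm_conj, hζ, mul_one, Complex.norm_real,
      Real.norm_of_nonneg ht0]
    exact mul_le_of_le_one_right ht0 hu
  have h1 := one_sub_le (t := 1 - 2 * δ) (by linarith) (by linarith) v (by linarith)
  have hpos : 0 < ‖1 - v‖ := by
    have := norm_sub_norm_le (1:ℂ) v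
    rw [norm_one] at this
    linarith
  have hc : (0:ℝ) < 2 / (1 + (1 - 2 * δ)) := by apply div_pos <;> linarith
  have hpos2 : 0 < ‖1 - ((1 - 2 * δ : ℝ) : ℂ) * v‖ := by
    by_contra h0
    push Not at h0
    have h2 : ‖1 - ((1 - 2 * δ : ℝ) : ℂ) * v‖ = 0 := le_antisymm h0 (norm_nonneg _)
    rw [h2, mul_zero] at h1
    linarith
  have h2 := Real.log_le_log hpos h1
  rw [Real.log_mul hc.ne' hpos2.ne'] at h2
  have h3 : Real.log (2 / (1 + (1 - 2 * δ))) ≤ 2 * δ := by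
    have h4 := Real.log_le_sub_one_of_pos hc
    have h5 : 2 / (1 + (1 - 2 * δ)) - 1 ≤ 2 * δ := by
      rw [div_sub_one (by linarith), div_le_iff₀ (by linarith)]
      nlinarith
    linarith
  linarith

lemma term_near {t δ : ℝ} (ht0 : 0 ≤ t) (ht1 : t < 1) (hδ0 : 0 < δ) (hδ1 : δ ≤ 1 / 2)
    (htδ : 1 - t ≤ δ / 2) {u ζ : ℂ} (hu : ‖u‖ ≤ 1) (hζ : ‖ζ‖ = 1) (hn : ‖u - ζ‖ ≤ δ / 2) :
    Real.log 2 ≤ kk t u (((1 - 2 * δ : ℝ) : ℂ) * ζ) - kk t u ζ := by
  rw [kk_r]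
  unfold kk
  have hzz : ζ * starRingEnd ℂ ζ = 1 := by
    rw [Complex.mul_conj, Complex.normSq_eq_norm_sq, hζ]; norm_num
  set v := (t : ℂ) * (u * starRingEnd ℂ ζ) with hv
  have hvn : ‖v‖ ≤ t := by
    rw [hv, norm_mul, norm_mul, RCLike.norm_conj, hζ, mul_one, Complex.norm_real,
      Real.norm_of_nonneg ht0]
    exact mul_le_of_le_one_right ht0 hu
  have hpos : 0 < ‖1 - v‖ := by
    have := norm_sub_norm_le (1:ℂ) v
    rw [norm_one] at this
    linarith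
  have h1 : ‖1 - v‖ ≤ δ := by
    have e : 1 - v = ((1 - t : ℝ) : ℂ) + (t : ℂ) * ((ζ - u) * starRingEnd ℂ ζ) := by
      rw [hv]; push_cast; linear_combination (-(t:ℂ)) * hzz
    rw [e]
    have h2 := norm_add_le (((1 - t : ℝ) : ℂ)) ((t : ℂ) * ((ζ - u) * starRingEnd ℂ ζ))
    rw [norm_mul, norm_mul, RCLike.norm_conj, hζ, mul_one, Complex.norm_real, Complex.norm_real,
      Real.norm_of_nonneg ht0, Real.norm_of_nonneg (by linarith : 0 ≤ 1 - t), norm_sub_rev] at h2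
    have h3 : t * ‖u - ζ‖ ≤ δ / 2 := by
      have := norm_nonneg (u - ζ)
      nlinarith
    linarith
  have h4 : 2 * δ ≤ ‖1 - ((1 - 2 * δ : ℝ) : ℂ) * v‖ := by
    have h5 := norm_sub_norm_le (1:ℂ) (((1 - 2 * δ : ℝ) : ℂ) * v)
    rw [norm_one, norm_mul, Complex.norm_real, Real.norm_of_nonneg (by linarith)] at h5
    have h6 : (1 - 2 * δ) * ‖v‖ ≤ 1 - 2 * δ := mul_le_of_le_one_right (by linarith) (by linarith)
    linarith
  have h7 : Real.log ‖1 - v‖ ≤ Real.log δ := Real.log_le_log hpos h1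
  have h8 : Real.log (2 * δ) ≤ Real.log ‖1 - ((1 - 2 * δ : ℝ) : ℂ) * v‖ :=
    Real.log_le_log (by linarith) h4
  rw [Real.log_mul two_ne_zero hδ0.ne'] at h8
  linarith

/-- number of reflected roots near a point of the circle -/
lemma arcB (Z : Finset ℂ) {t δ : ℝ} (ht0 : 0 < t) (ht1 : t < 1) (hδ0 : 0 < δ) (hδ1 : δ ≤ 1 / 2)
    (htδ : 1 - t ≤ δ / 2) {ζ : ℂ} (hζ : ‖ζ‖ = 1) (B : ℝ) (hB0 : 0 ≤ B)
    (hB : WW Z t * Real.log (1 / (1 - t)) ≤ B ^ 2) :
    ((Z.filter fun z => ‖refl z - ζ‖ ≤ δ / 2).card : ℝ) * Real.log 2 ≤ 2 * δ * Z.card + B := by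
  classical
  have hL : 0 < Real.log (1 / (1 - t)) := by
    apply Real.log_pos
    rw [lt_div_iff₀ (by linarith)]; linarith
  have h1 := (arcA Z ht0.le ht1 (r := 1 - 2 * δ) (by linarith) (by linarith) hζ hL).trans hB
  have h2 := abs_le_of_sq_le_sq h1 hB0
  have h3 := (abs_le.mp h2).2
  have hlog2 : 0 < Real.log 2 := Real.log_pos (by norm_num)
  have h4 : ((Z.filter fun z => ‖refl z - ζ‖ ≤ δ / 2).card : ℝ) * Real.log 2 - 2 * δ * Z.card ≤
      ∑ z ∈ Z, (kk t (refl z) (((1 - 2 * δ : ℝ) : ℂ) * ζ) - kk t (refl z) ζ) := by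
    have h5 : ((Z.filter fun z => ‖refl z - ζ‖ ≤ δ / 2).card : ℝ) * Real.log 2 - 2 * δ * Z.card =
        ∑ z ∈ Z, ((if ‖refl z - ζ‖ ≤ δ / 2 then Real.log 2 else 0) - 2 * δ) := by
      rw [Finset.sum_sub_distrib, ← Finset.sum_filter, Finset.sum_const, Finset.sum_const,
        nsmul_eq_mul, nsmul_eq_mul]
      ring
    rw [h5]
    apply Finset.sum_le_sum
    intro z _
    split_ifs with hz
    · have := term_near ht0.le ht1 hδ0 hδ1 htδ (norm_refl_le z) hζ hz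
      linarith
    · have := term_all ht0.le ht1 hδ0 hδ1 (norm_refl_le z) hζ
      linarith
  linarith

end Pool.Agent.K3h71.SP
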