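import Mathlib
import Pool.Agent.K3h71.SP.Arc

/-!
# Roots of integer polynomials of small Mahler measure in small discs around points of the circle
-/

set_option autoImplicit false

open Polynomial

namespace Pool.Agent.K3h71.SP

open Pool.Agent.H388SL (refl norm_refl_le)

/-- logarithmic Mahler measure of an integer polynomial -/
noncomputable def ml (f : ℤ[X]) : ℝ := (f.map (Int.castRingHom ℂ)).logMahlerMeasure

/-- the complex roots of `f`, all of them simple, are the elements of `Z` -/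
def Rts (f : ℤ[X]) (Z : Finset ℂ) : Prop := (f.map (Int.castRingHom ℂ)).roots = Z.val

lemma map_ne {f : ℤ[X]} (hf : f ≠ 0) : f.map (Int.castRingHom ℂ) ≠ 0 :=
  (Polynomial.map_ne_zero_iff (RingHom.injective_int _)).mpr hf

lemma lc_map (f : ℤ[X]) : ‖(f.map (Int.castRingHom ℂ)).leadingCoeff‖ = |(f.leadingCoeff : ℝ)| := by
  rw [leadingCoeff_map_of_injective (RingHom.injective_int _), eq_intCast, Complex.norm_intCast]

lemma one_le_lc {f : ℤ[X]} (hf : f ≠ 0) : 1 ≤ |(f.leadingCoeff : ℝ)| := by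
  exact_mod_cast Int.one_le_abs (leadingCoeff_ne_zero.mpr hf)

lemma rts_card {f : ℤ[X]} {Z : Finset ℂ} (h : Rts f Z) : Z.card = f.natDegree := by
  have h1 := (IsAlgClosed.splits (f.map (Int.castRingHom ℂ))).natDegree_eq_card_roots
  rw [natDegree_map_eq_of_injective (RingHom.injective_int _), h] at h1
  exact h1.symm

lemma ml_eq {f : ℤ[X]} {Z : Finset ℂ} (hf : f ≠ 0) (h : Rts f Z) :
    ml f = Real.log |(f.leadingCoeff : ℝ)| + ∑ z ∈ Z, Real.log (max 1 ‖z‖) := by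
  have hlc := one_le_lc hf
  have hpos : ∀ z : ℂ, max 1 ‖z‖ ≠ 0 := fun z => (lt_of_lt_of_le one_pos (le_max_left _ _)).ne'
  rw [ml, logMahlerMeasure_eq_log_MahlerMeasure, mahlerMeasure_eq_leadingCoeff_mul_prod_roots, lc_map,
    h]
  have h1 : (Z.val.map fun a : ℂ => max 1 ‖a‖).prod = ∏ z ∈ Z, max 1 ‖z‖ := rfl
  rw [h1, Real.log_mul (by positivity) (Finset.prod_ne_zero_iff.mpr fun z _ => hpos z),
    Real.log_prod fun z _ => hpos z]

lemma ml_nonneg {f : ℤ[X]} (hf : f ≠ 0) : 0 ≤ ml f := by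
  rw [ml, logMahlerMeasure_eq_log_MahlerMeasure]
  apply Real.log_nonneg
  apply one_le_mahlerMeasure_of_one_le_norm_leadingCoeff
  rw [lc_map]; exact one_le_lc hf

/-- energy bound for integer polynomials -/
lemma WW_le {f : ℤ[X]} {Z : Finset ℂ} (hn : 0 < f.natDegree) (h : Rts f Z) {τ : ℝ} (hτ0 : 0 < τ)
    (hτ1 : τ ≤ 1) :
    WW Z (1 - τ) ≤ 2 * f.natDegree * ml f + (f.natDegree : ℝ) ^ 2 * τ +
      f.natDegree * Real.log (1 / τ) := by
  have hf0 : f ≠ 0 := by rintro rfl; simp at hn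
  have h1 := energyW Z (t := 1 - τ) (by linarith) (by linarith)
  have h2 := disc_bound f hn Z h
  have h3 := ml_eq hf0 h
  have hc := rts_card h
  have h4 : Real.log (2 / (1 + (1 - τ))) ≤ τ := by
    have h5 := Real.log_le_sub_one_of_pos (x := 2 / (1 + (1 - τ))) (by apply div_pos <;> linarith)
    have h6 : 2 / (1 + (1 - τ)) - 1 ≤ τ := by
      rw [div_sub_one (by linarith), div_le_iff₀ (by linarith)]
      nlinarith
    linarith
  have h7 : (f.natDegree : ℝ) ^ 2 * Real.log (2 / (1 + (1 - τ))) ≤ (f.natDegree : ℝ) ^ 2 * τ :=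
    mul_le_mul_of_nonneg_left h4 (by positivity)
  rw [hc] at h1
  have h8 : WW Z (1 - τ) = ∑ z ∈ Z, ∑ w ∈ Z,
      - Real.log ‖1 - ((1 - τ : ℝ) : ℂ) * (refl z * starRingEnd ℂ (refl w))‖ := rfl
  rw [h8]
  have h9 : 1 - (1 - τ) = τ := by ring
  rw [h9] at h1
  rw [h3]
  linarith

/-- **few roots near a point of the circle** -/
theorem arc {f : ℤ[X]} {Z : Finset ℂ} (h : Rts f Z) {δ : ℝ} (hδ0 : 0 < δ) (hδ1 : δ ≤ 1 / 2)
    (hn : 27 * (1 + ml f) ≤ f.natDegree * δ ^ 6) {ζ : ℂ} (hζ : ‖ζ‖ = 1) :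
    ((Z.filter fun z => ‖refl z - ζ‖ ≤ δ / 2).card : ℝ) ≤ 5 * δ * f.natDegree := by
  have hf0 : f ≠ 0 := by
    rintro rfl
    have : ml 0 = 0 := by simp [ml]
    rw [this] at hn
    simp at hn
    linarith
  have hm := ml_nonneg hf0
  set n : ℝ := (f.natDegree : ℝ) with hnn
  set lam := ml f with hlam
  have hn0 : 0 < n := by
    by_contra h0
    push Not at h0
    have : n * δ ^ 6 ≤ 0 := mul_nonpos_of_nonpos_of_nonneg h0 (by positivity)
    linarith
  have hn0' : 0 < f.natDegree := by rw [hnn] at hn0; exact_mod_cast hn0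
  set τ : ℝ := δ ^ 4 / 9 with hτ
  have hτ0 : 0 < τ := by positivity
  have hδ4 : δ ^ 4 ≤ δ := by
    have : δ ^ 4 ≤ δ ^ 1 := pow_le_pow_of_le_one hδ0.le (by linarith) (by norm_num)
    simpa using this
  have hτ1 : τ ≤ δ / 2 := by rw [hτ]; linarith
  set L := Real.log (1 / τ) with hLdef
  set Y : ℝ := 3 / δ ^ 2 with hY
  have hY12 : 12 ≤ Y := by
    rw [hY, le_div_iff₀ (by positivity)]
    nlinarith
  have hLY : L ≤ Y := by
    have h1 : 1 / τ = Y ^ 2 := by
      rw [hτ, hY]; field_simp; ring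
    rw [hLdef, h1, Real.log_pow]
    have h2 : Real.log Y = Real.log 2 + Real.log (Y / 2) := by
      rw [← Real.log_mul two_ne_zero (by positivity)]
      congr 1; ring
    have h3 := Real.log_le_sub_one_of_pos (x := Y / 2) (by positivity)
    have h4 := Real.log_two_lt_d9
    push_cast
    linarith
  have hL0 : 0 ≤ L := by
    apply Real.log_nonneg
    rw [le_div_iff₀ hτ0]; linarith
  have hW := WW_le hn0' h hτ0 (by linarith)
  rw [← hnn, ← hlam] at hW
  have hWL : WW Z (1 - τ) * L ≤ (n * δ) ^ 2 := by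
    have h1 : WW Z (1 - τ) * L ≤ (2 * n * lam + n ^ 2 * τ + n * L) * L :=
      mul_le_mul_of_nonneg_right hW hL0
    have h2 : (2 * n * lam + n ^ 2 * τ + n * L) * L ≤ (2 * n * lam + n ^ 2 * τ + n * Y) * Y := by
      apply mul_le_mul _ hLY hL0 (by positivity)
      nlinarith
    have h3 : (2 * n * lam + n ^ 2 * τ + n * Y) * Y = 6 * n * lam / δ ^ 2 + n ^ 2 * δ ^ 2 / 3 +
        9 * n / δ ^ 4 := by
      rw [hτ, hY]; field_simp; ring
    have h4 : 6 * n * lam / δ ^ 2 + 9 * n / δ ^ 4 ≤ n ^ 2 * δ ^ 2 / 3 := by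
      have h5 : 6 * n * lam / δ ^ 2 + 9 * n / δ ^ 4 = n * (6 * lam * δ ^ 2 + 9) / δ ^ 4 := by
        field_simp
      rw [h5, div_le_iff₀ (by positivity)]
      have h6 : n ^ 2 * δ ^ 2 / 3 * δ ^ 4 = n * (n * δ ^ 6) / 3 := by ring
      rw [h6]
      have h7 : n * (27 * (1 + lam)) ≤ n * (n * δ ^ 6) := mul_le_mul_of_nonneg_left hn hn0.le
      have h8 : δ ^ 2 ≤ 1 := by nlinarith
      have h9 : lam * δ ^ 2 ≤ lam := mul_le_of_le_one_right hm h8
      have h10 : n * (6 * lam * δ ^ 2 + 9) ≤ n * (9 * (1 + lam)) :=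
        mul_le_mul_of_nonneg_left (by linarith) hn0.le
      linarith
    have h11 : 0 ≤ n ^ 2 * δ ^ 2 := by positivity
    rw [mul_pow]
    linarith
  have hmain := arcB Z (t := 1 - τ) (δ := δ) (by linarith) (by linarith) hδ0 hδ1 (by linarith) hζ
    (n * δ) (by positivity) (by
      have : 1 - (1 - τ) = τ := by ring
      rw [this]; exact hWL)
  rw [rts_card h, ← hnn] at hmain
  have hlog := Real.log_two_gt_d9
  set N : ℝ := ((Z.filter fun z => ‖Pool.Agent.H388SL.refl z - ζ‖ ≤ δ / 2).card : ℝ)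
  have hN : 0 ≤ N := Nat.cast_nonneg _
  have h12 : N * 0.6931471803 ≤ N * Real.log 2 := mul_le_mul_of_nonneg_left hlog.le hN
  have h13 : 0 ≤ n * δ := by positivity
  nlinarith

/-- the roots are close to the circle -/
lemma sum_abs_log {f : ℤ[X]} {Z : Finset ℂ} (hf : f ≠ 0) (h : Rts f Z) (h0 : f.coeff 0 ≠ 0) :
    ∑ z ∈ Z, |Real.log ‖z‖| ≤ 2 * ml f := by
  have h1 := ml_eq hf h
  have hlc := one_le_lc hf
  have hz0 : ∀ z ∈ Z, z ≠ 0 := by
    rintro z hz rfl
    apply h0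
    have h2 : (0:ℂ) ∈ (f.map (Int.castRingHom ℂ)).roots := by rw [h]; exact hz
    have h3 := (mem_roots'.mp h2).2
    rw [IsRoot, ← coeff_zero_eq_eval_zero, coeff_map] at h3
    simpa using h3
  have h4 : 0 ≤ Real.log |(f.leadingCoeff : ℝ)| + ∑ z ∈ Z, Real.log ‖z‖ := by
    have h5 : (f.map (Int.castRingHom ℂ)).eval 0 = (f.coeff 0 : ℂ) := by
      rw [← coeff_zero_eq_eval_zero, coeff_map]; rfl
    have h6 := prod_form h
    have h7 : ‖(f.map (Int.castRingHom ℂ)).eval 0‖ = |(f.leadingCoeff : ℝ)| * ∏ z ∈ Z, ‖z‖ := by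
      rw [h6, eval_mul, eval_C, norm_mul, lc_map, eval_prod, norm_prod]
      simp
    rw [h5, Complex.norm_intCast] at h7
    have h8 : (1:ℝ) ≤ |(f.coeff 0 : ℝ)| := by exact_mod_cast Int.one_le_abs h0
    rw [h7] at h8
    have h9 := Real.log_le_log one_pos h8
    rw [Real.log_one, Real.log_mul (by positivity)
      (Finset.prod_ne_zero_iff.mpr fun z hz => norm_ne_zero_iff.mpr (hz0 z hz)),
      Real.log_prod fun z hz => norm_ne_zero_iff.mpr (hz0 z hz)] at h9
    exact h9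
  have h10 : ∀ z ∈ Z, |Real.log ‖z‖| = 2 * Real.log (max 1 ‖z‖) - Real.log ‖z‖ := by
    intro z hz
    have hpos : 0 < ‖z‖ := norm_pos_iff.mpr (hz0 z hz)
    rcases le_total ‖z‖ 1 with h11 | h11
    · rw [max_eq_left h11, Real.log_one, abs_of_nonpos (Real.log_nonpos hpos.le h11)]; ring
    · rw [max_eq_right h11, abs_of_nonneg (Real.log_nonneg h11)]; ring
  rw [Finset.sum_congr rfl h10, Finset.sum_sub_distrib, ← Finset.mul_sum]
  have h12 : 0 ≤ Real.log |(f.leadingCoeff : ℝ)| := Real.log_nonneg hlc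
  linarith

/-- few roots far from the circle -/
lemma far {f : ℤ[X]} {Z : Finset ℂ} (hf : f ≠ 0) (h : Rts f Z) (h0 : f.coeff 0 ≠ 0) (ρ : ℝ) :
    ((Z.filter fun z => ρ < |Real.log ‖z‖|).card : ℝ) * ρ ≤ 2 * ml f := by
  have h1 := sum_abs_log hf h h0
  refine le_trans ?_ h1
  rw [← nsmul_eq_mul, ← Finset.sum_const]
  calc ∑ z ∈ Z.filter (fun z => ρ < |Real.log ‖z‖|), ρ
      ≤ ∑ z ∈ Z.filter (fun z => ρ < |Real.log ‖z‖|), |Real.log ‖z‖| := by
        apply Finset.sum_le_sum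
        intro z hz
        exact (Finset.mem_filter.mp hz).2.le
    _ ≤ ∑ z ∈ Z, |Real.log ‖z‖| :=
        Finset.sum_le_sum_of_subset_of_nonneg (Finset.filter_subset _ _) fun _ _ _ => abs_nonneg _

end Pool.Agent.K3h71.SP
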