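import Mathlib

/-!
# Mahler's derivative inequality and the coefficients of a polynomial with few terms

`mm_deriv`: `M(p') ≤ deg p * M(p)`; `coeff_le`: a polynomial with at most `k` nonzero coefficients
satisfies `|coeff| ≤ 2^k M(p)`.
-/

set_option autoImplicit false

open Polynomial

namespace Pool.Agent.K3h71.SP

lemma re_eq {z w : ℂ} (hz : ‖z‖ = 1) (h : z ≠ w) :
    (z / (z - w)).re - 1 / 2 = (1 - ‖w‖ ^ 2) / (2 * ‖z - w‖ ^ 2) := by
  have h1 : ‖z - w‖ ^ 2 ≠ 0 := by
    have : z - w ≠ 0 := sub_ne_zero.mpr h
    positivity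
  have hz2 : Complex.normSq z = 1 := by rw [Complex.normSq_eq_norm_sq, hz]; norm_num
  rw [Complex.div_re]
  simp only [← Complex.normSq_eq_norm_sq] at h1 ⊢
  rw [Complex.normSq_apply] at hz2
  field_simp
  rw [Complex.normSq_apply] at h1 ⊢
  rw [Complex.normSq_apply]
  simp only [Complex.sub_re, Complex.sub_im] at h1 ⊢
  nlinarith

lemma re_in {z w : ℂ} (hz : ‖z‖ = 1) (hw : ‖w‖ ≤ 1) (h : z ≠ w) : 1 / 2 ≤ (z / (z - w)).re := by
  have h1 := re_eq hz h
  have h2 : 0 ≤ (1 - ‖w‖ ^ 2) / (2 * ‖z - w‖ ^ 2) := by
    apply div_nonneg _ (by positivity)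
    nlinarith [norm_nonneg w]
  linarith

lemma re_out {z w : ℂ} (hz : ‖z‖ = 1) (hw : 1 < ‖w‖) : (z / (z - w)).re ≤ 1 / 2 := by
  have h : z ≠ w := by rintro rfl; linarith
  have h1 := re_eq hz h
  have h2 : (1 - ‖w‖ ^ 2) / (2 * ‖z - w‖ ^ 2) ≤ 0 := by
    apply div_nonpos_of_nonpos_of_nonneg _ (by positivity)
    nlinarith [norm_nonneg w]
  linarith

/-- the comparison of the two logarithmic derivatives -/
lemma cmp {A B : ℂ} {m : ℝ} (hA : 0 ≤ A.re) (hB : B.re ≤ m / 2) (hm : 0 ≤ m) :
    ‖A + B‖ ≤ ‖A + (m - starRingEnd ℂ B)‖ := by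
  apply le_of_sq_le_sq _ (norm_nonneg _)
  simp only [← Complex.normSq_eq_norm_sq, Complex.normSq_apply, Complex.add_re, Complex.add_im,
    Complex.sub_re, Complex.sub_im, Complex.conj_re, Complex.conj_im, Complex.ofReal_re,
    Complex.ofReal_im]
  have : 0 ≤ (m - 2 * B.re) * (m + 2 * A.re) := mul_nonneg (by linarith) (by linarith)
  nlinarith

/-- the reflected linear factor -/
noncomputable def fac (w : ℂ) : ℂ[X] := if ‖w‖ ≤ 1 then X - C w else C (starRingEnd ℂ w) * X - 1

lemma fac_norm {z w : ℂ} (hz : ‖z‖ = 1) : ‖(fac w).eval z‖ = ‖z - w‖ := by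
  unfold fac
  split_ifs with h
  · simp
  · simp only [eval_sub, eval_mul, eval_C, eval_X, eval_one]
    have h1 : starRingEnd ℂ w * z - 1 = - z * starRingEnd ℂ (z - w) := by
      have h2 : z * starRingEnd ℂ z = 1 := by
        rw [Complex.mul_conj, Complex.normSq_eq_norm_sq, hz]; norm_num
      rw [map_sub]; linear_combination h2
    rw [h1, norm_mul, norm_neg, hz, one_mul, RCLike.norm_conj]

lemma fac_root {w x : ℂ} (h : (fac w).eval x = 0) : ‖x‖ ≤ 1 := by
  unfold fac at h
  split_ifs at h with hw
  · simp only [eval_sub, eval_X, eval_C] at h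
    rw [sub_eq_zero.mp h]; exact hw
  · simp only [eval_sub, eval_mul, eval_C, eval_X, eval_one] at h
    have h1 := congrArg norm (sub_eq_zero.mp h)
    rw [norm_mul, RCLike.norm_conj, norm_one] at h1
    push Not at hw
    nlinarith [norm_nonneg x]

lemma fac_ne_zero (w : ℂ) : fac w ≠ 0 := by
  intro h
  have h1 : ∀ z : ℂ, ‖z‖ = 1 → z = w := by
    intro z hz
    have := fac_norm (w := w) hz
    rw [h, eval_zero, norm_zero] at this
    exact sub_eq_zero.mp (norm_eq_zero.mp this.symm)
  have h2 := h1 1 (by simp)
  have h3 := h1 (-1) (by simp)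
  rw [← h2] at h3
  norm_num at h3

lemma fac_natDegree (w : ℂ) : (fac w).natDegree = 1 := by
  unfold fac
  split_ifs with h
  · exact natDegree_X_sub_C w
  · have hw : starRingEnd ℂ w ≠ 0 := by
      intro h0
      rw [map_eq_zero] at h0
      rw [h0] at h; simp at h
    rw [sub_eq_add_neg, ← C_1, ← C_neg]
    exact natDegree_linear hw

lemma fac_lc (w : ℂ) : ‖(fac w).leadingCoeff‖ = max 1 ‖w‖ := by
  unfold fac
  split_ifs with h
  · rw [leadingCoeff_X_sub_C, norm_one, max_eq_left h]
  · have hw : starRingEnd ℂ w ≠ 0 := by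
      intro h0
      rw [map_eq_zero] at h0
      rw [h0] at h; simp at h
    rw [sub_eq_add_neg, ← C_1, ← C_neg, leadingCoeff_linear hw, RCLike.norm_conj,
      max_eq_right (not_le.mp h).le]

/-- logarithmic derivative of a product -/
lemma eval_deriv_prod (s : Multiset ℂ) (F : ℂ → ℂ[X]) (z : ℂ) (h : ∀ w ∈ s, (F w).eval z ≠ 0) :
    (derivative (s.map F).prod).eval z =
      ((s.map F).prod).eval z * (s.map fun w => (derivative (F w)).eval z / (F w).eval z).sum := by
  induction s using Multiset.induction_on with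
  | empty => simp
  | cons a s ih =>
    have h1 := ih fun w hw => h w (Multiset.mem_cons_of_mem hw)
    have h2 := h a (Multiset.mem_cons_self a s)
    rw [Multiset.map_cons, Multiset.prod_cons, derivative_mul, eval_add, eval_mul, eval_mul, h1,
      Multiset.map_cons, Multiset.sum_cons, eval_mul]
    field_simp

lemma sum_split (s : Multiset ℂ) {z : ℂ} (hz : ‖z‖ = 1) (hs : ∀ w ∈ s, z ≠ w) :
    ∃ (A B : ℂ) (m : ℝ), 0 ≤ A.re ∧ B.re ≤ m / 2 ∧ 0 ≤ m ∧
      (s.map fun w => z * ((derivative (X - C w)).eval z / (X - C w : ℂ[X]).eval z)).sum = A + B ∧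
      (s.map fun w => z * ((derivative (fac w)).eval z / (fac w).eval z)).sum =
        A + (m - starRingEnd ℂ B) := by
  induction s using Multiset.induction_on with
  | empty => exact ⟨0, 0, 0, by simp, by simp, le_refl _, by simp, by simp⟩
  | cons a s ih =>
    obtain ⟨A, B, m, h1, h2, h3, h4, h5⟩ := ih fun w hw => hs w (Multiset.mem_cons_of_mem hw)
    have hza : z ≠ a := hs a (Multiset.mem_cons_self a s)
    have hza' : z - a ≠ 0 := sub_ne_zero.mpr hza
    simp only [Multiset.map_cons, Multiset.sum_cons]
    rw [h4, h5]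
    by_cases ha : ‖a‖ ≤ 1
    · refine ⟨z / (z - a) + A, B, m, ?_, h2, h3, ?_, ?_⟩
      · rw [Complex.add_re]
        have := re_in hz ha hza
        linarith
      · simp only [derivative_sub, derivative_X, derivative_C, sub_zero, eval_one, eval_sub, eval_X,
          eval_C]
        ring
      · rw [fac, if_pos ha]
        simp only [derivative_sub, derivative_X, derivative_C, sub_zero, eval_one, eval_sub, eval_X,
          eval_C]
        ring
    · refine ⟨A, z / (z - a) + B, m + 1, h1, ?_, by linarith, ?_, ?_⟩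
      · rw [Complex.add_re]
        have := re_out hz (not_le.mp ha)
        linarith
      · simp only [derivative_sub, derivative_X, derivative_C, sub_zero, eval_one, eval_sub, eval_X,
          eval_C]
        ring
      · rw [fac, if_neg ha]
        simp only [derivative_sub, derivative_mul, derivative_X, derivative_C, derivative_one,
          sub_zero, zero_mul, zero_add, mul_one, eval_sub, eval_mul, eval_X, eval_C, eval_one,
          map_add, map_div₀, map_sub]
        have hzz : z * starRingEnd ℂ z = 1 := by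
          rw [Complex.mul_conj, Complex.normSq_eq_norm_sq, hz]; norm_num
        have hne : starRingEnd ℂ z - starRingEnd ℂ a ≠ 0 := by
          rw [← map_sub]; exact (map_ne_zero (starRingEnd ℂ)).mpr hza'
        have hne2 : starRingEnd ℂ a * z - 1 ≠ 0 := by
          intro h0
          have h6 : starRingEnd ℂ a * z - 1 = - z * (starRingEnd ℂ z - starRingEnd ℂ a) := by
            linear_combination hzz
          rw [h6] at h0
          rcases mul_eq_zero.mp h0 with h7 | h7
          · rw [neg_eq_zero] at h7; rw [h7] at hz; simp at hz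
          · exact hne h7
        have e : z * (starRingEnd ℂ a / (starRingEnd ℂ a * z - 1)) =
            1 - starRingEnd ℂ z / (starRingEnd ℂ z - starRingEnd ℂ a) := by
          rw [mul_div_assoc', one_sub_div hne, div_eq_div_iff hne2 hne]
          linear_combination (starRingEnd ℂ a) * hzz
        rw [e]
        push_cast
        ring

/-- the reflected polynomial -/
noncomputable def refp (s : Multiset ℂ) : ℂ[X] := (s.map fac).prod

lemma refp_ne_zero (s : Multiset ℂ) : refp s ≠ 0 := by
  rw [refp]
  apply Multiset.prod_ne_zero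
  intro h
  obtain ⟨w, _, hw⟩ := Multiset.mem_map.mp h
  exact fac_ne_zero w hw

lemma refp_norm (s : Multiset ℂ) {z : ℂ} (hz : ‖z‖ = 1) :
    ‖(refp s).eval z‖ = ‖((s.map fun w => (X - C w : ℂ[X])).prod).eval z‖ := by
  rw [refp]
  induction s using Multiset.induction_on with
  | empty => simp
  | cons a s ih =>
    rw [Multiset.map_cons, Multiset.prod_cons, Multiset.map_cons, Multiset.prod_cons, eval_mul,
      eval_mul, norm_mul, norm_mul, ih, fac_norm hz]
    simp

lemma refp_natDegree (s : Multiset ℂ) : (refp s).natDegree = Multiset.card s := by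
  rw [refp]
  induction s using Multiset.induction_on with
  | empty => simp
  | cons a s ih =>
    have h0 := refp_ne_zero s
    rw [refp] at h0
    rw [Multiset.map_cons, Multiset.prod_cons, natDegree_mul (fac_ne_zero a) h0,
      ih, fac_natDegree, Multiset.card_cons, add_comm]

lemma refp_lc (s : Multiset ℂ) : ‖(refp s).leadingCoeff‖ = (s.map fun w => max 1 ‖w‖).prod := by
  rw [refp]
  induction s using Multiset.induction_on with
  | empty => simp
  | cons a s ih =>
    rw [Multiset.map_cons, Multiset.prod_cons, Multiset.map_cons, Multiset.prod_cons,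
      leadingCoeff_mul, norm_mul, ih, fac_lc]

lemma refp_root (s : Multiset ℂ) {x : ℂ} (h : (refp s).eval x = 0) : ‖x‖ ≤ 1 := by
  rw [refp] at h
  induction s using Multiset.induction_on with
  | empty => simp at h
  | cons a s ih =>
    rw [Multiset.map_cons, Multiset.prod_cons, eval_mul] at h
    rcases mul_eq_zero.mp h with h | h
    · exact fac_root h
    · exact ih h

/-- pointwise comparison of derivatives on the unit circle -/
lemma deriv_le (s : Multiset ℂ) {z : ℂ} (hz : ‖z‖ = 1) (hs : ∀ w ∈ s, z ≠ w) :
    ‖(derivative ((s.map fun w => (X - C w : ℂ[X])).prod)).eval z‖ ≤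
      ‖(derivative (refp s)).eval z‖ := by
  obtain ⟨A, B, m, h1, h2, h3, h4, h5⟩ := sum_split s hz hs
  have hc := cmp h1 h2 h3
  rw [← h4, ← h5] at hc
  simp only [Multiset.sum_map_mul_left, norm_mul, hz, one_mul] at hc
  rw [eval_deriv_prod s (fun w => X - C w) z (by
    intro w hw
    simpa using sub_ne_zero.mpr (hs w hw))]
  rw [refp, eval_deriv_prod s fac z (by
    intro w hw h0
    have := fac_norm (w := w) hz
    rw [h0, norm_zero] at this
    exact hs w hw (sub_eq_zero.mp (norm_eq_zero.mp this.symm)))]
  rw [norm_mul, norm_mul]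
  have h6 := refp_norm s hz
  rw [refp] at h6
  rw [h6]
  exact mul_le_mul_of_nonneg_left hc (norm_nonneg _)

/-- monotonicity of the Mahler measure -/
lemma mm_mono (p q : ℂ[X]) (B : Finset ℂ)
    (h : ∀ z : ℂ, ‖z‖ = 1 → z ∉ B → ‖p.eval z‖ ≤ ‖q.eval z‖) :
    p.mahlerMeasure ≤ q.mahlerMeasure := by
  classical
  by_cases hp : p = 0
  · rw [hp, mahlerMeasure_zero]; exact mahlerMeasure_nonneg q
  set E : Finset ℂ := B ∪ p.roots.toFinset with hE
  have hae : ∀ᵐ x : ℝ, circleMap 0 1 x ∉ (E : Set ℂ) :=
    (E.countable_toSet.preimage_circleMap 0 one_ne_zero).ae_notMem _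
  have hpt : ∀ x : ℝ, circleMap 0 1 x ∉ (E : Set ℂ) → p.eval (circleMap 0 1 x) ≠ 0 ∧
      ‖p.eval (circleMap 0 1 x)‖ ≤ ‖q.eval (circleMap 0 1 x)‖ := by
    intro x hx
    refine ⟨fun h0 => hx (by simp [hE, hp, h0]), ?_⟩
    refine h _ (by simp) fun hb => hx (by simp [hE, hb])
  have hq : q ≠ 0 := by
    rintro rfl
    obtain ⟨x, hx⟩ := hae.exists
    obtain ⟨h1, h2⟩ := hpt x hx
    rw [eval_zero, norm_zero] at h2
    exact h1 (norm_eq_zero.mp (le_antisymm h2 (norm_nonneg _)))
  rw [mahlerMeasure, mahlerMeasure, if_pos hp, if_pos hq]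
  apply Real.exp_le_exp.mpr
  rw [logMahlerMeasure_def, logMahlerMeasure_def, Real.circleAverage_def, Real.circleAverage_def]
  apply mul_le_mul_of_nonneg_left _ (by positivity)
  apply intervalIntegral.integral_mono_ae (by positivity) p.intervalIntegrable_mahlerMeasure
    q.intervalIntegrable_mahlerMeasure
  filter_upwards [hae] with x hx
  obtain ⟨h1, h2⟩ := hpt x hx
  exact Real.log_le_log (norm_pos_iff.mpr h1) h2

/-- Mahler's inequality for the derivative -/
theorem mm_deriv (p : ℂ[X]) :
    (derivative p).mahlerMeasure ≤ p.natDegree * p.mahlerMeasure := by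
  classical
  by_cases hd : p.natDegree = 0
  · rw [derivative_of_natDegree_zero hd, mahlerMeasure_zero, hd]; simp
  have hp : p ≠ 0 := by rintro rfl; simp at hd
  set s := p.roots with hs
  have hsp : p = C p.leadingCoeff * ((s.map fun w => (X - C w : ℂ[X])).prod) :=
    (IsAlgClosed.splits p).eq_prod_roots
  have hcard : Multiset.card s = p.natDegree := (IsAlgClosed.splits p).natDegree_eq_card_roots.symm
  have h1 : (derivative p).mahlerMeasure =
      ‖p.leadingCoeff‖ * (derivative ((s.map fun w => (X - C w : ℂ[X])).prod)).mahlerMeasure := by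
    conv_lhs => rw [hsp]
    rw [derivative_C_mul, mahlerMeasure_mul, mahlerMeasure_const]
  have h2 := mm_mono (derivative ((s.map fun w => (X - C w : ℂ[X])).prod)) (derivative (refp s))
    s.toFinset (by
      intro z hz hzs
      apply deriv_le s hz
      rintro w hw rfl
      exact hzs (Multiset.mem_toFinset.mpr hw))
  have h3 : (derivative (refp s)).mahlerMeasure = p.natDegree * (s.map fun w => max 1 ‖w‖).prod := by
    rw [mahlerMeasure_eq_leadingCoeff_mul_prod_roots, leadingCoeff_derivative, norm_mul, refp_lc,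
      refp_natDegree, hcard, Complex.norm_natCast]
    have h4 : ((derivative (refp s)).roots.map fun a => max 1 ‖a‖).prod = 1 := by
      apply Multiset.prod_eq_one
      intro x hx
      obtain ⟨a, ha, rfl⟩ := Multiset.mem_map.mp hx
      apply max_eq_left
      have hdeg : 0 < (refp s).degree := by
        rw [← natDegree_pos_iff_degree_pos, refp_natDegree, hcard]
        omega
      have h5 := rootSet_derivative_subset_convexHull_rootSet hdeg
      have hdne : derivative (refp s) ≠ 0 := (mem_roots'.mp ha).1
      have h6 : a ∈ (derivative (refp s)).rootSet ℂ := by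
        rw [mem_rootSet]
        refine ⟨hdne, ?_⟩
        have := (mem_roots'.mp ha).2
        simpa using this
      have h7 : convexHull ℝ ((refp s).rootSet ℂ) ⊆ Metric.closedBall (0:ℂ) 1 := by
        apply convexHull_min _ (convex_closedBall _ _)
        intro x hx
        rw [mem_rootSet] at hx
        have := refp_root s (x := x) (by simpa using hx.2)
        simpa using this
      have := h7 (h5 h6)
      simpa using this
    rw [h4]; ring
  rw [mahlerMeasure_eq_leadingCoeff_mul_prod_roots p, h1]
  calc ‖p.leadingCoeff‖ * (derivative ((s.map fun w => (X - C w : ℂ[X])).prod)).mahlerMeasure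
      ≤ ‖p.leadingCoeff‖ * (p.natDegree * (s.map fun w => max 1 ‖w‖).prod) := by
        rw [← h3]; exact mul_le_mul_of_nonneg_left h2 (norm_nonneg _)
    _ = _ := by ring

/-- the Mahler measure of the reversed polynomial -/
lemma mm_reverse (p : ℂ[X]) : p.reverse.mahlerMeasure = p.mahlerMeasure := by
  by_cases hp : p = 0
  · rw [hp, reverse_zero]
  have hr : p.reverse ≠ 0 := by rwa [Ne, reverse_eq_zero]
  rw [mahlerMeasure, mahlerMeasure, if_pos hp, if_pos hr]
  congr 1
  rw [logMahlerMeasure_def, logMahlerMeasure_def]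
  rw [← Real.circleAverage_zero_one_congr_inv (f := fun x => Real.log ‖eval x p‖)]
  apply Real.circleAverage_congr_sphere
  intro z hz
  have hz1 : ‖z‖ = 1 := by simpa using hz
  have hz0 : z ≠ 0 := by rintro rfl; simp at hz1
  have hzi0 : z⁻¹ ≠ 0 := inv_ne_zero hz0
  letI : Invertible (z⁻¹) := invertibleOfNonzero hzi0
  have h1 := eval₂_reverse_mul_pow (RingHom.id ℂ) z⁻¹ p
  rw [invOf_eq_inv, inv_inv] at h1
  simp only [eval₂_id] at h1
  show Real.log ‖eval z p.reverse‖ = Real.log ‖eval z⁻¹ p‖
  rw [← h1, norm_mul, norm_pow, norm_inv, hz1]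
  simp

lemma support_reverse_card (p : ℂ[X]) : p.reverse.support.card ≤ p.support.card := by
  rw [reverse, reflect_support, Finset.card_image_of_injective _ (revAt _).injective]

lemma support_derivative_card (q : ℂ[X]) (h0 : q.coeff 0 ≠ 0) {k : ℕ}
    (hk : q.support.card ≤ k + 1) : (derivative q).support.card ≤ k := by
  have h1 : (derivative q).support.card ≤ (q.support.erase 0).card := by
    apply Finset.card_le_card_of_injOn (fun i => i + 1)
    · intro i hi
      have hi' : (derivative q).coeff i ≠ 0 := by simpa using hi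
      rw [coeff_derivative] at hi'
      have : q.coeff (i + 1) ≠ 0 := left_ne_zero_of_mul hi'
      simp [this]
    · intro a _ b _ h
      simpa using h
  have h2 : (q.support.erase 0).card + 1 = q.support.card :=
    Finset.card_erase_add_one (by simpa using h0)
  omega

/-- **coefficient bound** for polynomials with few terms -/
theorem coeff_le : ∀ (k : ℕ) (p : ℂ[X]), p.support.card ≤ k →
    ∀ j, ‖p.coeff j‖ ≤ 2 ^ k * p.mahlerMeasure := by
  intro k
  induction k with
  | zero =>
    intro p hp j
    have : p = 0 := by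
      rw [← support_eq_empty, ← Finset.card_eq_zero]; omega
    rw [this]; simp
  | succ k ih =>
    intro p hp j
    have half : ∀ q : ℂ[X], q.coeff 0 ≠ 0 → q.support.card ≤ k + 1 → ∀ i, q.natDegree ≤ 2 * i →
        ‖q.coeff i‖ ≤ 2 ^ (k + 1) * q.mahlerMeasure := by
      intro q h0 hq i hi
      have hM := mahlerMeasure_nonneg q
      rcases Nat.eq_zero_or_pos i with rfl | hi0
      · have h1 : q.natDegree = 0 := by omega
        have h2 := leadingCoeff_le_mahlerMeasure q
        rw [leadingCoeff, h1] at h2
        have h3 : (1:ℝ) ≤ 2 ^ (k + 1) := one_le_pow₀ (by norm_num)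
        nlinarith
      · have h1 := ih (derivative q) (support_derivative_card q h0 hq) (i - 1)
        rw [coeff_derivative, Nat.sub_add_cancel hi0, norm_mul] at h1
        have e : ‖(((i - 1 : ℕ) : ℂ) + 1)‖ = i := by
          rw [← Nat.cast_add_one, Nat.sub_add_cancel hi0, Complex.norm_natCast]
        rw [e] at h1
        have h2 := mm_deriv q
        have h3 : ‖q.coeff i‖ * i ≤ 2 ^ k * (2 * i * q.mahlerMeasure) := by
          refine h1.trans ?_
          apply mul_le_mul_of_nonneg_left _ (by positivity)
          refine h2.trans ?_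
          apply mul_le_mul_of_nonneg_right _ hM
          exact_mod_cast hi
        have h4 : (0:ℝ) < i := by exact_mod_cast hi0
        have h5 : ‖q.coeff i‖ * i ≤ (2 ^ (k + 1) * q.mahlerMeasure) * i := by
          rw [pow_succ]; linarith
        exact le_of_mul_le_mul_right h5 h4
    by_cases hj : p.coeff j = 0
    · rw [hj, norm_zero]
      have := mahlerMeasure_nonneg p
      positivity
    have hp0 : p ≠ 0 := by rintro rfl; simp at hj
    have hjN : j ≤ p.natDegree := le_natDegree_of_ne_zero hj
    have haj : p.natTrailingDegree ≤ j := natTrailingDegree_le_of_ne_zero hj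
    set q1 := p.reverse with hq1
    set q2 := q1.reverse with hq2
    have hq1d : q1.natDegree = p.natDegree - p.natTrailingDegree := reverse_natDegree p
    have hq2d : q2.natDegree = q1.natDegree := by
      rw [hq2, reverse_natDegree, hq1, natTrailingDegree_reverse]; simp
    have hq10 : q1.coeff 0 ≠ 0 := by rw [hq1, coeff_zero_reverse]; exact leadingCoeff_ne_zero.mpr hp0
    have hq1ne : q1 ≠ 0 := by rintro h; rw [h] at hq10; simp at hq10
    have hq20 : q2.coeff 0 ≠ 0 := by
      rw [hq2, coeff_zero_reverse]; exact leadingCoeff_ne_zero.mpr hq1ne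
    have hc1 : q1.coeff (p.natDegree - j) = p.coeff j := by
      rw [hq1, coeff_reverse, revAt_le (by omega)]
      congr 1; omega
    have hc2 : q2.coeff (j - p.natTrailingDegree) = p.coeff j := by
      rw [hq2, coeff_reverse, revAt_le (by rw [hq1d]; omega), ← hc1]
      congr 1; rw [hq1d]; omega
    have hs1 : q1.support.card ≤ k + 1 := (support_reverse_card p).trans hp
    have hs2 : q2.support.card ≤ k + 1 := (support_reverse_card q1).trans hs1
    have hm1 : q1.mahlerMeasure = p.mahlerMeasure := mm_reverse p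
    have hm2 : q2.mahlerMeasure = p.mahlerMeasure := (mm_reverse q1).trans hm1
    by_cases hcase : q1.natDegree ≤ 2 * (p.natDegree - j)
    · have := half q1 hq10 hs1 _ hcase
      rwa [hc1, hm1] at this
    · have := half q2 hq20 hs2 (j - p.natTrailingDegree) (by rw [hq2d]; omega)
      rwa [hc2, hm2] at this

end Pool.Agent.K3h71.SP
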