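import Mathlib
import Pool.Agent.K3h71.SP.Coef

/-!
# Zeros of a polynomial with few terms in the annuli where one term dominates
-/

set_option autoImplicit false

open Polynomial

namespace Pool.Agent.K3h71.SP

/-- `log max (e^t, |w|)` -/
noncomputable def ph (w : ℂ) (t : ℝ) : ℝ := Real.log (max (Real.exp t) ‖w‖)

lemma ph_zero (t : ℝ) : ph 0 t = t := by
  unfold ph
  rw [norm_zero, max_eq_left (Real.exp_pos t).le, Real.log_exp]

lemma ph_ne {w : ℂ} (hw : w ≠ 0) (t : ℝ) : ph w t = max t (Real.log ‖w‖) := by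
  have hw' : 0 < ‖w‖ := norm_pos_iff.mpr hw
  unfold ph
  rcases le_total (Real.exp t) ‖w‖ with h | h
  · rw [max_eq_right h, max_eq_right]
    rwa [Real.le_log_iff_exp_le hw']
  · rw [max_eq_left h, Real.log_exp, max_eq_left]
    rwa [Real.log_le_iff_le_exp hw']

/-- logarithmic Mahler measure on circles -/
noncomputable def JJ (G : ℂ[X]) (t : ℝ) : ℝ :=
  Real.log (G.comp (C ((Real.exp t : ℝ) : ℂ) * X)).mahlerMeasure

lemma exp_ne (t : ℝ) : ((Real.exp t : ℝ) : ℂ) ≠ 0 := by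
  exact_mod_cast (Real.exp_pos t).ne'

lemma comp_ne_zero {G : ℂ[X]} (hG : G ≠ 0) (t : ℝ) :
    G.comp (C ((Real.exp t : ℝ) : ℂ) * X) ≠ 0 := by
  intro h
  apply hG
  ext i
  have h1 := congrArg (fun p => coeff p i) h
  simp only [comp_C_mul_X_coeff, coeff_zero] at h1
  rcases mul_eq_zero.mp h1 with h2 | h2
  · simpa using h2
  · exact absurd h2 (pow_ne_zero _ (exp_ne t))

lemma JJ_eq {G : ℂ[X]} (hG : G ≠ 0) (t : ℝ) :
    JJ G t = Real.log ‖G.leadingCoeff‖ + (G.roots.map fun w => ph w t).sum := by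
  have hsp : G = C G.leadingCoeff * ((G.roots.map fun w => (X - C w : ℂ[X])).prod) :=
    (IsAlgClosed.splits G).eq_prod_roots
  have h1 : (G.comp (C ((Real.exp t : ℝ) : ℂ) * X)).mahlerMeasure =
      ‖G.leadingCoeff‖ * (G.roots.map fun w => max (Real.exp t) ‖w‖).prod := by
    conv_lhs => rw [hsp]
    rw [mul_comp, C_comp, mahlerMeasure_mul, mahlerMeasure_const, multiset_prod_comp,
      Multiset.map_map, prod_mahlerMeasure_eq_mahlerMeasure_prod, Multiset.map_map]
    congr 2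
    refine Multiset.map_congr rfl fun w _ => ?_
    simp only [Function.comp_apply, sub_comp, X_comp, C_comp]
    rw [sub_eq_add_neg, ← C_neg, mahlerMeasure_C_mul_X_add_C (exp_ne t), norm_neg,
      Complex.norm_real, Real.norm_of_nonneg (Real.exp_pos t).le]
  unfold JJ
  rw [h1]
  have hpos : ∀ w : ℂ, 0 < max (Real.exp t) ‖w‖ := fun w => lt_max_of_lt_left (Real.exp_pos t)
  have hprod : ∀ s : Multiset ℂ, 0 < (s.map fun w => max (Real.exp t) ‖w‖).prod ∧
      Real.log (s.map fun w => max (Real.exp t) ‖w‖).prod = (s.map fun w => ph w t).sum := by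
    intro s
    induction s using Multiset.induction_on with
    | empty => simp
    | cons a s ih =>
      obtain ⟨h2, h3⟩ := ih
      rw [Multiset.map_cons, Multiset.prod_cons, Multiset.map_cons, Multiset.sum_cons]
      refine ⟨mul_pos (hpos a) h2, ?_⟩
      rw [Real.log_mul (hpos a).ne' h2.ne', h3]
      rfl
  obtain ⟨h2, h3⟩ := hprod G.roots
  rw [Real.log_mul (norm_pos_iff.mpr (leadingCoeff_ne_zero.mpr hG)).ne' h2.ne', h3]

/-- the term `s` is maximal at radius `e^t` -/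
def Dom (G : ℂ[X]) (s : ℕ) (t : ℝ) : Prop :=
  ∀ j, ‖G.coeff j‖ * Real.exp (j * t) ≤ ‖G.coeff s‖ * Real.exp (s * t)

lemma norm_comp_coeff (G : ℂ[X]) (t : ℝ) (j : ℕ) :
    ‖(G.comp (C ((Real.exp t : ℝ) : ℂ) * X)).coeff j‖ = ‖G.coeff j‖ * Real.exp (j * t) := by
  rw [comp_C_mul_X_coeff, norm_mul, norm_pow, Complex.norm_real,
    Real.norm_of_nonneg (Real.exp_pos t).le, ← Real.exp_nat_mul]

lemma comp_support_card (G : ℂ[X]) (t : ℝ) :
    (G.comp (C ((Real.exp t : ℝ) : ℂ) * X)).support.card ≤ G.support.card := by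
  apply Finset.card_le_card
  intro j hj
  rw [mem_support_iff, comp_C_mul_X_coeff] at hj
  rw [mem_support_iff]
  exact left_ne_zero_of_mul hj

lemma JJ_le {G : ℂ[X]} {k s : ℕ} (hk : G.support.card ≤ k) (hs : s ∈ G.support) {t : ℝ}
    (hd : Dom G s t) : JJ G t ≤ Real.log k + (Real.log ‖G.coeff s‖ + s * t) := by
  have hG : G ≠ 0 := by rintro rfl; simp at hs
  have hk0 : 0 < k := lt_of_lt_of_le (Finset.card_pos.mpr ⟨s, hs⟩) hk
  have hs0 : 0 < ‖G.coeff s‖ := norm_pos_iff.mpr (mem_support_iff.mp hs)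
  have h1 := mahlerMeasure_le_sum_norm_coeff (G.comp (C ((Real.exp t : ℝ) : ℂ) * X))
  have h2 : (G.comp (C ((Real.exp t : ℝ) : ℂ) * X)).sum (fun _ a => ‖a‖) ≤
      k * (‖G.coeff s‖ * Real.exp (s * t)) := by
    rw [Polynomial.sum_def]
    calc _ ≤ ∑ j ∈ (G.comp (C ((Real.exp t : ℝ) : ℂ) * X)).support,
          (‖G.coeff s‖ * Real.exp (s * t)) := by
            apply Finset.sum_le_sum
            intro j _
            rw [norm_comp_coeff]
            exact hd j
      _ = _ := by rw [Finset.sum_const, nsmul_eq_mul]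
      _ ≤ _ := by
        apply mul_le_mul_of_nonneg_right _ (by positivity)
        exact_mod_cast (comp_support_card G t).trans hk
  have h3 : 0 < (G.comp (C ((Real.exp t : ℝ) : ℂ) * X)).mahlerMeasure :=
    mahlerMeasure_pos_of_ne_zero (comp_ne_zero hG t)
  have h4 := Real.log_le_log h3 (h1.trans h2)
  rw [Real.log_mul (by positivity) (by positivity), Real.log_mul hs0.ne' (Real.exp_pos _).ne',
    Real.log_exp] at h4
  exact h4

lemma le_JJ {G : ℂ[X]} {k s : ℕ} (hk : G.support.card ≤ k) (hs : s ∈ G.support) (t : ℝ) :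
    Real.log ‖G.coeff s‖ + s * t - k * Real.log 2 ≤ JJ G t := by
  have hG : G ≠ 0 := by rintro rfl; simp at hs
  have hs0 : 0 < ‖G.coeff s‖ := norm_pos_iff.mpr (mem_support_iff.mp hs)
  have h1 := coeff_le k _ ((comp_support_card G t).trans hk) s
  rw [norm_comp_coeff] at h1
  have h3 : 0 < (G.comp (C ((Real.exp t : ℝ) : ℂ) * X)).mahlerMeasure :=
    mahlerMeasure_pos_of_ne_zero (comp_ne_zero hG t)
  have h4 := Real.log_le_log (by positivity) h1
  rw [Real.log_mul hs0.ne' (Real.exp_pos _).ne', Real.log_exp,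
    Real.log_mul (by positivity) h3.ne', Real.log_pow] at h4
  unfold JJ
  linarith

lemma second_diff {w : ℂ} {t1 t2 η : ℝ} (h12 : t1 ≤ t2) (hη : 0 ≤ η) :
    0 ≤ ph w (t2 + η) - ph w t2 - (ph w t1 - ph w (t1 - η)) := by
  by_cases hw : w = 0
  · rw [hw]; simp only [ph_zero]; linarith
  · simp only [ph_ne hw]
    rcases le_total (t2 + η) (Real.log ‖w‖) with h1 | h1 <;>
    rcases le_total t2 (Real.log ‖w‖) with h2 | h2 <;>
    rcases le_total t1 (Real.log ‖w‖) with h3 | h3 <;>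
    rcases le_total (t1 - η) (Real.log ‖w‖) with h4 | h4 <;>
    simp only [max_eq_left, max_eq_right, h1, h2, h3, h4] <;> linarith

/-- **zeros in the gaps** -/
theorem gap {G : ℂ[X]} {k s : ℕ} (hk : G.support.card ≤ k) (hs : s ∈ G.support) {η : ℝ}
    (hη : 0 ≤ η) (T : Finset ℂ) (hT : ∀ w ∈ T, G.eval w = 0 ∧ w ≠ 0 ∧
      Dom G s (Real.log ‖w‖ - η) ∧ Dom G s (Real.log ‖w‖ + η)) :
    (T.card : ℝ) * η ≤ 2 * (k * Real.log 2 + Real.log k) := by
  classical
  have hG : G ≠ 0 := by rintro rfl; simp at hs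
  have hk0 : 0 < k := lt_of_lt_of_le (Finset.card_pos.mpr ⟨s, hs⟩) hk
  have hk1 : (1:ℝ) ≤ k := by exact_mod_cast hk0
  rcases T.eq_empty_or_nonempty with rfl | hne
  · have h1 : 0 ≤ Real.log k := Real.log_nonneg hk1
    have h2 : 0 ≤ Real.log 2 := Real.log_nonneg (by norm_num)
    simp only [Finset.card_empty, Nat.cast_zero, zero_mul]
    positivity
  obtain ⟨w1, hw1, hmin⟩ := Finset.exists_min_image T (fun w => Real.log ‖w‖) hne
  obtain ⟨w2, hw2, hmax⟩ := Finset.exists_max_image T (fun w => Real.log ‖w‖) hne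
  set t1 := Real.log ‖w1‖ with ht1
  set t2 := Real.log ‖w2‖ with ht2
  have h12 : t1 ≤ t2 := hmin w2 hw2
  have hA := JJ_le hk hs (hT w2 hw2).2.2.2
  have hB := le_JJ hk hs t2
  have hC := le_JJ hk hs t1
  have hD := JJ_le hk hs (hT w1 hw1).2.2.1
  rw [← ht2] at hA
  rw [← ht1] at hD
  have hsum : JJ G (t2 + η) - JJ G t2 - (JJ G t1 - JJ G (t1 - η)) ≤
      2 * (k * Real.log 2 + Real.log k) := by
    linarith [hA, hB, hC, hD]
  refine le_trans ?_ hsum
  rw [JJ_eq hG, JJ_eq hG, JJ_eq hG, JJ_eq hG]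
  have e : Real.log ‖G.leadingCoeff‖ + (G.roots.map fun w => ph w (t2 + η)).sum -
      (Real.log ‖G.leadingCoeff‖ + (G.roots.map fun w => ph w t2).sum) -
      (Real.log ‖G.leadingCoeff‖ + (G.roots.map fun w => ph w t1).sum -
        (Real.log ‖G.leadingCoeff‖ + (G.roots.map fun w => ph w (t1 - η)).sum)) =
      (G.roots.map fun w => ph w (t2 + η) - ph w t2 - (ph w t1 - ph w (t1 - η))).sum := by
    rw [Multiset.sum_map_sub, Multiset.sum_map_sub, Multiset.sum_map_sub]
    ring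
  rw [e]
  have hle : T.val ≤ G.roots := by
    rw [Multiset.le_iff_subset T.nodup]
    intro w hw
    exact (mem_roots hG).mpr (hT w hw).1
  obtain ⟨R, hR⟩ := Multiset.le_iff_exists_add.mp hle
  rw [hR, Multiset.map_add, Multiset.sum_add]
  have h1 : (T.val.map fun w => ph w (t2 + η) - ph w t2 - (ph w t1 - ph w (t1 - η))).sum =
      T.card * η := by
    have h2 : ∀ w ∈ T, ph w (t2 + η) - ph w t2 - (ph w t1 - ph w (t1 - η)) = η := by
      intro w hw
      have hw0 := (hT w hw).2.1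
      have h3 : t1 ≤ Real.log ‖w‖ := hmin w hw
      have h4 : Real.log ‖w‖ ≤ t2 := hmax w hw
      rw [ph_ne hw0, ph_ne hw0, ph_ne hw0, ph_ne hw0, max_eq_left (by linarith), max_eq_left h4,
        max_eq_right h3, max_eq_right (by linarith)]
      ring
    calc _ = ∑ w ∈ T, (ph w (t2 + η) - ph w t2 - (ph w t1 - ph w (t1 - η))) := rfl
      _ = ∑ w ∈ T, η := Finset.sum_congr rfl h2
      _ = _ := by rw [Finset.sum_const, nsmul_eq_mul]
  have h5 : 0 ≤ (R.map fun w => ph w (t2 + η) - ph w t2 - (ph w t1 - ph w (t1 - η))).sum := by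
    apply Multiset.sum_nonneg
    intro x hx
    obtain ⟨w, _, rfl⟩ := Multiset.mem_map.mp hx
    exact second_diff h12 hη
  linarith

end Pool.Agent.K3h71.SP
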