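import Mathlib
import Pool.Agent.H388SL.Energy

/-!
# Level sets of `|P/Q|` near the unit circle
-/

set_option autoImplicit false

open Polynomial

namespace Pool.Agent.K3h71.SP

/-- `|P|²` and `|Q|²` are linearly independent over `ℝ` on the unit circle -/
def Ind (P Q : ℂ[X]) : Prop :=
  ∀ a b : ℝ, (∀ z : ℂ, ‖z‖ = 1 → a * ‖P.eval z‖ ^ 2 = b * ‖Q.eval z‖ ^ 2) → a = 0 ∧ b = 0

/-- `z^M |P(z)|²` as a polynomial -/
noncomputable def sqp (M : ℕ) (P : ℂ[X]) : ℂ[X] := P * reflect M (P.map (starRingEnd ℂ))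

lemma sqp_natDegree (M : ℕ) (P : ℂ[X]) (h : P.natDegree ≤ M) : (sqp M P).natDegree ≤ 2 * M := by
  have h1 : (reflect M (P.map (starRingEnd ℂ))).natDegree ≤ M := by
    rw [natDegree_le_iff_coeff_eq_zero]
    intro N hN
    rw [coeff_reflect, revAt_eq_self_of_lt hN, coeff_map, coeff_eq_zero_of_natDegree_lt (by omega),
      map_zero]
  have := natDegree_mul_le (p := P) (q := reflect M (P.map (starRingEnd ℂ)))
  unfold sqp
  omega

lemma sqp_eval (M : ℕ) (P : ℂ[X]) (h : P.natDegree ≤ M) {z : ℂ} (hz : ‖z‖ = 1) :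
    (sqp M P).eval z = z ^ M * ((‖P.eval z‖ ^ 2 : ℝ) : ℂ) := by
  have hz0 : z ≠ 0 := by rintro rfl; simp at hz
  have hzi0 : z⁻¹ ≠ 0 := inv_ne_zero hz0
  let _ : Invertible (z⁻¹) := invertibleOfNonzero hzi0
  have h1 := eval₂_reflect_mul_pow (RingHom.id ℂ) z⁻¹ M (P.map (starRingEnd ℂ))
    (natDegree_map_le.trans h)
  rw [invOf_eq_inv, inv_inv] at h1
  simp only [eval₂_id] at h1
  have h2 : z⁻¹ = starRingEnd ℂ z := by
    rw [Complex.inv_def, Complex.normSq_eq_norm_sq, hz]; simp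
  have h3 : (P.map (starRingEnd ℂ)).eval z⁻¹ = starRingEnd ℂ (P.eval z) := by
    rw [h2, eval_map, eval₂_hom]
  rw [h3] at h1
  have h4 : (reflect M (P.map (starRingEnd ℂ))).eval z = z ^ M * starRingEnd ℂ (P.eval z) := by
    rw [← h1]
    rw [mul_comm (z ^ M), mul_assoc, ← mul_pow, inv_mul_cancel₀ hz0, one_pow, mul_one]
  rw [sqp, eval_mul, h4]
  have h5 : P.eval z * starRingEnd ℂ (P.eval z) = ((‖P.eval z‖ ^ 2 : ℝ) : ℂ) := by
    rw [Complex.mul_conj, Complex.normSq_eq_norm_sq]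
  rw [← h5]; ring

/-- quantitative independence -/
lemma exists_coeff (P Q : ℂ[X]) (M : ℕ) (hP : P.natDegree ≤ M) (hQ : Q.natDegree ≤ M)
    (hI : Ind P Q) : ∃ κ : ℝ, 0 < κ ∧ ∀ c : ℝ, 0 ≤ c →
      ∃ i, κ * (1 + c) ≤ ‖(sqp M P - C (c : ℂ) * sqp M Q).coeff i‖ := by
  let L : ℝ × ℝ →ₗ[ℝ] (Fin (2 * M + 1) → ℂ) :=
    { toFun := fun x i => (x.1 : ℂ) * (sqp M P).coeff i - (x.2 : ℂ) * (sqp M Q).coeff i
      map_add' := by
        intro x y; ext i
        simp only [Prod.fst_add, Prod.snd_add, Complex.ofReal_add, Pi.add_apply]; ring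
      map_smul' := by
        intro r x; ext i
        simp only [Prod.smul_fst, Prod.smul_snd, smul_eq_mul, Complex.ofReal_mul, RingHom.id_apply,
          Pi.smul_apply, Complex.real_smul]; ring }
  have hker : LinearMap.ker L = ⊥ := by
    rw [LinearMap.ker_eq_bot']
    rintro ⟨a, b⟩ hab
    have h1 : C (a : ℂ) * sqp M P = C (b : ℂ) * sqp M Q := by
      ext i
      rw [coeff_C_mul, coeff_C_mul]
      by_cases hi : i < 2 * M + 1
      · have h2 := congrFun hab ⟨i, hi⟩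
        exact sub_eq_zero.mp h2
      · rw [coeff_eq_zero_of_natDegree_lt (lt_of_le_of_lt (sqp_natDegree M P hP) (by omega)),
          coeff_eq_zero_of_natDegree_lt (lt_of_le_of_lt (sqp_natDegree M Q hQ) (by omega)),
          mul_zero, mul_zero]
    have h2 := hI a b (by
      intro z hz
      have h3 := congrArg (fun p => eval z p) h1
      simp only [eval_mul, eval_C, sqp_eval M P hP hz, sqp_eval M Q hQ hz] at h3
      have hz0 : z ^ M ≠ 0 := by
        apply pow_ne_zero; rintro rfl; simp at hz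
      have h4 : z ^ M * ((a : ℂ) * ((‖P.eval z‖ ^ 2 : ℝ) : ℂ)) =
          z ^ M * ((b : ℂ) * ((‖Q.eval z‖ ^ 2 : ℝ) : ℂ)) := by linear_combination h3
      have h5 := mul_left_cancel₀ hz0 h4
      exact_mod_cast h5)
    rw [h2.1, h2.2]; rfl
  obtain ⟨K, hK0, hK⟩ := L.exists_antilipschitzWith hker
  refine ⟨1 / (2 * K), by positivity, ?_⟩
  intro c hc
  have h1 := hK.le_mul_dist (1, c) (0, 0)
  have h0 : L (0, 0) = 0 := by
    have : ((0:ℝ), (0:ℝ)) = 0 := rfl
    rw [this, map_zero]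
  rw [h0, dist_zero_right, show ((0:ℝ), (0:ℝ)) = 0 from rfl, dist_zero_right] at h1
  have h2 : (1 + c) / 2 ≤ ‖((1:ℝ), c)‖ := by
    have h3 : (1:ℝ) ≤ ‖((1:ℝ), c)‖ := by
      simp
    have h4 : c ≤ ‖((1:ℝ), c)‖ := by
      have := norm_snd_le ((1:ℝ), c)
      simp only [Real.norm_eq_abs, abs_of_nonneg hc] at this
      exact this
    linarith
  by_contra hcon
  push Not at hcon
  have h5 : ‖L (1, c)‖ < 1 / (2 * K) * (1 + c) := by
    rw [pi_norm_lt_iff (by positivity)]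
    intro i
    have h6 := hcon i
    rw [coeff_sub, coeff_C_mul] at h6
    have h7 : L (1, c) i = (sqp M P).coeff i - (c : ℂ) * (sqp M Q).coeff i := by
      show ((1:ℝ) : ℂ) * (sqp M P).coeff i - (c : ℂ) * (sqp M Q).coeff i = _
      rw [Complex.ofReal_one, one_mul]
    rw [h7]; exact h6
  have hK0' : (0:ℝ) < K := by exact_mod_cast hK0
  have h8 : (K : ℝ) * ‖L (1, c)‖ < K * (1 / (2 * K) * (1 + c)) := mul_lt_mul_of_pos_left h5 hK0'
  have h9 : (K : ℝ) * (1 / (2 * K) * (1 + c)) = (1 + c) / 2 := by field_simp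
  linarith

/-- lower bound away from the roots -/
lemma away (p : ℂ[X]) {r : ℝ} (hr0 : 0 < r) (hr1 : r ≤ 1) {ζ : ℂ} (hζ : ‖ζ‖ = 1)
    (h : ∀ w ∈ p.roots, r ≤ ‖ζ - w‖) {D : ℕ} (hD : p.natDegree ≤ D) :
    p.mahlerMeasure * (r / 2) ^ D ≤ ‖p.eval ζ‖ := by
  rw [mahlerMeasure_eq_leadingCoeff_mul_prod_roots, (IsAlgClosed.splits p).eval_eq_prod_roots,
    norm_mul, mul_assoc]
  apply mul_le_mul_of_nonneg_left _ (norm_nonneg _)
  have hcard : Multiset.card p.roots ≤ D := (card_roots' p).trans hD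
  have h1 : (r / 2) ^ D ≤ (r / 2) ^ (Multiset.card p.roots) :=
    pow_le_pow_of_le_one (by positivity) (by linarith) hcard
  have h2 : ∀ s : Multiset ℂ, (∀ w ∈ s, r ≤ ‖ζ - w‖) →
      0 ≤ (s.map fun a => max 1 ‖a‖).prod ∧
      (s.map fun a => max 1 ‖a‖).prod * (r / 2) ^ (Multiset.card s) ≤
      ‖(s.map fun a => ζ - a).prod‖ := by
    intro s
    induction s using Multiset.induction_on with
    | empty => intro _; simp
    | cons a s ih =>
      intro hs
      obtain ⟨h3, h4⟩ := ih fun w hw => hs w (Multiset.mem_cons_of_mem hw)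
      have h5 := hs a (Multiset.mem_cons_self a s)
      rw [Multiset.map_cons, Multiset.prod_cons, Multiset.map_cons, Multiset.prod_cons, norm_mul,
        Multiset.card_cons, pow_succ]
      have hm : 0 ≤ max 1 ‖a‖ := le_trans zero_le_one (le_max_left _ _)
      refine ⟨mul_nonneg hm h3, ?_⟩
      have h6 : max 1 ‖a‖ * (r / 2) ≤ ‖ζ - a‖ := by
        have h7 : ‖a‖ - 1 ≤ ‖ζ - a‖ := by
          have := norm_sub_norm_le a ζ
          rw [hζ, norm_sub_rev] at this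
          exact this
        rcases le_total ‖a‖ 1 with h8 | h8
        · rw [max_eq_left h8]; linarith
        · rw [max_eq_right h8]
          rcases le_total ‖a‖ 2 with h9 | h9
          · nlinarith
          · nlinarith
      calc max 1 ‖a‖ * (s.map fun a => max 1 ‖a‖).prod * ((r / 2) ^ (Multiset.card s) * (r / 2))
          = (max 1 ‖a‖ * (r / 2)) * ((s.map fun a => max 1 ‖a‖).prod * (r / 2) ^ (Multiset.card s)) := by
            ring
        _ ≤ ‖ζ - a‖ * ‖(s.map fun a => ζ - a).prod‖ :=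
            mul_le_mul h6 h4 (mul_nonneg h3 (by positivity)) (norm_nonneg _)
  obtain ⟨h3, h4⟩ := h2 p.roots h
  refine le_trans ?_ h4
  exact mul_le_mul_of_nonneg_left h1 h3

lemma lipP (P : ℂ[X]) : ∃ K : ℝ, 0 ≤ K ∧ ∀ z w : ℂ, ‖z‖ ≤ 3 → ‖w‖ ≤ 3 →
    |‖P.eval z‖ ^ 2 - ‖P.eval w‖ ^ 2| ≤ K * ‖z - w‖ := by
  have h1 : ContDiff ℝ 1 (fun z : ℂ => ‖P.eval z‖ ^ 2) := by
    have h2 : ContDiff ℝ 1 (fun z : ℂ => P.eval z) := by
      have : ContDiff ℂ 1 (fun z : ℂ => P.eval z) := by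
        have h3 : Differentiable ℂ (fun z : ℂ => P.eval z) := P.differentiable
        exact h3.contDiff
      exact this.restrict_scalars ℝ
    exact h2.norm_sq ℝ
  have h3 : LocallyLipschitz (fun z : ℂ => ‖P.eval z‖ ^ 2) := h1.locallyLipschitz
  obtain ⟨K, hK⟩ := LocallyLipschitzOn.exists_lipschitzOnWith_of_compact
    (isCompact_closedBall (0:ℂ) 3) h3.locallyLipschitzOn
  refine ⟨K, K.2, ?_⟩
  intro z w hz hw
  have := hK.dist_le_mul z (by simpa using hz) w (by simpa using hw)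
  rw [Real.dist_eq, dist_eq_norm] at this
  exact this

open Pool.Agent.H388SL (refl norm_refl_le)

/-- the radial projection to the circle -/
noncomputable def rad (z : ℂ) : ℂ := z / (‖z‖ : ℂ)

lemma rad_norm {z : ℂ} (hz : z ≠ 0) : ‖rad z‖ = 1 := by
  rw [rad, norm_div, Complex.norm_real, norm_norm, div_self (norm_ne_zero_iff.mpr hz)]

lemma rad_dist {z : ℂ} (hz : z ≠ 0) (h : |Real.log ‖z‖| ≤ 1) :
    ‖z - rad z‖ ≤ 2 * |Real.log ‖z‖| := by
  have hpos : 0 < ‖z‖ := norm_pos_iff.mpr hz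
  have hzc : (‖z‖ : ℂ) ≠ 0 := by exact_mod_cast hpos.ne'
  have e : z - rad z = rad z * (((‖z‖ - 1 : ℝ)) : ℂ) := by
    rw [rad]; push_cast; field_simp
  rw [e, norm_mul, rad_norm hz, one_mul, Complex.norm_real, Real.norm_eq_abs]
  have := Real.abs_exp_sub_one_le h
  rwa [Real.exp_log hpos] at this

lemma refl_dist {z : ℂ} (hz : z ≠ 0) : ‖refl z - rad z‖ ≤ |Real.log ‖z‖| := by
  have hpos : 0 < ‖z‖ := norm_pos_iff.mpr hz
  have hzc : (‖z‖ : ℂ) ≠ 0 := by exact_mod_cast hpos.ne'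
  unfold Pool.Agent.H388SL.refl
  split_ifs with h
  · have e : z - rad z = rad z * (((‖z‖ - 1 : ℝ)) : ℂ) := by
      rw [rad]; push_cast; field_simp
    rw [e, norm_mul, rad_norm hz, one_mul, Complex.norm_real, Real.norm_eq_abs,
      abs_of_nonpos (by linarith), abs_of_nonpos (Real.log_nonpos hpos.le h)]
    have := Real.log_le_sub_one_of_pos hpos
    linarith
  · push Not at h
    have e : (starRingEnd ℂ z)⁻¹ - rad z = rad z * (((‖z‖⁻¹ - 1 : ℝ)) : ℂ) := by
      have h1 : starRingEnd ℂ z ≠ 0 := (_root_.map_ne_zero _).mpr hz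
      have h2 : z * starRingEnd ℂ z = (‖z‖ : ℂ) ^ 2 := by
        rw [Complex.mul_conj, Complex.normSq_eq_norm_sq]; push_cast; rfl
      rw [rad]; push_cast
      rw [mul_sub, mul_one, sub_left_inj, inv_eq_iff_eq_inv, div_mul_eq_mul_div, inv_div,
        eq_div_iff (mul_ne_zero hz (inv_ne_zero hzc))]
      field_simp
      rw [mul_comm]; exact h2
    rw [e, norm_mul, rad_norm hz, one_mul, Complex.norm_real, Real.norm_eq_abs,
      abs_of_nonpos (by
        have : ‖z‖⁻¹ ≤ 1 := inv_le_one_of_one_le₀ h.le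
        linarith), abs_of_nonneg (Real.log_nonneg h.le)]
    have := Real.log_le_sub_one_of_pos (inv_pos.mpr hpos)
    rw [Real.log_inv] at this
    linarith

/-- **covering of level sets**: near the unit circle a level set of `|P/Q|` is contained in a
bounded number of small discs -/
theorem win (P Q : ℂ[X]) (hI : Ind P Q) : ∃ (c : ℝ) (D : ℕ), 0 < c ∧ c ≤ 1 ∧
    ∀ r : ℝ, 0 < r → r ≤ 1 → ∀ s : ℝ, ∃ Ξ : Finset ℂ, Ξ.card ≤ D ∧ (∀ ξ ∈ Ξ, ‖ξ‖ = 1) ∧
      ∀ z : ℂ, z ≠ 0 → |Real.log ‖z‖| ≤ c * r ^ D → P.eval z ≠ 0 → Q.eval z ≠ 0 →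
        |Real.log ‖P.eval z‖ - Real.log ‖Q.eval z‖ - s| ≤ c * r ^ D →
        ∃ ξ ∈ Ξ, ‖refl z - ξ‖ ≤ 3 * r := by
  classical
  set M := max P.natDegree Q.natDegree with hM
  obtain ⟨κ, hκ0, hκ⟩ := exists_coeff P Q M (le_max_left _ _) (le_max_right _ _) hI
  obtain ⟨KP, hKP0, hKP⟩ := lipP P
  obtain ⟨KQ, hKQ0, hKQ⟩ := lipP Q
  obtain ⟨B, hB0, hB⟩ : ∃ B : ℝ, 0 ≤ B ∧ ∀ z : ℂ, ‖z‖ ≤ 3 → ‖Q.eval z‖ ^ 2 ≤ B := by
    refine ⟨‖Q.eval 0‖ ^ 2 + KQ * 3, by positivity, ?_⟩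
    intro z hz
    have h1 := hKQ z 0 hz (by simp)
    rw [sub_zero] at h1
    have h2 := le_abs_self (‖Q.eval z‖ ^ 2 - ‖Q.eval 0‖ ^ 2)
    nlinarith [norm_nonneg z]
  set D := 2 * M with hD
  set C1 : ℝ := 2 * KP + 2 * KQ + 4 * B + 1 with hC1
  have hC10 : 0 < C1 := by positivity
  set c : ℝ := min (1 / 2) (κ / (2 * C1 * 4 ^ D)) with hc
  have hc0 : 0 < c := by
    apply lt_min (by norm_num); positivity
  have hc1 : c ≤ 1 / 2 := min_le_left _ _
  have hc2 : c * C1 * 4 ^ D < κ := by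
    have h1 : c ≤ κ / (2 * C1 * 4 ^ D) := min_le_right _ _
    rw [le_div_iff₀ (by positivity)] at h1
    linarith
  refine ⟨c, D, hc0, by linarith, ?_⟩
  intro r hr0 hr1 s
  have hrD : r ^ D ≤ 1 := pow_le_one₀ hr0.le hr1
  have hrD0 : 0 < r ^ D := by positivity
  set cc := Real.exp (2 * s) with hcc
  have hcc0 : 0 < cc := Real.exp_pos _
  set p := sqp M P - C (cc : ℂ) * sqp M Q with hp
  have hpd : p.natDegree ≤ D := by
    refine (natDegree_sub_le _ _).trans (max_le (sqp_natDegree M P (le_max_left _ _)) ?_)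
    exact (natDegree_C_mul_le _ _).trans (sqp_natDegree M Q (le_max_right _ _))
  obtain ⟨i, hi⟩ := hκ cc hcc0.le
  rw [← hp] at hi
  have hpM : κ * (1 + cc) ≤ 2 ^ D * p.mahlerMeasure := by
    have h1 := norm_coeff_le_choose_mul_mahlerMeasure i p
    have h2 : ((p.natDegree.choose i : ℕ) : ℝ) ≤ 2 ^ D := by
      have h3 : p.natDegree.choose i ≤ 2 ^ p.natDegree := Nat.choose_le_two_pow _ _
      have h4 : 2 ^ p.natDegree ≤ 2 ^ D := Nat.pow_le_pow_right (by norm_num) hpd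
      exact_mod_cast h3.trans h4
    have h3 := mul_le_mul_of_nonneg_right h2 (mahlerMeasure_nonneg p)
    linarith
  let good : ℂ → Prop := fun w => ∃ ζ : ℂ, ‖ζ‖ = 1 ∧ ‖ζ - w‖ < r
  let pick : ℂ → ℂ := fun w => if h : good w then h.choose else 1
  have hpick : ∀ w, good w → ‖pick w‖ = 1 ∧ ‖pick w - w‖ < r := by
    intro w hw
    simp only [pick, dif_pos hw]
    exact hw.choose_spec
  refine ⟨(p.roots.toFinset.filter good).image pick, ?_, ?_, ?_⟩
  · refine Finset.card_image_le.trans ((Finset.card_filter_le _ _).trans ?_)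
    exact (Multiset.toFinset_card_le _).trans ((card_roots' p).trans hpd)
  · intro ξ hξ
    obtain ⟨w, hw, rfl⟩ := Finset.mem_image.mp hξ
    exact (hpick w (Finset.mem_filter.mp hw).2).1
  · intro z hz hlz hPz hQz hs
    set ε := c * r ^ D with hε
    have hε1 : ε ≤ 1 / 2 := by
      rw [hε]; nlinarith
    have hε0 : 0 < ε := by positivity
    have hpos : 0 < ‖z‖ := norm_pos_iff.mpr hz
    have hz3 : ‖z‖ ≤ 3 := by
      have h1 : Real.log ‖z‖ ≤ 1 := by
        have := le_abs_self (Real.log ‖z‖); linarith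
      have h2 : ‖z‖ ≤ Real.exp 1 := by
        rwa [Real.log_le_iff_le_exp hpos] at h1
      have := Real.exp_one_lt_d9
      linarith
    have hradd := rad_dist hz (by linarith)
    have hradn := rad_norm hz
    have hrad3 : ‖rad z‖ ≤ 3 := by rw [hradn]; norm_num
    -- values
    have hP0 : 0 < ‖P.eval z‖ := norm_pos_iff.mpr hPz
    have hQ0 : 0 < ‖Q.eval z‖ := norm_pos_iff.mpr hQz
    have h1 : |‖P.eval z‖ ^ 2 - cc * ‖Q.eval z‖ ^ 2| ≤ cc * (4 * B * ε) := by
      set θ := Real.log ‖P.eval z‖ - Real.log ‖Q.eval z‖ - s with hθ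
      have h2 : ‖P.eval z‖ ^ 2 = cc * ‖Q.eval z‖ ^ 2 * Real.exp (2 * θ) := by
        rw [hcc]
        conv_lhs => rw [← Real.exp_log hP0]
        conv_rhs => rw [← Real.exp_log hQ0]
        rw [← Real.exp_nat_mul, ← Real.exp_nat_mul, ← Real.exp_add, ← Real.exp_add, hθ]
        congr 1
        push_cast
        ring
      have h3 : |2 * θ| ≤ 1 := by
        rw [abs_mul, abs_two]; linarith
      have h4 := Real.abs_exp_sub_one_le h3
      rw [h2]
      have h5 : cc * ‖Q.eval z‖ ^ 2 * Real.exp (2 * θ) - cc * ‖Q.eval z‖ ^ 2 =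
          cc * (‖Q.eval z‖ ^ 2 * (Real.exp (2 * θ) - 1)) := by ring
      rw [h5, abs_mul, abs_of_pos hcc0, abs_mul, abs_of_nonneg (by positivity)]
      apply mul_le_mul_of_nonneg_left _ hcc0.le
      have h6 : 2 * |2 * θ| ≤ 4 * ε := by
        rw [abs_mul, abs_two]; linarith
      calc ‖Q.eval z‖ ^ 2 * |Real.exp (2 * θ) - 1| ≤ B * (4 * ε) :=
            mul_le_mul (hB z hz3) (h4.trans h6) (abs_nonneg _) hB0
        _ = 4 * B * ε := by ring
    have h2 := hKP z (rad z) hz3 hrad3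
    have h3 := hKQ z (rad z) hz3 hrad3
    have h4 : |‖P.eval (rad z)‖ ^ 2 - cc * ‖Q.eval (rad z)‖ ^ 2| ≤ C1 * (1 + cc) * ε := by
      have e : ‖P.eval (rad z)‖ ^ 2 - cc * ‖Q.eval (rad z)‖ ^ 2 =
          (‖P.eval z‖ ^ 2 - cc * ‖Q.eval z‖ ^ 2) - (‖P.eval z‖ ^ 2 - ‖P.eval (rad z)‖ ^ 2) +
          cc * (‖Q.eval z‖ ^ 2 - ‖Q.eval (rad z)‖ ^ 2) := by ring
      rw [e]
      have h5 := abs_add_le ((‖P.eval z‖ ^ 2 - cc * ‖Q.eval z‖ ^ 2) -
        (‖P.eval z‖ ^ 2 - ‖P.eval (rad z)‖ ^ 2)) (cc * (‖Q.eval z‖ ^ 2 - ‖Q.eval (rad z)‖ ^ 2))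
      have h6 := abs_sub (‖P.eval z‖ ^ 2 - cc * ‖Q.eval z‖ ^ 2)
        (‖P.eval z‖ ^ 2 - ‖P.eval (rad z)‖ ^ 2)
      rw [abs_mul cc, abs_of_pos hcc0] at h5
      have h7 : KP * ‖z - rad z‖ ≤ KP * (2 * ε) :=
        mul_le_mul_of_nonneg_left (by linarith) hKP0
      have h8 : cc * |‖Q.eval z‖ ^ 2 - ‖Q.eval (rad z)‖ ^ 2| ≤ cc * (KQ * (2 * ε)) := by
        apply mul_le_mul_of_nonneg_left _ hcc0.le
        exact h3.trans (mul_le_mul_of_nonneg_left (by linarith) hKQ0)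
      have h9 : C1 * (1 + cc) * ε = 2 * KP * ε + 2 * KQ * ε + 4 * B * ε + ε +
        cc * (2 * KP * ε) + cc * (2 * KQ * ε) + cc * (4 * B * ε) + cc * ε := by
        rw [hC1]; ring
      have h10 : 0 ≤ 2 * KQ * ε := by positivity
      have h11 : 0 ≤ 4 * B * ε := by positivity
      have h12 : 0 ≤ cc * (2 * KP * ε) := by positivity
      have h13 : 0 ≤ cc * ε := by positivity
      linarith
    -- a root close to rad z
    obtain ⟨w, hw, hwr⟩ : ∃ w ∈ p.roots, ‖rad z - w‖ < r := by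
      by_contra hcon
      push Not at hcon
      have h5 := away p hr0 hr1 hradn hcon hpd
      have h6 : ‖p.eval (rad z)‖ = |‖P.eval (rad z)‖ ^ 2 - cc * ‖Q.eval (rad z)‖ ^ 2| := by
        rw [hp, eval_sub, eval_mul, eval_C, sqp_eval M P (le_max_left _ _) hradn,
          sqp_eval M Q (le_max_right _ _) hradn]
        have e : (rad z) ^ M * ((‖P.eval (rad z)‖ ^ 2 : ℝ) : ℂ) -
            (cc : ℂ) * ((rad z) ^ M * ((‖Q.eval (rad z)‖ ^ 2 : ℝ) : ℂ)) =
            (rad z) ^ M * ((‖P.eval (rad z)‖ ^ 2 - cc * ‖Q.eval (rad z)‖ ^ 2 : ℝ) : ℂ) := by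
          push_cast; ring
        rw [e, norm_mul, norm_pow, hradn, one_pow, one_mul, Complex.norm_real, Real.norm_eq_abs]
      rw [h6] at h5
      have h7 := h5.trans h4
      have h8 : κ * (1 + cc) * (r / 2) ^ D ≤ 2 ^ D * (C1 * (1 + cc) * ε) := by
        calc κ * (1 + cc) * (r / 2) ^ D ≤ (2 ^ D * p.mahlerMeasure) * (r / 2) ^ D :=
              mul_le_mul_of_nonneg_right hpM (by positivity)
          _ = 2 ^ D * (p.mahlerMeasure * (r / 2) ^ D) := by ring
          _ ≤ _ := mul_le_mul_of_nonneg_left h7 (by positivity)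
      have h9 : (r / 2) ^ D * 2 ^ D = r ^ D := by
        rw [← mul_pow]; congr 1; ring
      have h10 : κ * (1 + cc) * r ^ D ≤ (c * C1 * 4 ^ D) * (1 + cc) * r ^ D := by
        calc κ * (1 + cc) * r ^ D = (κ * (1 + cc) * (r / 2) ^ D) * 2 ^ D := by rw [← h9]; ring
          _ ≤ (2 ^ D * (C1 * (1 + cc) * ε)) * 2 ^ D :=
              mul_le_mul_of_nonneg_right h8 (by positivity)
          _ = (c * C1 * 4 ^ D) * (1 + cc) * r ^ D := by
              rw [hε, show (4:ℝ) = 2 * 2 by norm_num, mul_pow]; ring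
      have h11 : (c * C1 * 4 ^ D) * (1 + cc) * r ^ D < κ * (1 + cc) * r ^ D := by
        apply mul_lt_mul_of_pos_right _ hrD0
        exact mul_lt_mul_of_pos_right hc2 (by linarith)
      linarith
    have hgood : good w := ⟨rad z, hradn, hwr⟩
    obtain ⟨h5, h6⟩ := hpick w hgood
    refine ⟨pick w, Finset.mem_image.mpr ⟨w, Finset.mem_filter.mpr
      ⟨Multiset.mem_toFinset.mpr hw, hgood⟩, rfl⟩, ?_⟩
    have h7 := refl_dist hz
    have h8 : ε ≤ r := by
      rcases Nat.eq_zero_or_pos D with hD0 | hD0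
      · -- the polynomial p would be a constant with a root
        exfalso
        have h9 : p.natDegree = 0 := by omega
        have h10 : p ≠ 0 := (mem_roots'.mp hw).1
        have h11 := card_roots' p
        rw [h9] at h11
        have h12 : p.roots = 0 := Multiset.card_eq_zero.mp (by omega)
        rw [h12] at hw
        simp at hw
      · have h9 : r ^ D ≤ r := by
          calc r ^ D ≤ r ^ 1 := pow_le_pow_of_le_one hr0.le hr1 hD0
            _ = r := pow_one r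
        rw [hε]; nlinarith
    have e : Pool.Agent.H388SL.refl z - pick w =
        (Pool.Agent.H388SL.refl z - rad z) + ((rad z - w) - (pick w - w)) := by ring
    rw [e]
    have h9 := norm_add_le (Pool.Agent.H388SL.refl z - rad z) ((rad z - w) - (pick w - w))
    have h10 := norm_sub_le (rad z - w) (pick w - w)
    linarith

end Pool.Agent.K3h71.SP
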