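import Mathlib
import Pool.Agent.K3h71.SP.Win

/-!
# Level sets of `|P/Q|` near the unit circle, explicit constants
-/

set_option autoImplicit false

open Polynomial

namespace Pool.Agent.K3h71.SP

open Pool.Agent.H388SL (refl norm_refl_le)

lemma pow_sub_le {z w : ℂ} (hz : ‖z‖ ≤ 3) (hw : ‖w‖ ≤ 3) (i : ℕ) :
    ‖z ^ i - w ^ i‖ ≤ i * 3 ^ i * ‖z - w‖ := by
  induction i with
  | zero => simp
  | succ i ih =>
    have e : z ^ (i + 1) - w ^ (i + 1) = z * (z ^ i - w ^ i) + (z - w) * w ^ i := by ring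
    rw [e]
    have h1 := norm_add_le (z * (z ^ i - w ^ i)) ((z - w) * w ^ i)
    rw [norm_mul, norm_mul, norm_pow] at h1
    have h2 : ‖z‖ * ‖z ^ i - w ^ i‖ ≤ 3 * (i * 3 ^ i * ‖z - w‖) :=
      mul_le_mul hz ih (norm_nonneg _) (by norm_num)
    have h3 : ‖z - w‖ * ‖w‖ ^ i ≤ ‖z - w‖ * 3 ^ i :=
      mul_le_mul_of_nonneg_left (pow_le_pow_left₀ (norm_nonneg _) hw i) (norm_nonneg _)
    have h4 : 0 ≤ (3:ℝ) ^ i * ‖z - w‖ := by positivity
    push_cast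
    rw [pow_succ]
    linarith

lemma eval_as_sum {P : ℂ[X]} {m : ℕ} (hP : P.natDegree ≤ m) (z : ℂ) :
    P.eval z = ∑ i ∈ Finset.range (m + 1), P.coeff i * z ^ i :=
  eval_eq_sum_range' (by omega) z

lemma eval_bound {P : ℂ[X]} {m : ℕ} (hP : P.natDegree ≤ m) {B : ℝ} (hB : ∀ i, ‖P.coeff i‖ ≤ B)
    {z : ℂ} (hz : ‖z‖ ≤ 3) : ‖P.eval z‖ ≤ (m + 1) * B * 3 ^ m := by
  have hB0 : 0 ≤ B := (norm_nonneg _).trans (hB 0)
  rw [eval_as_sum hP]
  refine (norm_sum_le _ _).trans ?_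
  calc ∑ i ∈ Finset.range (m + 1), ‖P.coeff i * z ^ i‖
      ≤ ∑ i ∈ Finset.range (m + 1), B * 3 ^ m := by
        apply Finset.sum_le_sum
        intro i hi
        rw [norm_mul, norm_pow]
        apply mul_le_mul (hB i) _ (by positivity) hB0
        calc ‖z‖ ^ i ≤ 3 ^ i := pow_le_pow_left₀ (norm_nonneg _) hz i
          _ ≤ 3 ^ m := pow_le_pow_right₀ (by norm_num) (by
            have := Finset.mem_range.mp hi; omega)
    _ = (m + 1) * B * 3 ^ m := by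
        rw [Finset.sum_const, Finset.card_range, nsmul_eq_mul]; push_cast; ring

lemma eval_lip {P : ℂ[X]} {m : ℕ} (hP : P.natDegree ≤ m) {B : ℝ} (hB : ∀ i, ‖P.coeff i‖ ≤ B)
    {z w : ℂ} (hz : ‖z‖ ≤ 3) (hw : ‖w‖ ≤ 3) :
    ‖P.eval z - P.eval w‖ ≤ (m + 1) * B * (m * 3 ^ m) * ‖z - w‖ := by
  have hB0 : 0 ≤ B := (norm_nonneg _).trans (hB 0)
  rw [eval_as_sum hP, eval_as_sum hP, ← Finset.sum_sub_distrib]
  refine (norm_sum_le _ _).trans ?_
  calc ∑ i ∈ Finset.range (m + 1), ‖P.coeff i * z ^ i - P.coeff i * w ^ i‖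
      ≤ ∑ i ∈ Finset.range (m + 1), B * (m * 3 ^ m * ‖z - w‖) := by
        apply Finset.sum_le_sum
        intro i hi
        have him : i ≤ m := by have := Finset.mem_range.mp hi; omega
        rw [← mul_sub, norm_mul]
        apply mul_le_mul (hB i) _ (norm_nonneg _) hB0
        refine (pow_sub_le hz hw i).trans ?_
        apply mul_le_mul_of_nonneg_right _ (norm_nonneg _)
        apply mul_le_mul (by exact_mod_cast him) _ (by positivity) (Nat.cast_nonneg _)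
        exact pow_le_pow_right₀ (by norm_num) him
    _ = _ := by
        rw [Finset.sum_const, Finset.card_range, nsmul_eq_mul]; push_cast; ring

lemma lipE {P : ℂ[X]} {m : ℕ} (hP : P.natDegree ≤ m) {B : ℝ} (hB : ∀ i, ‖P.coeff i‖ ≤ B)
    {z w : ℂ} (hz : ‖z‖ ≤ 3) (hw : ‖w‖ ≤ 3) :
    |‖P.eval z‖ ^ 2 - ‖P.eval w‖ ^ 2| ≤ 2 * m * (m + 1) ^ 2 * B ^ 2 * 9 ^ m * ‖z - w‖ := by
  have hB0 : 0 ≤ B := (norm_nonneg _).trans (hB 0)
  have h1 := eval_bound hP hB hz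
  have h2 := eval_bound hP hB hw
  have h3 := eval_lip hP hB hz hw
  have e : ‖P.eval z‖ ^ 2 - ‖P.eval w‖ ^ 2 =
      (‖P.eval z‖ + ‖P.eval w‖) * (‖P.eval z‖ - ‖P.eval w‖) := by ring
  rw [e, abs_mul, abs_of_nonneg (by positivity)]
  have h4 : |‖P.eval z‖ - ‖P.eval w‖| ≤ ‖P.eval z - P.eval w‖ := abs_norm_sub_norm_le _ _
  calc (‖P.eval z‖ + ‖P.eval w‖) * |‖P.eval z‖ - ‖P.eval w‖|
      ≤ (2 * ((m + 1) * B * 3 ^ m)) * ((m + 1) * B * (m * 3 ^ m) * ‖z - w‖) :=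
        mul_le_mul (by linarith) (h4.trans h3) (abs_nonneg _) (by positivity)
    _ = _ := by
        have : (9:ℝ) ^ m = 3 ^ m * 3 ^ m := by rw [← mul_pow]; norm_num
        rw [this]; ring

/-- the covering property -/
def WinC (P Q : ℂ[X]) (c : ℝ) (D : ℕ) : Prop :=
  ∀ r : ℝ, 0 < r → r ≤ 1 → ∀ s : ℝ, ∃ Ξ : Finset ℂ, Ξ.card ≤ D ∧ (∀ ξ ∈ Ξ, ‖ξ‖ = 1) ∧
      ∀ z : ℂ, z ≠ 0 → |Real.log ‖z‖| ≤ c * r ^ D → P.eval z ≠ 0 → Q.eval z ≠ 0 →
        |Real.log ‖P.eval z‖ - Real.log ‖Q.eval z‖ - s| ≤ c * r ^ D →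
        ∃ ξ ∈ Ξ, ‖refl z - ξ‖ ≤ 3 * r

/-- quantitative independence of `|P|²` and `|Q|²` on the circle -/
def Kap (m : ℕ) (P Q : ℂ[X]) (κ : ℝ) : Prop :=
  ∀ c : ℝ, 0 ≤ c → ∃ i, κ * (1 + c) ≤ ‖(sqp m P - C (c : ℂ) * sqp m Q).coeff i‖

/-- **covering of level sets**, explicit constants -/
theorem winE (P Q : ℂ[X]) (m : ℕ) (hm : 1 ≤ m) (hP : P.natDegree ≤ m) (hQ : Q.natDegree ≤ m)
    (B : ℝ) (hB1 : 1 ≤ B) (hPB : ∀ i, ‖P.coeff i‖ ≤ B) (hQB : ∀ i, ‖Q.coeff i‖ ≤ B) (κ : ℝ)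
    (hκ0 : 0 < κ) (hκ1 : κ ≤ 1) (hκ : Kap m P Q κ) :
    WinC P Q (κ / (26 * m * (m + 1) ^ 2 * B ^ 2 * 144 ^ m)) (2 * m) := by
  classical
  have hm1 : (1:ℝ) ≤ m := by exact_mod_cast hm
  set KP : ℝ := 2 * m * (m + 1) ^ 2 * B ^ 2 * 9 ^ m with hKP
  set BQ : ℝ := (m + 1) ^ 2 * B ^ 2 * 9 ^ m with hBQ
  have hKP0 : 0 ≤ KP := by positivity
  have hBQ0 : 0 ≤ BQ := by positivity
  have hBQb : ∀ z : ℂ, ‖z‖ ≤ 3 → ‖Q.eval z‖ ^ 2 ≤ BQ := by
    intro z hz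
    have h1 := pow_le_pow_left₀ (norm_nonneg _) (eval_bound hQ hQB hz) 2
    refine h1.trans (le_of_eq ?_)
    rw [hBQ]
    have : (9:ℝ) ^ m = 3 ^ m * 3 ^ m := by rw [← mul_pow]; norm_num
    rw [this]; ring
  set D := 2 * m with hD
  set C1 : ℝ := 13 * m * (m + 1) ^ 2 * B ^ 2 * 9 ^ m with hC1
  have hU1 : 1 ≤ (m + 1 : ℝ) ^ 2 * B ^ 2 * 9 ^ m := by
    have h1 : (1:ℝ) ≤ (m + 1 : ℝ) ^ 2 := one_le_pow₀ (by linarith)
    have h2 : (1:ℝ) ≤ B ^ 2 := one_le_pow₀ hB1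
    have h3 : (1:ℝ) ≤ 9 ^ m := one_le_pow₀ (by norm_num)
    exact one_le_mul_of_one_le_of_one_le (one_le_mul_of_one_le_of_one_le h1 h2) h3
  have hC1' : 2 * KP + 2 * KP + 4 * BQ + 1 ≤ C1 := by
    set U : ℝ := (m + 1 : ℝ) ^ 2 * B ^ 2 * 9 ^ m with hU
    have e1 : KP = 2 * (m * U) := by rw [hKP, hU]; ring
    have e2 : BQ = U := by rw [hBQ, hU]
    have e3 : C1 = 13 * (m * U) := by rw [hC1, hU]; ring
    have e4 : U ≤ m * U := le_mul_of_one_le_left (by linarith) hm1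
    rw [e1, e2, e3]; linarith
  have hC11 : 1 ≤ C1 := by
    have : 0 ≤ 2 * KP + 2 * KP + 4 * BQ := by positivity
    linarith
  have hC10 : 0 < C1 := by linarith
  set c : ℝ := κ / (26 * m * (m + 1) ^ 2 * B ^ 2 * 144 ^ m) with hc
  have hcC : c * (2 * C1 * 4 ^ D) = κ := by
    have e1 : 2 * C1 * 4 ^ D = 26 * m * (m + 1) ^ 2 * B ^ 2 * 144 ^ m := by
      rw [hC1, hD, pow_mul, show (4:ℝ) ^ 2 = 16 by norm_num]
      have : (144:ℝ) ^ m = 9 ^ m * 16 ^ m := by rw [← mul_pow]; norm_num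
      rw [this]; ring
    rw [e1, hc]
    field_simp
  have hc0 : 0 < c := by
    rw [hc]; positivity
  have h4D : (1:ℝ) ≤ 4 ^ D := one_le_pow₀ (by norm_num)
  have hc1 : c ≤ 1 / 2 := by
    have h1 : (2:ℝ) ≤ 2 * C1 * 4 ^ D := by nlinarith
    have h2 : c * 2 ≤ c * (2 * C1 * 4 ^ D) := mul_le_mul_of_nonneg_left h1 hc0.le
    linarith
  have hc2 : c * C1 * 4 ^ D < κ := by
    have : c * C1 * 4 ^ D = κ / 2 := by linarith
    linarith
  intro r hr0 hr1 s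
  have hrD : r ^ D ≤ 1 := pow_le_one₀ hr0.le hr1
  have hrD0 : 0 < r ^ D := by positivity
  set cc := Real.exp (2 * s) with hcc
  have hcc0 : 0 < cc := Real.exp_pos _
  set p := sqp m P - C (cc : ℂ) * sqp m Q with hp
  have hpd : p.natDegree ≤ D := by
    refine (natDegree_sub_le _ _).trans (max_le (sqp_natDegree m P hP) ?_)
    exact (natDegree_C_mul_le _ _).trans (sqp_natDegree m Q hQ)
  obtain ⟨i, hi⟩ := hκ cc hcc0.le
  rw [← hp] at hi
  have hpM : κ * (1 + cc) ≤ 2 ^ D * p.mahlerMeasure := by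
    have h1 := norm_coeff_le_choose_mul_mahlerMeasure i p
    have h2 : ((p.natDegree.choose i : ℕ) : ℝ) ≤ 2 ^ D := by
      have h3 : p.natDegree.choose i ≤ 2 ^ p.natDegree := Nat.choose_le_two_pow _ _
      have h4 : 2 ^ p.natDegree ≤ 2 ^ D := Nat.pow_le_pow_right (by norm_num) hpd
      exact_mod_cast h3.trans h4
    have h3 := mul_le_mul_of_nonneg_right h2 (mahlerMeasure_nonneg p)
    linarith
  let good : ℂ → Prop := fun w => ∃ ζ : ℂ, ‖ζ‖ = 1 ∧ ‖ζ - w‖ < r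
  let pick : ℂ → ℂ := fun w => if h : good w then h.choose else 1
  have hpick : ∀ w, good w → ‖pick w‖ = 1 ∧ ‖pick w - w‖ < r := by
    intro w hw
    simp only [pick, dif_pos hw]
    exact hw.choose_spec
  refine ⟨(p.roots.toFinset.filter good).image pick, ?_, ?_, ?_⟩
  · refine Finset.card_image_le.trans ((Finset.card_filter_le _ _).trans ?_)
    exact (Multiset.toFinset_card_le _).trans ((card_roots' p).trans hpd)
  · intro ξ hξ
    obtain ⟨w, hw, rfl⟩ := Finset.mem_image.mp hξ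
    exact (hpick w (Finset.mem_filter.mp hw).2).1
  · intro z hz hlz hPz hQz hs
    set ε := c * r ^ D with hε
    have hε1 : ε ≤ 1 / 2 := by
      rw [hε]; nlinarith
    have hε0 : 0 < ε := by positivity
    have hpos : 0 < ‖z‖ := norm_pos_iff.mpr hz
    have hz3 : ‖z‖ ≤ 3 := by
      have h1 : Real.log ‖z‖ ≤ 1 := by
        have := le_abs_self (Real.log ‖z‖); linarith
      have h2 : ‖z‖ ≤ Real.exp 1 := by
        rwa [Real.log_le_iff_le_exp hpos] at h1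
      have := Real.exp_one_lt_d9
      linarith
    have hradd := rad_dist hz (by linarith)
    have hradn := rad_norm hz
    have hrad3 : ‖rad z‖ ≤ 3 := by rw [hradn]; norm_num
    -- values
    have hP0 : 0 < ‖P.eval z‖ := norm_pos_iff.mpr hPz
    have hQ0 : 0 < ‖Q.eval z‖ := norm_pos_iff.mpr hQz
    have h1 : |‖P.eval z‖ ^ 2 - cc * ‖Q.eval z‖ ^ 2| ≤ cc * (4 * BQ * ε) := by
      set θ := Real.log ‖P.eval z‖ - Real.log ‖Q.eval z‖ - s with hθ
      have h2 : ‖P.eval z‖ ^ 2 = cc * ‖Q.eval z‖ ^ 2 * Real.exp (2 * θ) := by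
        rw [hcc]
        conv_lhs => rw [← Real.exp_log hP0]
        conv_rhs => rw [← Real.exp_log hQ0]
        rw [← Real.exp_nat_mul, ← Real.exp_nat_mul, ← Real.exp_add, ← Real.exp_add, hθ]
        congr 1
        push_cast
        ring
      have h3 : |2 * θ| ≤ 1 := by
        rw [abs_mul, abs_two]; linarith
      have h4 := Real.abs_exp_sub_one_le h3
      rw [h2]
      have h5 : cc * ‖Q.eval z‖ ^ 2 * Real.exp (2 * θ) - cc * ‖Q.eval z‖ ^ 2 =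
          cc * (‖Q.eval z‖ ^ 2 * (Real.exp (2 * θ) - 1)) := by ring
      rw [h5, abs_mul, abs_of_pos hcc0, abs_mul, abs_of_nonneg (by positivity)]
      apply mul_le_mul_of_nonneg_left _ hcc0.le
      have h6 : 2 * |2 * θ| ≤ 4 * ε := by
        rw [abs_mul, abs_two]; linarith
      calc ‖Q.eval z‖ ^ 2 * |Real.exp (2 * θ) - 1| ≤ BQ * (4 * ε) :=
            mul_le_mul (hBQb z hz3) (h4.trans h6) (abs_nonneg _) hBQ0
        _ = 4 * BQ * ε := by ring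
    have h2 := lipE hP hPB hz3 hrad3
    have h3 := lipE hQ hQB hz3 hrad3
    rw [← hKP] at h2 h3
    have h4 : |‖P.eval (rad z)‖ ^ 2 - cc * ‖Q.eval (rad z)‖ ^ 2| ≤ C1 * (1 + cc) * ε := by
      have e : ‖P.eval (rad z)‖ ^ 2 - cc * ‖Q.eval (rad z)‖ ^ 2 =
          (‖P.eval z‖ ^ 2 - cc * ‖Q.eval z‖ ^ 2) - (‖P.eval z‖ ^ 2 - ‖P.eval (rad z)‖ ^ 2) +
          cc * (‖Q.eval z‖ ^ 2 - ‖Q.eval (rad z)‖ ^ 2) := by ring
      rw [e]
      have h5 := abs_add_le ((‖P.eval z‖ ^ 2 - cc * ‖Q.eval z‖ ^ 2) -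
        (‖P.eval z‖ ^ 2 - ‖P.eval (rad z)‖ ^ 2)) (cc * (‖Q.eval z‖ ^ 2 - ‖Q.eval (rad z)‖ ^ 2))
      have h6 := abs_sub (‖P.eval z‖ ^ 2 - cc * ‖Q.eval z‖ ^ 2)
        (‖P.eval z‖ ^ 2 - ‖P.eval (rad z)‖ ^ 2)
      rw [abs_mul cc, abs_of_pos hcc0] at h5
      have h7 : KP * ‖z - rad z‖ ≤ KP * (2 * ε) :=
        mul_le_mul_of_nonneg_left (by linarith) hKP0
      have h8 : cc * |‖Q.eval z‖ ^ 2 - ‖Q.eval (rad z)‖ ^ 2| ≤ cc * (KP * (2 * ε)) := by
        apply mul_le_mul_of_nonneg_left _ hcc0.le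
        exact h3.trans (mul_le_mul_of_nonneg_left (by linarith) hKP0)
      have h9 : (2 * KP + 2 * KP + 4 * BQ + 1) * ((1 + cc) * ε) ≤ C1 * ((1 + cc) * ε) :=
        mul_le_mul_of_nonneg_right hC1' (by positivity)
      have h9' : (2 * KP + 2 * KP + 4 * BQ + 1) * ((1 + cc) * ε) = 2 * KP * ε + 2 * KP * ε +
        4 * BQ * ε + ε + cc * (2 * KP * ε) + cc * (2 * KP * ε) + cc * (4 * BQ * ε) + cc * ε := by
        ring
      have h10 : 0 ≤ 2 * KP * ε := by positivity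
      have h11 : 0 ≤ 4 * BQ * ε := by positivity
      have h12 : 0 ≤ cc * (2 * KP * ε) := by positivity
      have h13 : 0 ≤ cc * ε := by positivity
      have h14 : C1 * (1 + cc) * ε = C1 * ((1 + cc) * ε) := by ring
      rw [h14]
      linarith
    -- a root close to rad z
    obtain ⟨w, hw, hwr⟩ : ∃ w ∈ p.roots, ‖rad z - w‖ < r := by
      by_contra hcon
      push Not at hcon
      have h5 := away p hr0 hr1 hradn hcon hpd
      have h6 : ‖p.eval (rad z)‖ = |‖P.eval (rad z)‖ ^ 2 - cc * ‖Q.eval (rad z)‖ ^ 2| := by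
        rw [hp, eval_sub, eval_mul, eval_C, sqp_eval m P hP hradn,
          sqp_eval m Q hQ hradn]
        have e : (rad z) ^ m * ((‖P.eval (rad z)‖ ^ 2 : ℝ) : ℂ) -
            (cc : ℂ) * ((rad z) ^ m * ((‖Q.eval (rad z)‖ ^ 2 : ℝ) : ℂ)) =
            (rad z) ^ m * ((‖P.eval (rad z)‖ ^ 2 - cc * ‖Q.eval (rad z)‖ ^ 2 : ℝ) : ℂ) := by
          push_cast; ring
        rw [e, norm_mul, norm_pow, hradn, one_pow, one_mul, Complex.norm_real, Real.norm_eq_abs]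
      rw [h6] at h5
      have h7 := h5.trans h4
      have h8 : κ * (1 + cc) * (r / 2) ^ D ≤ 2 ^ D * (C1 * (1 + cc) * ε) := by
        calc κ * (1 + cc) * (r / 2) ^ D ≤ (2 ^ D * p.mahlerMeasure) * (r / 2) ^ D :=
              mul_le_mul_of_nonneg_right hpM (by positivity)
          _ = 2 ^ D * (p.mahlerMeasure * (r / 2) ^ D) := by ring
          _ ≤ _ := mul_le_mul_of_nonneg_left h7 (by positivity)
      have h9 : (r / 2) ^ D * 2 ^ D = r ^ D := by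
        rw [← mul_pow]; congr 1; ring
      have h10 : κ * (1 + cc) * r ^ D ≤ (c * C1 * 4 ^ D) * (1 + cc) * r ^ D := by
        calc κ * (1 + cc) * r ^ D = (κ * (1 + cc) * (r / 2) ^ D) * 2 ^ D := by rw [← h9]; ring
          _ ≤ (2 ^ D * (C1 * (1 + cc) * ε)) * 2 ^ D :=
              mul_le_mul_of_nonneg_right h8 (by positivity)
          _ = (c * C1 * 4 ^ D) * (1 + cc) * r ^ D := by
              rw [hε, show (4:ℝ) = 2 * 2 by norm_num, mul_pow]; ring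
      have h11 : (c * C1 * 4 ^ D) * (1 + cc) * r ^ D < κ * (1 + cc) * r ^ D := by
        apply mul_lt_mul_of_pos_right _ hrD0
        exact mul_lt_mul_of_pos_right hc2 (by linarith)
      linarith
    have hgood : good w := ⟨rad z, hradn, hwr⟩
    obtain ⟨h5, h6⟩ := hpick w hgood
    refine ⟨pick w, Finset.mem_image.mpr ⟨w, Finset.mem_filter.mpr
      ⟨Multiset.mem_toFinset.mpr hw, hgood⟩, rfl⟩, ?_⟩
    have h7 := refl_dist hz
    have h8 : ε ≤ r := by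
      have hD0 : 1 ≤ D := by omega
      have h9 : r ^ D ≤ r := by
        calc r ^ D ≤ r ^ 1 := pow_le_pow_of_le_one hr0.le hr1 hD0
          _ = r := pow_one r
      calc ε ≤ 1 * r ^ D := mul_le_mul_of_nonneg_right (by linarith) hrD0.le
        _ ≤ r := by rw [one_mul]; exact h9
    have e : Pool.Agent.H388SL.refl z - pick w =
        (Pool.Agent.H388SL.refl z - rad z) + ((rad z - w) - (pick w - w)) := by ring
    rw [e]
    have h9 := norm_add_le (Pool.Agent.H388SL.refl z - rad z) ((rad z - w) - (pick w - w))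
    have h10 := norm_sub_le (rad z - w) (pick w - w)
    linarith

end Pool.Agent.K3h71.SP
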