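import Mathlib
import Pool.Agent.K3h71.SP.Gap
import Pool.Agent.K3h71.SP.ArcC
import Pool.Agent.K3h71.SP.WinE

/-!
# The counting argument
-/

set_option autoImplicit false

open Polynomial

namespace Pool.Agent.K3h71.SP

lemma ind_ne_left {P Q : ℂ[X]} (hI : Ind P Q) : P ≠ 0 := by
  rintro rfl
  have := (hI 1 0 (by intro z _; simp)).1
  exact one_ne_zero this

lemma ind_ne_right {P Q : ℂ[X]} (hI : Ind P Q) : Q ≠ 0 := by
  rintro rfl
  have := (hI 0 1 (by intro z _; simp)).2
  exact one_ne_zero this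

lemma ind_sub_ne {P Q : ℂ[X]} (hI : Ind P Q) (w : ℂ) : P - C w * Q ≠ 0 := by
  intro h
  have h1 : P = C w * Q := sub_eq_zero.mp h
  have := (hI 1 (‖w‖ ^ 2) (by
    intro z _
    rw [h1, eval_mul, eval_C, norm_mul]; ring)).1
  exact one_ne_zero this

/-- the crossing point of the terms `i` and `j` -/
noncomputable def cr (G : ℂ[X]) (x : ℕ × ℕ) : ℝ :=
  (Real.log ‖G.coeff x.2‖ - Real.log ‖G.coeff x.1‖) / ((x.1 : ℝ) - x.2)

lemma dom_iff {G : ℂ[X]} {s : ℕ} (hs : s ∈ G.support) {t : ℝ} :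
    Dom G s t ↔ ∀ j ∈ G.support,
      Real.log ‖G.coeff j‖ + j * t ≤ Real.log ‖G.coeff s‖ + s * t := by
  have hs0 : 0 < ‖G.coeff s‖ := norm_pos_iff.mpr (mem_support_iff.mp hs)
  constructor
  · intro h j hj
    have hj0 : 0 < ‖G.coeff j‖ := norm_pos_iff.mpr (mem_support_iff.mp hj)
    have h1 := Real.log_le_log (by positivity) (h j)
    rwa [Real.log_mul hj0.ne' (Real.exp_pos _).ne', Real.log_mul hs0.ne' (Real.exp_pos _).ne',
      Real.log_exp, Real.log_exp] at h1
  · intro h j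
    by_cases hj : j ∈ G.support
    · have hj0 : 0 < ‖G.coeff j‖ := norm_pos_iff.mpr (mem_support_iff.mp hj)
      have h1 := Real.exp_le_exp.mpr (h j hj)
      rwa [Real.exp_add, Real.exp_add, Real.exp_log hj0, Real.exp_log hs0] at h1
    · rw [notMem_support_iff.mp hj, norm_zero, zero_mul]
      positivity

/-- away from the crossing points one term dominates -/
lemma exists_dom {G : ℂ[X]} (hG : G ≠ 0) {u ε : ℝ} (hε : 0 ≤ ε)
    (h : ∀ x ∈ G.support.offDiag, ε < |u - cr G x|) :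
    ∃ s ∈ G.support, Dom G s (u - ε) ∧ Dom G s (u + ε) := by
  obtain ⟨s, hs, hmax⟩ := Finset.exists_max_image G.support
    (fun j => Real.log ‖G.coeff j‖ + j * u) (support_nonempty.mpr hG)
  refine ⟨s, hs, ?_⟩
  have key : ∀ v : ℝ, |v| ≤ ε → Dom G s (u + v) := by
    intro v hv
    rw [dom_iff hs]
    intro j hj
    by_cases hjs : j = s
    · rw [hjs]
    have h1 := h (s, j) (Finset.mem_offDiag.mpr ⟨hs, hj, Ne.symm hjs⟩)
    have h2 := hmax j hj
    have hne : (s : ℝ) - j ≠ 0 := by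
      rw [sub_ne_zero]; exact_mod_cast Ne.symm hjs
    have h3 : Real.log ‖G.coeff s‖ - Real.log ‖G.coeff j‖ = - (((s : ℝ) - j) * cr G (s, j)) := by
      rw [cr]; field_simp; ring
    have h4 : 0 ≤ ((s : ℝ) - j) * (u - cr G (s, j)) := by linarith
    have h5 : 0 ≤ ((s : ℝ) - j) * (u + v - cr G (s, j)) := by
      obtain ⟨hv1, hv2⟩ := abs_le.mp hv
      rcases lt_or_ge 0 (u - cr G (s, j)) with h6 | h6
      · rw [abs_of_pos h6] at h1
        have h7 : 0 ≤ (s : ℝ) - j := by
          by_contra h8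
          push Not at h8
          have := mul_neg_of_neg_of_pos h8 h6
          linarith
        exact mul_nonneg h7 (by linarith)
      · rw [abs_of_nonpos h6] at h1
        have h6' : u - cr G (s, j) < 0 := by linarith
        have h7 : (s : ℝ) - j ≤ 0 := by
          by_contra h8
          push Not at h8
          have := mul_neg_of_pos_of_neg h8 h6'
          linarith
        exact mul_nonneg_of_nonpos_of_nonpos h7 (by linarith)
    linarith
  constructor
  · have := key (-ε) (by rw [abs_neg, abs_of_nonneg hε])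
    rwa [← sub_eq_add_neg] at this
  · exact key ε (by rw [abs_of_nonneg hε])

lemma fin_alg {n ε lam m κ : ℝ} (h1 : (3 / 4 * n) * ε ≤ 2 * lam + 2 * m + κ * (m * (4 * κ)))
    (hlam : 0 ≤ lam) (hm0 : 0 ≤ m) (hκ : 1 ≤ κ) :
    n * ε ≤ 8 * (1 + m) * κ ^ 2 * (1 + lam) := by
  have hκ2 : (1:ℝ) ≤ κ ^ 2 := one_le_pow₀ hκ
  have e3 : lam ≤ lam * κ ^ 2 := le_mul_of_one_le_right hlam hκ2
  have e4 : m ≤ m * κ ^ 2 := le_mul_of_one_le_right hm0 hκ2
  have e5 : 0 ≤ m * lam * κ ^ 2 := by positivity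
  have e7 : 0 ≤ lam * κ ^ 2 := by positivity
  have e8 : (3 / 4 * n) * ε = 3 / 4 * (n * ε) := by ring
  have e9 : κ * (m * (4 * κ)) = 4 * (m * κ ^ 2) := by ring
  have e10 : 8 * (1 + m) * κ ^ 2 * (1 + lam) = 8 * κ ^ 2 + 8 * (m * κ ^ 2) + 8 * (lam * κ ^ 2) +
    8 * (m * lam * κ ^ 2) := by ring
  rw [e8, e9] at h1
  rw [e10]
  linarith

/-- **counting**, polynomials not vanishing at 0 -/
theorem count0 (P Q : ℂ[X]) (hI : Ind P Q) (m : ℕ) (hPm : P.natDegree ≤ m)
    (hQm : Q.natDegree ≤ m) (c : ℝ) (D : ℕ) (hc0 : 0 < c) (hc1 : c ≤ 1) (hwin : WinC P Q c D)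
    (k : ℕ) (G : ℂ[X]) (hG : G ≠ 0) (hk : G.support.card ≤ k) (f : ℤ[X]) (Z Z' : Finset ℂ)
    (hf : f ≠ 0) (hf0 : f.coeff 0 ≠ 0) (hZ : Rts f Z) (hZ' : Z' ⊆ Z) (θ : ℝ) (hθ0 : 0 < θ)
    (hθ1 : θ ≤ 1) (hθ : θ * f.natDegree ≤ Z'.card)
    (hroot : ∀ z ∈ Z', Q.eval z ≠ 0 → G.eval (P.eval z / Q.eval z) = 0) :
    (f.natDegree : ℝ) ≤ (27 * (20 * (D + 1)) ^ 6 + 8 * (1 + m) * (120 * (D + 1)) ^ D / c) *
      (k / θ) ^ (14 + 2 * D) * (1 + ml f) := by
  classical
  set K1 : ℝ := 27 * (20 * (D + 1)) ^ 6 with hK1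
  set K2 : ℝ := 8 * (1 + m) * (120 * (D + 1)) ^ D / c with hK2
  have hK10 : 0 < K1 := by positivity
  have hK20 : 0 < K2 := by positivity
  have hlam := ml_nonneg hf
  set lam := ml f with hlamdef
  set n : ℝ := (f.natDegree : ℝ) with hn
  have hn0 : 0 ≤ n := Nat.cast_nonneg _
  have hk0 : 0 < k := lt_of_lt_of_le (Finset.card_pos.mpr (support_nonempty.mpr hG)) hk
  have hk1 : (1:ℝ) ≤ k := by exact_mod_cast hk0
  set y : ℝ := (k : ℝ) / θ with hy
  have hky : (k : ℝ) = θ * y := by rw [hy]; field_simp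
  have hy1 : 1 ≤ y := by
    rw [hy, le_div_iff₀ hθ0]; linarith
  have hkley : (k : ℝ) ≤ y := by
    rw [hky]; exact mul_le_of_le_one_left (by linarith) hθ1
  have hPne := ind_ne_left hI
  have hQne := ind_ne_right hI
  set r : ℝ := 1 / (120 * (D + 1) * y ^ 2) with hr
  have hr0 : 0 < r := by positivity
  have hr1 : r ≤ 1 / 120 := by
    rw [hr]
    apply one_div_le_one_div_of_le (by norm_num)
    have h1 : (1:ℝ) ≤ y ^ 2 := one_le_pow₀ hy1
    have h2 : (1:ℝ) ≤ (D:ℝ) + 1 := by
      have : (0:ℝ) ≤ D := Nat.cast_nonneg _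
      linarith
    nlinarith
  set δ : ℝ := 6 * r with hδ
  have hδ0 : 0 < δ := by positivity
  have hδ1 : δ ≤ 1 / 2 := by linarith
  set ε : ℝ := c * r ^ D with hε
  have hε0 : 0 < ε := by positivity
  have hε1 : ε ≤ 1 := by
    have : r ^ D ≤ 1 := pow_le_one₀ hr0.le (by linarith)
    rw [hε]; nlinarith [pow_pos hr0 D]
  have hfinal1 : K1 * y ^ 12 * (1 + lam) ≤ (K1 + K2) * y ^ (14 + 2 * D) * (1 + lam) := by
    apply mul_le_mul_of_nonneg_right _ (by linarith)
    apply mul_le_mul (by linarith) _ (by positivity) (by positivity)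
    exact pow_le_pow_right₀ hy1 (by omega)
  have hfinal2 : K2 * y ^ (3 + 2 * D) * (1 + lam) ≤ (K1 + K2) * y ^ (14 + 2 * D) * (1 + lam) := by
    apply mul_le_mul_of_nonneg_right _ (by linarith)
    apply mul_le_mul (by linarith) _ (by positivity) (by positivity)
    exact pow_le_pow_right₀ hy1 (by omega)
  by_cases harc : 27 * (1 + lam) ≤ n * δ ^ 6
  swap
  · -- small degree
    push Not at harc
    refine le_trans ?_ hfinal1
    have h1 : δ = 1 / (20 * (D + 1) * y ^ 2) := by
      rw [hδ, hr]; field_simp; norm_num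
    have h2 : n * δ ^ 6 * (20 * (D + 1) * y ^ 2) ^ 6 = n := by
      rw [h1]; field_simp
    have h3 : n * δ ^ 6 * (20 * (D + 1) * y ^ 2) ^ 6 ≤
        27 * (1 + lam) * (20 * (D + 1) * y ^ 2) ^ 6 :=
      mul_le_mul_of_nonneg_right harc.le (by positivity)
    rw [h2] at h3
    calc n ≤ 27 * (1 + lam) * (20 * (D + 1) * y ^ 2) ^ 6 := h3
      _ = K1 * y ^ 12 * (1 + lam) := by rw [hK1]; ring
  · refine le_trans ?_ hfinal2
    have hz0 : ∀ z ∈ Z, z ≠ 0 := by
      rintro z hz rfl
      apply hf0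
      have h2 : (0:ℂ) ∈ (f.map (Int.castRingHom ℂ)).roots := by rw [hZ]; exact hz
      have h3 := (mem_roots'.mp h2).2
      rw [IsRoot, ← coeff_zero_eq_eval_zero, coeff_map] at h3
      simpa using h3
    let u : ℂ → ℝ := fun z => Real.log ‖P.eval z‖ - Real.log ‖Q.eval z‖
    let good : ℂ → Prop := fun z => P.eval z ≠ 0 ∧ Q.eval z ≠ 0
    set F1 := Z.filter (fun z => ε < |Real.log ‖z‖|) with hF1
    set F2 := Z.filter (fun z => ¬ good z) with hF2
    let W : ℕ × ℕ → Finset ℂ := fun x =>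
      Z.filter (fun z => good z ∧ |Real.log ‖z‖| ≤ ε ∧ |u z - cr G x| ≤ ε)
    let T : ℕ → Finset ℂ := fun s =>
      Z'.filter (fun z => good z ∧ Dom G s (u z - ε) ∧ Dom G s (u z + ε))
    have hcover : Z' ⊆ F1 ∪ F2 ∪ (G.support.offDiag).biUnion W ∪ G.support.biUnion T := by
      intro z hz'
      have hz := hZ' hz'
      by_cases h1 : ε < |Real.log ‖z‖|
      · simp [hF1, hz, h1]
      by_cases h2 : good z
      swap
      · have : z ∈ F2 := Finset.mem_filter.mpr ⟨hz, h2⟩
        simp [this]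
      by_cases h3 : ∃ x ∈ G.support.offDiag, |u z - cr G x| ≤ ε
      · obtain ⟨x, hx, hx2⟩ := h3
        have : z ∈ W x := Finset.mem_filter.mpr ⟨hz, h2, not_lt.mp h1, hx2⟩
        apply Finset.mem_union_left
        apply Finset.mem_union_right
        exact Finset.mem_biUnion.mpr ⟨x, hx, this⟩
      · push Not at h3
        obtain ⟨s, hs, h4, h5⟩ := exists_dom hG hε0.le h3
        apply Finset.mem_union_right
        exact Finset.mem_biUnion.mpr ⟨s, hs, Finset.mem_filter.mpr ⟨hz', h2, h4, h5⟩⟩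
    -- far
    have hc1' : (F1.card : ℝ) * ε ≤ 2 * lam := far hf hZ hf0 ε
    -- zeros of P, Q
    have hc2 : (F2.card : ℝ) ≤ 2 * m := by
      have h1 : F2 ⊆ P.roots.toFinset ∪ Q.roots.toFinset := by
        intro z hz
        have h2 := (Finset.mem_filter.mp hz).2
        rw [Finset.mem_union, Multiset.mem_toFinset, Multiset.mem_toFinset, mem_roots hPne,
          mem_roots hQne, IsRoot, IsRoot]
        by_contra h3
        push Not at h3
        exact h2 h3
      have h2 : F2.card ≤ P.natDegree + Q.natDegree := by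
        refine (Finset.card_le_card h1).trans ((Finset.card_union_le _ _).trans ?_)
        exact add_le_add ((Multiset.toFinset_card_le _).trans (card_roots' P))
          ((Multiset.toFinset_card_le _).trans (card_roots' Q))
      have h3 : F2.card ≤ 2 * m := by omega
      exact_mod_cast h3
    -- windows
    have hc3 : ∀ x, ((W x).card : ℝ) ≤ D * (5 * δ * n) := by
      intro x
      obtain ⟨Ξ, hΞ1, hΞ2, hΞ3⟩ := hwin r hr0 (by linarith) (cr G x)
      have h1 : W x ⊆ Ξ.biUnion fun ξ =>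
          Z.filter (fun z => ‖Pool.Agent.H388SL.refl z - ξ‖ ≤ δ / 2) := by
        intro z hz
        obtain ⟨hz1, ⟨hz2, hz3⟩, hz4, hz5⟩ := Finset.mem_filter.mp hz
        obtain ⟨ξ, hξ, hξ2⟩ := hΞ3 z (hz0 z hz1) hz4 hz2 hz3 hz5
        refine Finset.mem_biUnion.mpr ⟨ξ, hξ, Finset.mem_filter.mpr ⟨hz1, ?_⟩⟩
        rw [hδ]; linarith
      have h2 : ((W x).card : ℝ) ≤ ∑ ξ ∈ Ξ,
          ((Z.filter (fun z => ‖Pool.Agent.H388SL.refl z - ξ‖ ≤ δ / 2)).card : ℝ) := by
        have := (Finset.card_le_card h1).trans Finset.card_biUnion_le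
        exact_mod_cast this
      have h3 : ∑ ξ ∈ Ξ, ((Z.filter (fun z => ‖Pool.Agent.H388SL.refl z - ξ‖ ≤ δ / 2)).card : ℝ) ≤
          ∑ ξ ∈ Ξ, (5 * δ * n) := by
        apply Finset.sum_le_sum
        intro ξ hξ
        exact arc hZ hδ0 hδ1 harc (hΞ2 ξ hξ)
      rw [Finset.sum_const, nsmul_eq_mul] at h3
      refine h2.trans (h3.trans ?_)
      apply mul_le_mul_of_nonneg_right _ (by positivity)
      exact_mod_cast hΞ1
    -- gaps
    have hc4 : ∀ s ∈ G.support, ((T s).card : ℝ) * ε ≤ m * (4 * k) := by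
      intro s hs
      let w : ℂ → ℂ := fun z => P.eval z / Q.eval z
      have h1 : (T s).card ≤ m * ((T s).image w).card := by
        apply Finset.card_le_mul_card_image
        intro a _
        have h2 : (T s).filter (fun x => w x = a) ⊆ (P - C a * Q).roots.toFinset := by
          intro z hz
          obtain ⟨hz1, hz2⟩ := Finset.mem_filter.mp hz
          obtain ⟨_, ⟨_, hz3⟩, _⟩ := Finset.mem_filter.mp hz1
          rw [Multiset.mem_toFinset, mem_roots (ind_sub_ne hI a), IsRoot, eval_sub, eval_mul, eval_C,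
            ← hz2]
          simp only [w]
          rw [div_mul_cancel₀ _ hz3, sub_self]
        refine (Finset.card_le_card h2).trans ((Multiset.toFinset_card_le _).trans
          ((card_roots' _).trans ?_))
        refine (natDegree_sub_le _ _).trans (max_le hPm ?_)
        exact (natDegree_C_mul_le _ _).trans hQm
      have h3 := gap (G := G) (k := k) (s := s) hk hs hε0.le ((T s).image w) (by
        intro a ha
        obtain ⟨z, hz, rfl⟩ := Finset.mem_image.mp ha
        obtain ⟨hz1, ⟨hz2, hz3⟩, hz4, hz5⟩ := Finset.mem_filter.mp hz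
        have hlogw : Real.log ‖w z‖ = u z := by
          simp only [w, u]
          rw [norm_div, Real.log_div (norm_ne_zero_iff.mpr hz2) (norm_ne_zero_iff.mpr hz3)]
        refine ⟨hroot z hz1 hz3, div_ne_zero hz2 hz3, ?_, ?_⟩
        · rw [hlogw]; exact hz4
        · rw [hlogw]; exact hz5)
      have h4 : 2 * (k * Real.log 2 + Real.log k) ≤ 4 * (k:ℝ) := by
        have h5 := Real.log_two_lt_d9
        have h6 := Real.log_le_sub_one_of_pos (x := (k:ℝ)) (by linarith)
        have h7 : (k:ℝ) * Real.log 2 ≤ k * 1 := mul_le_mul_of_nonneg_left (by linarith) (by linarith)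
        linarith
      calc ((T s).card : ℝ) * ε ≤ (m * ((T s).image w).card) * ε := by
            apply mul_le_mul_of_nonneg_right _ hε0.le
            exact_mod_cast h1
        _ = m * (((T s).image w).card * ε) := by ring
        _ ≤ m * (4 * k) := mul_le_mul_of_nonneg_left (h3.trans h4) (Nat.cast_nonneg _)
    -- total
    have htot : (Z'.card : ℝ) ≤ F1.card + F2.card + (∑ x ∈ G.support.offDiag, ((W x).card : ℝ)) +
        ∑ s ∈ G.support, ((T s).card : ℝ) := by
      have h1 : Z'.card ≤ F1.card + F2.card + (∑ x ∈ G.support.offDiag, (W x).card) +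
          ∑ s ∈ G.support, (T s).card := by
        refine (Finset.card_le_card hcover).trans ?_
        refine (Finset.card_union_le _ _).trans (add_le_add ?_ Finset.card_biUnion_le)
        refine (Finset.card_union_le _ _).trans (add_le_add ?_ Finset.card_biUnion_le)
        exact Finset.card_union_le _ _
      exact_mod_cast h1
    have hW : (∑ x ∈ G.support.offDiag, ((W x).card : ℝ)) ≤ θ * n / 4 := by
      have h1 : (∑ x ∈ G.support.offDiag, ((W x).card : ℝ)) ≤
          ∑ x ∈ G.support.offDiag, (D * (5 * δ * n)) := Finset.sum_le_sum fun x _ => hc3 x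
      rw [Finset.sum_const, nsmul_eq_mul] at h1
      have h2 : ((G.support.offDiag.card : ℕ) : ℝ) ≤ (k:ℝ) ^ 2 := by
        have h3 : G.support.offDiag.card ≤ k ^ 2 := by
          rw [Finset.offDiag_card, sq]
          exact (Nat.sub_le _ _).trans (Nat.mul_le_mul hk hk)
        exact_mod_cast h3
      have h4 : ((G.support.offDiag.card : ℕ) : ℝ) * (D * (5 * δ * n)) ≤
          (k:ℝ) ^ 2 * (D * (5 * δ * n)) :=
        mul_le_mul_of_nonneg_right h2 (by positivity)
      have h5 : (k:ℝ) ^ 2 * (D * (5 * δ * n)) = (D / (D + 1)) * θ * (θ * n / 4) := by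
        rw [hky, hδ, hr]; field_simp; ring
      have h6 : ((D:ℝ) / (D + 1)) * θ ≤ 1 := by
        have : ((D:ℝ) / (D + 1)) ≤ 1 := by
          rw [div_le_one (by positivity)]; linarith
        exact mul_le_one₀ this hθ0.le hθ1
      have h7 : ((D:ℝ) / (D + 1)) * θ * (θ * n / 4) ≤ 1 * (θ * n / 4) :=
        mul_le_mul_of_nonneg_right h6 (by positivity)
      linarith
    have hT : (∑ s ∈ G.support, ((T s).card : ℝ)) * ε ≤ k * (m * (4 * k)) := by
      rw [Finset.sum_mul]
      refine (Finset.sum_le_sum hc4).trans ?_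
      rw [Finset.sum_const, nsmul_eq_mul]
      apply mul_le_mul_of_nonneg_right _ (by positivity)
      exact_mod_cast hk
    -- multiply by ε
    have h1 : (3 / 4 * (θ * n)) * ε ≤ 2 * lam + 2 * m + k * (m * (4 * k)) := by
      have h2 : 3 / 4 * (θ * n) ≤ F1.card + F2.card + ∑ s ∈ G.support, ((T s).card : ℝ) := by linarith
      have h3 := mul_le_mul_of_nonneg_right h2 hε0.le
      have h4 : (F2.card : ℝ) * ε ≤ 2 * m := by
        have : (F2.card : ℝ) * ε ≤ F2.card * 1 :=
          mul_le_mul_of_nonneg_left hε1 (Nat.cast_nonneg _)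
        linarith
      rw [add_mul, add_mul] at h3
      linarith
    have hm0 : (0:ℝ) ≤ m := Nat.cast_nonneg _
    have h5 : θ * n * ε ≤ 8 * (1 + m) * (k:ℝ) ^ 2 * (1 + lam) := fin_alg h1 hlam hm0 hk1
    have h6 : n * ε ≤ 8 * (1 + m) * y ^ 3 * (1 + lam) := by
      have h7 : θ * n * ε * y ≤ 8 * (1 + m) * (k:ℝ) ^ 2 * (1 + lam) * y :=
        mul_le_mul_of_nonneg_right h5 (by linarith)
      have h8 : θ * n * ε * y = n * ε * k := by rw [hky]; ring
      have h9 : n * ε ≤ n * ε * k := le_mul_of_one_le_right (by positivity) hk1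
      have h10 : 8 * (1 + m) * (k:ℝ) ^ 2 * (1 + lam) * y ≤ 8 * (1 + m) * y ^ 2 * (1 + lam) * y := by
        apply mul_le_mul_of_nonneg_right _ (by linarith)
        apply mul_le_mul_of_nonneg_right _ (by linarith)
        apply mul_le_mul_of_nonneg_left _ (by positivity)
        exact pow_le_pow_left₀ (by linarith) hkley 2
      calc n * ε ≤ 8 * (1 + m) * y ^ 2 * (1 + lam) * y := by linarith
        _ = _ := by ring
    have h7 : 8 * (1 + m) * y ^ 3 * (1 + lam) = (K2 * y ^ (3 + 2 * D) * (1 + lam)) * ε := by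
      rw [hK2, hε, hr, pow_add, pow_mul, one_div, inv_pow, mul_pow]
      field_simp
      rw [mul_pow, mul_pow]; ring
    rw [h7] at h6
    exact le_of_mul_le_mul_right h6 hε0

/-- **counting** -/
theorem count (P Q : ℂ[X]) (hI : Ind P Q) (m : ℕ) (hPm : P.natDegree ≤ m)
    (hQm : Q.natDegree ≤ m) (c : ℝ) (D : ℕ) (hc0 : 0 < c) (hc1 : c ≤ 1) (hwin : WinC P Q c D)
    (k : ℕ) (G : ℂ[X]) (hG : G ≠ 0) (hk : G.support.card ≤ k) (f : ℤ[X]) (Z Z' : Finset ℂ)
    (hf : f ≠ 0) (hZ : Rts f Z) (hZ' : Z' ⊆ Z) (θ : ℝ) (hθ0 : 0 < θ)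
    (hθ1 : θ ≤ 1) (hθ : θ * f.natDegree ≤ Z'.card)
    (hroot : ∀ z ∈ Z', Q.eval z ≠ 0 → G.eval (P.eval z / Q.eval z) = 0) :
    (f.natDegree : ℝ) ≤ ((27 * (20 * (D + 1)) ^ 6 + 8 * (1 + m) * (120 * (D + 1)) ^ D / c) *
      2 ^ (14 + 2 * D) + 2) * (k / θ) ^ (15 + 2 * D) * (1 + ml f) := by
  classical
  have h := fun (θ : ℝ) (hθ0 : 0 < θ) (hθ1 : θ ≤ 1) (f : ℤ[X]) (Z Z' : Finset ℂ)
    (hf : f ≠ 0) (hf0 : f.coeff 0 ≠ 0) (hZ : Rts f Z) (hZ' : Z' ⊆ Z)
    (hθ : θ * f.natDegree ≤ Z'.card)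
    (hroot : ∀ z ∈ Z', Q.eval z ≠ 0 → G.eval (P.eval z / Q.eval z) = 0) =>
    count0 P Q hI m hPm hQm c D hc0 hc1 hwin k G hG hk f Z Z' hf hf0 hZ hZ' θ hθ0 hθ1 hθ hroot
  set K : ℝ := 27 * (20 * (D + 1)) ^ 6 + 8 * (1 + m) * (120 * (D + 1)) ^ D / c with hKdef
  have hK : 0 < K := by positivity
  set A : ℕ := 14 + 2 * D with hA
  have hA1 : 15 + 2 * D = A + 1 := by omega
  rw [hA1]
  have hlam := ml_nonneg hf
  have hk0 : 0 < k := lt_of_lt_of_le (Finset.card_pos.mpr (support_nonempty.mpr hG)) hk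
  have hk1 : (1:ℝ) ≤ k := by exact_mod_cast hk0
  have hy1 : 1 ≤ (k:ℝ) / θ := by
    rw [le_div_iff₀ hθ0]; linarith
  set y := (k:ℝ) / θ with hy
  have hyA : y ^ A ≤ y ^ (A + 1) := pow_le_pow_right₀ hy1 (by omega)
  by_cases h0 : f.coeff 0 = 0
  swap
  · have h1 := h θ hθ0 hθ1 f Z Z' hf h0 hZ hZ' hθ hroot
    refine h1.trans ?_
    apply mul_le_mul_of_nonneg_right _ (by linarith)
    apply mul_le_mul _ hyA (by positivity) (by positivity)
    have : (1:ℝ) ≤ 2 ^ A := one_le_pow₀ (by norm_num)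
    nlinarith
  · -- f = X * g
    have hfg : f = X * f.divX := by
      have := f.X_mul_divX_add
      rw [h0, C_0, add_zero] at this
      exact this.symm
    set g := f.divX with hg
    have hg0 : g ≠ 0 := by rintro h1; rw [h1, mul_zero] at hfg; exact hf hfg
    have hdeg : f.natDegree = g.natDegree + 1 := by
      conv_lhs => rw [hfg]
      rw [natDegree_X_mul hg0]
    have hmap : f.map (Int.castRingHom ℂ) = X * g.map (Int.castRingHom ℂ) := by
      conv_lhs => rw [hfg]
      rw [Polynomial.map_mul, map_X]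
    have hX : (X : ℂ[X]).mahlerMeasure = 1 := by
      have := mahlerMeasure_X_sub_C 0
      simpa using this
    have hml : ml f = ml g := by
      rw [ml, ml, logMahlerMeasure_eq_log_MahlerMeasure, logMahlerMeasure_eq_log_MahlerMeasure, hmap,
        mahlerMeasure_mul, hX, one_mul]
    have hroots : (f.map (Int.castRingHom ℂ)).roots = 0 ::ₘ (g.map (Int.castRingHom ℂ)).roots := by
      rw [hmap, roots_mul (mul_ne_zero X_ne_zero (map_ne hg0)), roots_X, Multiset.singleton_add]
    have hgZ : Rts g (Z.erase 0) := by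
      unfold Rts at hZ ⊢
      rw [Finset.erase_val, ← hZ, hroots, Multiset.erase_cons_head]
    have hgc : g.coeff 0 ≠ 0 := by
      intro h1
      have h2 : (0:ℂ) ∈ (g.map (Int.castRingHom ℂ)).roots := by
        rw [mem_roots (map_ne hg0), IsRoot, ← coeff_zero_eq_eval_zero, coeff_map, h1, map_zero]
      unfold Rts at hgZ
      rw [hgZ, Finset.mem_val] at h2
      exact Finset.notMem_erase _ _ h2
    by_cases hsmall : θ * f.natDegree ≤ 2
    · have h1 : (f.natDegree : ℝ) ≤ 2 / θ := by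
        rw [le_div_iff₀ hθ0]; linarith
      have h2 : 2 / θ ≤ 2 * y := by
        rw [hy, mul_div_assoc', div_le_div_iff_of_pos_right hθ0]; linarith
      have h3 : y ≤ y ^ (A + 1) := by
        calc y = y ^ 1 := (pow_one y).symm
          _ ≤ _ := pow_le_pow_right₀ hy1 (by omega)
      calc (f.natDegree : ℝ) ≤ 2 * y ^ (A + 1) := by linarith
        _ ≤ (K * 2 ^ A + 2) * y ^ (A + 1) := by
            apply mul_le_mul_of_nonneg_right _ (by positivity)
            have : 0 ≤ K * 2 ^ A := by positivity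
            linarith
        _ ≤ (K * 2 ^ A + 2) * y ^ (A + 1) * (1 + ml f) :=
            le_mul_of_one_le_right (by positivity) (by linarith)
    · push Not at hsmall
      have h1 := h (θ / 2) (by linarith) (by linarith) g (Z.erase 0) (Z'.erase 0) hg0 hgc hgZ
        (Finset.erase_subset_erase 0 hZ') (by
          have h2 : ((Z'.erase 0).card : ℝ) ≥ Z'.card - 1 := by
            have h3 : Z'.card ≤ (Z'.erase 0).card + 1 := by
              have := Finset.pred_card_le_card_erase (s := Z') (a := (0:ℂ))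
              omega
            have h4 : (Z'.card : ℝ) ≤ (Z'.erase 0).card + 1 := by exact_mod_cast h3
            linarith
          have h5 : (g.natDegree : ℝ) ≤ f.natDegree := by rw [hdeg]; push_cast; linarith
          have h6 : θ / 2 * g.natDegree ≤ θ / 2 * f.natDegree :=
            mul_le_mul_of_nonneg_left h5 (by linarith)
          linarith) (fun z hz => hroot z (Finset.mem_of_mem_erase hz))
      have h2 : (k:ℝ) / (θ / 2) = 2 * y := by rw [hy]; field_simp
      rw [h2, mul_pow, ← hml] at h1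
      rw [hdeg]
      push_cast
      have h3 : K * (2 ^ A * y ^ A) * (1 + ml f) ≤ K * (2 ^ A * y ^ (A + 1)) * (1 + ml f) := by
        apply mul_le_mul_of_nonneg_right _ (by linarith)
        apply mul_le_mul_of_nonneg_left _ hK.le
        exact mul_le_mul_of_nonneg_left hyA (by positivity)
      have h4 : (1:ℝ) ≤ 2 * y ^ (A + 1) * (1 + ml f) := by
        have h5 : (1:ℝ) ≤ y ^ (A + 1) := one_le_pow₀ hy1
        nlinarith
      calc (g.natDegree : ℝ) + 1 ≤ K * (2 ^ A * y ^ (A + 1)) * (1 + ml f) +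
            2 * y ^ (A + 1) * (1 + ml f) := by linarith
        _ = _ := by ring

end Pool.Agent.K3h71.SP
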