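import Mathlib

/-!
# Elimination: forms with polynomial digits

A polynomial `∑_{j ∈ S} h_j P^j Q^(N-j)` vanishes only at points `z` where `P(z)/Q(z)` is a zero of
a nonzero polynomial with at most `|S|^m 2^d` terms.
-/

set_option autoImplicit false

open Polynomial
open scoped Pointwise

namespace Pool.Agent.K3h71.SP

/-- the support of `p` is contained in `T` -/
def Sup (T : Finset ℕ) (p : ℂ[X]) : Prop := ∀ n, p.coeff n ≠ 0 → n ∈ T

lemma sup_mul {T U : Finset ℕ} {p q : ℂ[X]} (hp : Sup T p) (hq : Sup U q) :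
    Sup (T + U) (p * q) := by
  intro n hn
  rw [coeff_mul] at hn
  obtain ⟨x, hx, hx2⟩ := Finset.exists_ne_zero_of_sum_ne_zero hn
  rw [Finset.HasAntidiagonal.mem_antidiagonal] at hx
  rw [← hx]
  exact Finset.add_mem_add (hp _ (left_ne_zero_of_mul hx2)) (hq _ (right_ne_zero_of_mul hx2))

lemma sup_prod {ι : Type*} (s : Finset ι) (T : ι → Finset ℕ) (p : ι → ℂ[X])
    (h : ∀ i ∈ s, Sup (T i) (p i)) : Sup (∑ i ∈ s, T i) (∏ i ∈ s, p i) := by
  classical
  induction s using Finset.induction_on with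
  | empty =>
    intro n hn
    rw [Finset.prod_empty, coeff_one] at hn
    rw [Finset.sum_empty, Finset.mem_zero]
    by_contra h0
    rw [if_neg h0] at hn
    exact hn rfl
  | insert a s ha ih =>
    rw [Finset.prod_insert ha, Finset.sum_insert ha]
    exact sup_mul (h a (Finset.mem_insert_self a s))
      (ih fun i hi => h i (Finset.mem_insert_of_mem hi))

lemma card_sum_le {ι : Type*} (s : Finset ι) (T : ι → Finset ℕ) :
    (∑ i ∈ s, T i).card ≤ ∏ i ∈ s, (T i).card := by
  classical
  induction s using Finset.induction_on with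
  | empty => simp
  | insert a s ha ih =>
    rw [Finset.sum_insert ha, Finset.prod_insert ha]
    exact Finset.card_add_le.trans (Nat.mul_le_mul_left _ ih)

lemma sup_det {n : ℕ} (M : Matrix (Fin n) (Fin n) ℂ[X]) (T : Fin n → Finset ℕ)
    (h : ∀ i j, Sup (T j) (M i j)) : Sup (∑ i, T i) M.det := by
  intro l hl
  rw [Matrix.det_apply, finsetSum_coeff] at hl
  obtain ⟨σ, _, hσ⟩ := Finset.exists_ne_zero_of_sum_ne_zero hl
  have h1 : (∏ i, M (σ i) i).coeff l ≠ 0 := by
    intro h0
    apply hσ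
    rcases Int.units_eq_one_or (Equiv.Perm.sign σ) with h2 | h2
    · rw [h2, one_smul, h0]
    · rw [h2, Units.neg_smul, one_smul, coeff_neg, h0, neg_zero]
  exact sup_prod Finset.univ T (fun i => M (σ i) i) (fun i _ => h (σ i) i) l h1

/-- the form with polynomial digits `h_j` -/
noncomputable def dform (h : ℕ → ℂ[X]) (S : Finset ℕ) (N : ℕ) (P Q : ℂ[X]) : ℂ[X] :=
  ∑ j ∈ S, h j * P ^ j * Q ^ (N - j)

/-- `P - W Q` as a polynomial over `ℂ[W]` -/
noncomputable def AA (P Q : ℂ[X]) : (ℂ[X])[X] := P.map C - C X * Q.map C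

/-- `∑ W^j h_j` as a polynomial over `ℂ[W]` -/
noncomputable def BB (h : ℕ → ℂ[X]) (S : Finset ℕ) : (ℂ[X])[X] :=
  ∑ j ∈ S, C (X ^ j) * (h j).map C

lemma map_C_eval (p : ℂ[X]) (w : ℂ) : (p.map C).map (evalRingHom w) = p := by
  rw [Polynomial.map_map]
  have : (evalRingHom w).comp (C : ℂ →+* ℂ[X]) = RingHom.id ℂ := by
    ext x; simp
  rw [this, Polynomial.map_id]

lemma AA_eval (P Q : ℂ[X]) (w : ℂ) : (AA P Q).map (evalRingHom w) = P - C w * Q := by
  rw [AA, Polynomial.map_sub, Polynomial.map_mul, map_C_eval, map_C_eval, Polynomial.map_C]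
  simp

lemma BB_eval (h : ℕ → ℂ[X]) (S : Finset ℕ) (w : ℂ) :
    (BB h S).map (evalRingHom w) = ∑ j ∈ S, C (w ^ j) * h j := by
  rw [BB, Polynomial.map_sum]
  refine Finset.sum_congr rfl fun j _ => ?_
  rw [Polynomial.map_mul, map_C_eval, Polynomial.map_C]
  simp

lemma AA_sup (P Q : ℂ[X]) (l : ℕ) : Sup {0, 1} ((AA P Q).coeff l) := by
  intro n hn
  rw [AA, coeff_sub, coeff_C_mul, coeff_map, coeff_map] at hn
  by_contra h0
  simp only [Finset.mem_insert, Finset.mem_singleton, not_or] at h0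
  apply hn
  obtain ⟨l', rfl⟩ : ∃ l', n = l' + 2 := ⟨n - 2, by omega⟩
  rw [coeff_sub, coeff_C, if_neg h0.1, coeff_X_mul, coeff_C, if_neg (by omega), sub_zero]

lemma BB_sup (h : ℕ → ℂ[X]) (S : Finset ℕ) (l : ℕ) : Sup S ((BB h S).coeff l) := by
  intro n hn
  rw [BB, finsetSum_coeff, finsetSum_coeff] at hn
  obtain ⟨j, hj, hj2⟩ := Finset.exists_ne_zero_of_sum_ne_zero hn
  rw [coeff_C_mul, coeff_map, coeff_mul_C, coeff_X_pow] at hj2
  split_ifs at hj2 with h1
  · rw [h1]; exact hj
  · rw [zero_mul] at hj2; exact absurd rfl hj2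

lemma dform_eval {h : ℕ → ℂ[X]} {S : Finset ℕ} {N : ℕ} (hN : ∀ j ∈ S, j ≤ N) {P Q : ℂ[X]} {z : ℂ}
    (hQ : Q.eval z ≠ 0) : (dform h S N P Q).eval z =
      (Q.eval z) ^ N * (∑ j ∈ S, C ((P.eval z / Q.eval z) ^ j) * h j).eval z := by
  rw [dform, eval_finsetSum, eval_finsetSum, Finset.mul_sum]
  refine Finset.sum_congr rfl fun j hj => ?_
  simp only [eval_mul, eval_pow, eval_C]
  rw [div_pow]
  have h1 : (Q.eval z) ^ N = (Q.eval z) ^ (N - j) * (Q.eval z) ^ j := by
    rw [← pow_add, Nat.sub_add_cancel (hN j hj)]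
  rw [h1]
  field_simp

/-- **elimination** -/
theorem elim (P Q : ℂ[X]) (hcop : IsCoprime P Q) (m : ℕ) (hm : max P.natDegree Q.natDegree = m)
    (hm0 : 0 < m) (d : ℕ) (h : ℕ → ℂ[X]) (S : Finset ℕ) (N : ℕ)
    (hS : ∀ j ∈ S, (h j).natDegree ≤ d) (hN : ∀ j ∈ S, j ≤ N) (hH : dform h S N P Q ≠ 0) :
    ∃ G : ℂ[X], G ≠ 0 ∧ G.support.card ≤ S.card ^ m * 2 ^ d ∧
      ∀ z, (dform h S N P Q).eval z = 0 → Q.eval z ≠ 0 → G.eval (P.eval z / Q.eval z) = 0 := by
  classical
  have hPm : P.natDegree ≤ m := hm ▸ le_max_left _ _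
  have hQm : Q.natDegree ≤ m := hm ▸ le_max_right _ _
  set G := resultant (AA P Q) (BB h S) m d with hG
  have hev : ∀ w : ℂ, G.eval w = resultant (P - C w * Q) (∑ j ∈ S, C (w ^ j) * h j) m d := by
    intro w
    have h1 := resultant_map_map (f := AA P Q) (g := BB h S) (m := m) (n := d) (evalRingHom w)
    rw [AA_eval, BB_eval] at h1
    rw [h1]; rfl
  have hdA : ∀ w : ℂ, (P - C w * Q).natDegree ≤ m := fun w =>
    (natDegree_sub_le _ _).trans (max_le hPm ((natDegree_C_mul_le _ _).trans hQm))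
  have hdB : ∀ w : ℂ, (∑ j ∈ S, C (w ^ j) * h j).natDegree ≤ d := fun w =>
    natDegree_sum_le_of_forall_le S _ fun j hj => (natDegree_C_mul_le _ _).trans (hS j hj)
  refine ⟨G, ?_, ?_, ?_⟩
  · -- nonvanishing
    have hpq : (C (P.coeff m) - X * C (Q.coeff m) : ℂ[X]) ≠ 0 := by
      intro h0
      have h1 := congrArg (fun p => coeff p 0) h0
      have h2 := congrArg (fun p => coeff p 1) h0
      simp only [coeff_sub, mul_coeff_zero, coeff_X_zero, zero_mul, sub_zero,
        coeff_zero, coeff_C, one_ne_zero, if_false, if_true, coeff_X_mul, zero_sub,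
        neg_eq_zero] at h1 h2
      rcases le_total P.natDegree Q.natDegree with h3 | h3
      · rw [max_eq_right h3] at hm
        rw [← hm, coeff_natDegree, leadingCoeff_eq_zero] at h2
        rw [h2, natDegree_zero] at hm
        omega
      · rw [max_eq_left h3] at hm
        rw [← hm, coeff_natDegree, leadingCoeff_eq_zero] at h1
        rw [h1, natDegree_zero] at hm
        omega
    obtain ⟨w, hw⟩ := Infinite.exists_notMem_finset
      ((C (P.coeff m) - X * C (Q.coeff m) : ℂ[X]).roots.toFinset ∪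
        (dform h S N P Q).roots.toFinset.image (fun z => P.eval z / Q.eval z))
    rw [Finset.mem_union, not_or, Multiset.mem_toFinset, mem_roots hpq] at hw
    obtain ⟨hw1, hw2⟩ := hw
    intro h0
    have h1 := hev w
    rw [h0, eval_zero] at h1
    have hlc : (P - C w * Q).coeff m ≠ 0 := by
      intro h2
      apply hw1
      rw [coeff_sub, coeff_C_mul] at h2
      simp only [IsRoot, eval_sub, eval_mul, eval_C, eval_X]
      exact h2
    have hdeg : (P - C w * Q).natDegree = m :=
      le_antisymm (hdA w) (le_natDegree_of_ne_zero hlc)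
    have h2 := resultant_eq_prod_eval (P - C w * Q) (∑ j ∈ S, C (w ^ j) * h j) d (hdB w)
      (IsAlgClosed.splits _)
    rw [hdeg, ← h1] at h2
    rcases mul_eq_zero.mp h2.symm with h3 | h3
    · refine absurd h3 (pow_ne_zero _ ?_)
      rw [leadingCoeff, hdeg]
      exact hlc
    · rw [Multiset.prod_eq_zero_iff, Multiset.mem_map] at h3
      obtain ⟨z, hz, hz2⟩ := h3
      have hz3 := (mem_roots'.mp hz).2
      rw [IsRoot, eval_sub, eval_mul, eval_C] at hz3
      have hQz : Q.eval z ≠ 0 := by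
        intro h4
        rw [h4, mul_zero, sub_zero] at hz3
        obtain ⟨u, v, huv⟩ := hcop
        have h5 := congrArg (eval z) huv
        rw [eval_add, eval_mul, eval_mul, hz3, h4, mul_zero, mul_zero, add_zero, eval_one] at h5
        exact zero_ne_one h5
      have hwz : w = P.eval z / Q.eval z := by
        rw [eq_div_iff hQz]; exact (sub_eq_zero.mp hz3).symm
      apply hw2
      rw [Finset.mem_image]
      refine ⟨z, ?_, hwz.symm⟩
      rw [Multiset.mem_toFinset, mem_roots hH, IsRoot, dform_eval hN hQz, ← hwz, hz2, mul_zero]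
  · -- number of terms
    let T : Fin (m + d) → Finset ℕ := Fin.addCases (fun _ => S) (fun _ => {0, 1})
    have h1 : Sup (∑ i, T i) G := by
      rw [hG, resultant]
      apply sup_det
      intro i j
      refine Fin.addCases (fun j1 => ?_) (fun j1 => ?_) j
      · simp only [T, sylvester, Matrix.of_apply, Fin.addCases_left]
        split_ifs
        · exact BB_sup h S _
        · intro n hn; simp at hn
      · simp only [T, sylvester, Matrix.of_apply, Fin.addCases_right]
        split_ifs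
        · exact AA_sup P Q _
        · intro n hn; simp at hn
    have h2 : G.support ⊆ ∑ i, T i := fun n hn => h1 n (mem_support_iff.mp hn)
    refine (Finset.card_le_card h2).trans ((card_sum_le _ _).trans (le_of_eq ?_))
    rw [Fin.prod_univ_add]
    simp [T]
  · intro z hz hQz
    rw [hev]
    obtain ⟨p, q, _, _, hpq⟩ := exists_mul_add_mul_eq_C_resultant
      (P - C (P.eval z / Q.eval z) * Q) (∑ j ∈ S, C ((P.eval z / Q.eval z) ^ j) * h j)
      (hdA _) (hdB _) (Or.inl hm0.ne')
    have h1 := congrArg (eval z) hpq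
    rw [dform_eval hN hQz] at hz
    have h2 := (mul_eq_zero.mp hz).resolve_left (pow_ne_zero _ hQz)
    rw [eval_add, eval_mul, eval_mul, h2, zero_mul, add_zero, eval_C, eval_sub, eval_mul, eval_C,
      div_mul_cancel₀ _ hQz, sub_self, zero_mul] at h1
    exact h1.symm

end Pool.Agent.K3h71.SP
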