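import Mathlib
import Pool.Agent.K3h71.SP.WinE

/-!
# Quantitative independence of `|P|²` and `|Q|²` for integer polynomials
-/

set_option autoImplicit false

open Polynomial

namespace Pool.Agent.K3h71.SP

/-- the integer polynomial `X^m |P|²` -/
noncomputable def sqi (m : ℕ) (P : ℤ[X]) : ℤ[X] := P * reflect m P

lemma sqp_map (m : ℕ) (P : ℤ[X]) :
    sqp m (P.map (Int.castRingHom ℂ)) = (sqi m P).map (Int.castRingHom ℂ) := by
  have h1 : (P.map (Int.castRingHom ℂ)).map (starRingEnd ℂ) = P.map (Int.castRingHom ℂ) := by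
    rw [Polynomial.map_map]
    congr 1
    exact RingHom.ext_int _ _
  rw [sqp, sqi, h1, Polynomial.map_mul]
  congr 1
  ext i
  rw [coeff_reflect, coeff_map, coeff_map, coeff_reflect]

lemma sqi_coeff (m : ℕ) (P : ℤ[X]) (hP : P.natDegree ≤ m) (B : ℝ)
    (hB : ∀ i, |(P.coeff i : ℝ)| ≤ B) (i : ℕ) :
    |((sqi m P).coeff i : ℝ)| ≤ (m + 1) * B ^ 2 := by
  have hB0 : 0 ≤ B := (abs_nonneg _).trans (hB 0)
  rw [sqi, coeff_mul, Finset.Nat.sum_antidiagonal_eq_sum_range_succ_mk]
  push_cast
  refine (Finset.abs_sum_le_sum_abs _ _).trans ?_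
  calc ∑ k ∈ Finset.range (i + 1), |(P.coeff k : ℝ) * ((reflect m P).coeff (i - k) : ℝ)|
      ≤ ∑ k ∈ Finset.range (i + 1), |(P.coeff k : ℝ)| * B := by
        apply Finset.sum_le_sum
        intro k _
        rw [abs_mul, coeff_reflect]
        exact mul_le_mul_of_nonneg_left (hB _) (abs_nonneg _)
    _ ≤ ∑ k ∈ Finset.range (m + 1), |(P.coeff k : ℝ)| * B := by
        have h1 : ∑ k ∈ Finset.range (m + 1), |(P.coeff k : ℝ)| * B =
            ∑ k ∈ Finset.range (m + 1 + (i + 1)), |(P.coeff k : ℝ)| * B := by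
          apply Finset.sum_subset
          · exact Finset.range_subset_range.mpr (by omega)
          · intro k _ hk
            rw [Finset.mem_range] at hk
            rw [coeff_eq_zero_of_natDegree_lt (by omega)]
            simp
        rw [h1]
        apply Finset.sum_le_sum_of_subset_of_nonneg
        · exact Finset.range_subset_range.mpr (by omega)
        · intro k _ _
          positivity
    _ ≤ ∑ k ∈ Finset.range (m + 1), B * B := by
        apply Finset.sum_le_sum
        intro k _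
        exact mul_le_mul_of_nonneg_right (hB k) hB0
    _ = _ := by rw [Finset.sum_const, Finset.card_range, nsmul_eq_mul]; push_cast; ring

lemma sqi_minor (m : ℕ) (P Q : ℤ[X]) (hP : P.natDegree ≤ m) (hQ : Q.natDegree ≤ m)
    (hI : Ind (P.map (Int.castRingHom ℂ)) (Q.map (Int.castRingHom ℂ))) :
    ∃ i j, (sqi m P).coeff i * (sqi m Q).coeff j - (sqi m P).coeff j * (sqi m Q).coeff i ≠ 0 := by
  by_contra hcon
  push Not at hcon
  have hPd : (P.map (Int.castRingHom ℂ)).natDegree ≤ m := natDegree_map_le.trans hP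
  have hQd : (Q.map (Int.castRingHom ℂ)).natDegree ≤ m := natDegree_map_le.trans hQ
  have key : ∀ a b : ℤ, C a * sqi m P = C b * sqi m Q → a = 0 ∧ b = 0 := by
    intro a b hab
    have h1 := hI a b (by
      intro z hz
      have h2 := congrArg (fun p => eval z (p.map (Int.castRingHom ℂ))) hab
      simp only [Polynomial.map_mul, Polynomial.map_C, ← sqp_map, eval_mul, eval_C,
        sqp_eval m _ hPd hz, sqp_eval m _ hQd hz] at h2
      have hz0 : z ^ m ≠ 0 := by
        apply pow_ne_zero; rintro rfl; simp at hz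
      have h4 : z ^ m * ((a : ℂ) * ((‖(P.map (Int.castRingHom ℂ)).eval z‖ ^ 2 : ℝ) : ℂ)) =
          z ^ m * ((b : ℂ) * ((‖(Q.map (Int.castRingHom ℂ)).eval z‖ ^ 2 : ℝ) : ℂ)) := by
        simp only [eq_intCast] at h2
        linear_combination h2
      have h5 := mul_left_cancel₀ hz0 h4
      exact_mod_cast h5)
    exact ⟨by exact_mod_cast h1.1, by exact_mod_cast h1.2⟩
  by_cases hY : sqi m Q = 0
  · have := (key 0 1 (by rw [hY, C_0, zero_mul, mul_zero])).2
    exact one_ne_zero this
  · obtain ⟨j, hj⟩ := Polynomial.support_nonempty.mpr hY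
    rw [mem_support_iff] at hj
    have := (key ((sqi m Q).coeff j) ((sqi m P).coeff j) (by
      ext i
      rw [coeff_C_mul, coeff_C_mul]
      have := hcon i j
      linarith)).1
    exact hj this

/-- **quantitative independence** for integer polynomials -/
theorem kap_int (m : ℕ) (P Q : ℤ[X]) (hP : P.natDegree ≤ m) (hQ : Q.natDegree ≤ m)
    (hI : Ind (P.map (Int.castRingHom ℂ)) (Q.map (Int.castRingHom ℂ))) (B : ℝ) (hB1 : 1 ≤ B)
    (hPB : ∀ i, |(P.coeff i : ℝ)| ≤ B) (hQB : ∀ i, |(Q.coeff i : ℝ)| ≤ B) :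
    Kap m (P.map (Int.castRingHom ℂ)) (Q.map (Int.castRingHom ℂ))
      (1 / (4 * ((m + 1) * B ^ 2))) := by
  obtain ⟨i, j, hij⟩ := sqi_minor m P Q hP hQ hI
  set s : ℝ := (m + 1) * B ^ 2 with hs
  have hs0 : 0 < s := by positivity
  have hX := sqi_coeff m P hP B hPB
  have hY := sqi_coeff m Q hQ B hQB
  rw [← hs] at hX hY
  intro c hc
  by_contra hcon
  push Not at hcon
  have hlt : ∀ l, |((sqi m P).coeff l : ℝ) - c * ((sqi m Q).coeff l : ℝ)| <
      1 / (4 * s) * (1 + c) := by
    intro l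
    have h1 := hcon l
    rw [sqp_map, sqp_map, coeff_sub, coeff_C_mul, coeff_map, coeff_map] at h1
    have h2 : (Int.castRingHom ℂ) ((sqi m P).coeff l) -
        (c : ℂ) * (Int.castRingHom ℂ) ((sqi m Q).coeff l) =
        ((((sqi m P).coeff l : ℝ) - c * ((sqi m Q).coeff l : ℝ) : ℝ) : ℂ) := by
      simp
    rw [h2, Complex.norm_real, Real.norm_eq_abs] at h1
    exact h1
  set a := ((sqi m P).coeff i : ℝ)
  set a' := ((sqi m P).coeff j : ℝ)
  set b := ((sqi m Q).coeff i : ℝ)
  set b' := ((sqi m Q).coeff j : ℝ)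
  have hdet : (1:ℝ) ≤ |a * b' - a' * b| := by
    have h1 := Int.one_le_abs hij
    have h2 : ((1:ℤ) : ℝ) ≤ ((|(sqi m P).coeff i * (sqi m Q).coeff j -
      (sqi m P).coeff j * (sqi m Q).coeff i| : ℤ) : ℝ) := by exact_mod_cast h1
    push_cast at h2
    exact h2
  have h1 : |a * b' - a' * b| ≤ |a - c * b| * s + |a' - c * b'| * s := by
    have e : a * b' - a' * b = (a - c * b) * b' - (a' - c * b') * b := by ring
    rw [e]
    refine (abs_sub _ _).trans ?_
    rw [abs_mul, abs_mul]
    exact add_le_add (mul_le_mul_of_nonneg_left (hY j) (abs_nonneg _))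
      (mul_le_mul_of_nonneg_left (hY i) (abs_nonneg _))
  have h2 : c * |a * b' - a' * b| ≤ |a - c * b| * s + |a' - c * b'| * s := by
    have e : c * |a * b' - a' * b| = |(a - c * b) * a' - (a' - c * b') * a| := by
      rw [← abs_of_nonneg hc, ← abs_mul, abs_of_nonneg hc]
      congr 1; ring
    rw [e]
    refine (abs_sub _ _).trans ?_
    rw [abs_mul, abs_mul]
    exact add_le_add (mul_le_mul_of_nonneg_left (hX j) (abs_nonneg _))
      (mul_le_mul_of_nonneg_left (hX i) (abs_nonneg _))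
  have h3 : c ≤ c * |a * b' - a' * b| := le_mul_of_one_le_right hc hdet
  have h4 := mul_lt_mul_of_pos_right (hlt i) hs0
  have h5 := mul_lt_mul_of_pos_right (hlt j) hs0
  have h6 : 1 / (4 * s) * (1 + c) * s = (1 + c) / 4 := by field_simp
  rw [h6] at h4 h5
  linarith

end Pool.Agent.K3h71.SP
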