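import Mathlib
import Pool.Agent.K3h71.SP.Count
import Pool.Agent.H338R2.AS.T5

/-!
# Lehmer's problem for integer polynomials with zeros at zeros of sparse forms `∑ g_j P^j Q^(N-j)`
-/

set_option autoImplicit false

open Polynomial

namespace Pool.Agent.K3h71.SP

lemma nodup_irr {p : ℤ[X]} (hp : Irreducible p) : (p.map (Int.castRingHom ℂ)).roots.Nodup := by
  by_cases hd : p.natDegree = 0
  · have h1 : (p.map (Int.castRingHom ℂ)).natDegree = 0 := by
      rw [natDegree_map_eq_of_injective (RingHom.injective_int _), hd]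
    have h2 := card_roots' (p.map (Int.castRingHom ℂ))
    have h3 : Multiset.card (p.map (Int.castRingHom ℂ)).roots = 0 := by omega
    rw [Multiset.card_eq_zero.mp h3]
    exact Multiset.nodup_zero
  · have hprim : p.IsPrimitive := hp.isPrimitive hd
    have h1 : Irreducible (p.map (Int.castRingHom ℚ)) :=
      (IsPrimitive.Int.irreducible_iff_irreducible_map_cast hprim).mp hp
    have h2 := nodup_roots (h1.separable.map (f := algebraMap ℚ ℂ))
    rw [Polynomial.map_map] at h2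
    have h3 : (algebraMap ℚ ℂ).comp (Int.castRingHom ℚ) = Int.castRingHom ℂ := RingHom.ext_int _ _
    rwa [h3] at h2

lemma rts_of_nodup {f : ℤ[X]} (h : (f.map (Int.castRingHom ℂ)).roots.Nodup) :
    Rts f (f.map (Int.castRingHom ℂ)).roots.toFinset := by
  unfold Rts
  rw [Multiset.toFinset_val, Multiset.dedup_eq_self.mpr h]

/-- common zeros of `f` and `H` -/
def com (f : ℤ[X]) (H : ℂ[X]) : Set ℂ := {z | aeval z f = 0 ∧ H.eval z = 0}

lemma aeval_iff {f : ℤ[X]} (hf : f ≠ 0) {z : ℂ} :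
    aeval z f = 0 ↔ z ∈ (f.map (Int.castRingHom ℂ)).roots := by
  rw [mem_roots (map_ne hf), IsRoot, eval_map, aeval_def]
  rfl

open Pool.Agent.H338R2.AS (dobr_poly lm)

lemma ml_eq_lm (f : ℤ[X]) : ml f = lm f := rfl

/-- the consequence of Dobrowolski's theorem -/
lemma dob_abs : ∃ c : ℝ, 0 < c ∧ ∀ (x : ℝ), 1 ≤ x →
    ∀ f : ℤ[X], 0 < ml f → (f.natDegree : ℝ) ≤ x * (1 + ml f) →
      c / (Real.log (2 * x)) ^ 3 ≤ ml f := by
  obtain ⟨c0, hc0, hc⟩ := dobr_poly
  have hlog2 : 0 < Real.log 2 := Real.log_pos (by norm_num)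
  refine ⟨min ((Real.log 2) ^ 3) (c0 / 27), by positivity, ?_⟩
  intro x hx f hf hdeg
  have hly : Real.log 2 ≤ Real.log (2 * x) := Real.log_le_log (by norm_num) (by linarith)
  have hly0 : 0 < Real.log (2 * x) := by linarith
  rw [div_le_iff₀ (by positivity)]
  by_cases h1 : 1 ≤ ml f
  · calc min ((Real.log 2) ^ 3) (c0 / 27) ≤ (Real.log 2) ^ 3 := min_le_left _ _
      _ ≤ (Real.log (2 * x)) ^ 3 := pow_le_pow_left₀ hlog2.le hly 3
      _ ≤ ml f * (Real.log (2 * x)) ^ 3 := le_mul_of_one_le_left (by positivity) h1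
  · push Not at h1
    have h2 : (f.natDegree : ℝ) ≤ 2 * x := by nlinarith
    set D : ℕ := ⌈2 * x⌉₊ + 1 with hD
    have hD1 : 1 ≤ D := by omega
    have hfD : f.natDegree ≤ D := by
      have h3 : (f.natDegree : ℝ) ≤ (⌈2 * x⌉₊ : ℝ) := h2.trans (Nat.le_ceil _)
      have h4 : f.natDegree ≤ ⌈2 * x⌉₊ := by exact_mod_cast h3
      omega
    have h3 := hc f (by rw [← ml_eq_lm]; exact hf) D hD1 hfD
    rw [← ml_eq_lm] at h3
    have hD2 : (D : ℝ) ≤ 2 * x + 2 := by
      rw [hD]; push_cast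
      have := (Nat.ceil_lt_add_one (show 0 ≤ 2 * x by positivity)).le
      linarith
    have hDpos : (1:ℝ) ≤ D := by exact_mod_cast hD1
    have h4 : Real.log (2 * D) ≤ 3 * Real.log (2 * x) := by
      have h5 : (2:ℝ) * D ≤ (2 * x) ^ 3 := by
        have h6 : (1:ℝ) ≤ x ^ 2 := one_le_pow₀ hx
        have h7 : x ≤ x ^ 3 := by
          calc x = x ^ 1 := (pow_one x).symm
            _ ≤ x ^ 3 := pow_le_pow_right₀ hx (by norm_num)
        rw [mul_pow]
        linarith
      have h6 := Real.log_le_log (by positivity) h5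
      rw [Real.log_pow (x := 2 * x)] at h6
      exact_mod_cast h6
    have h5 : 0 < Real.log (2 * D) := Real.log_pos (by linarith)
    rw [div_le_iff₀ (by positivity)] at h3
    have h6 : (Real.log (2 * D)) ^ 3 ≤ (3 * Real.log (2 * x)) ^ 3 := pow_le_pow_left₀ h5.le h4 3
    have h7 : c0 ≤ ml f * (3 * Real.log (2 * x)) ^ 3 :=
      h3.trans (mul_le_mul_of_nonneg_left h6 hf.le)
    calc min ((Real.log 2) ^ 3) (c0 / 27) ≤ c0 / 27 := min_le_right _ _
      _ ≤ ml f * (Real.log (2 * x)) ^ 3 := by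
        rw [div_le_iff₀ (by norm_num)]
        calc c0 ≤ ml f * (3 * Real.log (2 * x)) ^ 3 := h7
          _ = _ := by ring

lemma ml_mul {f g : ℤ[X]} (hf : f ≠ 0) (hg : g ≠ 0) : ml (f * g) = ml f + ml g := by
  rw [ml, ml, ml, logMahlerMeasure_eq_log_MahlerMeasure, logMahlerMeasure_eq_log_MahlerMeasure,
    logMahlerMeasure_eq_log_MahlerMeasure, Polynomial.map_mul, mahlerMeasure_mul,
    Real.log_mul (mahlerMeasure_pos_of_ne_zero (map_ne hf)).ne'
      (mahlerMeasure_pos_of_ne_zero (map_ne hg)).ne']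

/-- a polynomial of Mahler measure greater than 1 has an irreducible factor with that property -/
lemma exists_irr (F : ℤ[X]) : 0 < ml F →
    ∃ p : ℤ[X], Irreducible p ∧ p ∣ F ∧ 0 < ml p ∧ ml p ≤ ml F := by
  refine WfDvdMonoid.induction_on_irreducible F ?_ ?_ ?_
  · intro h; simp [ml] at h
  · intro u hu h
    exfalso
    obtain ⟨r, hr, hru⟩ := Polynomial.isUnit_iff.mp hu
    have h1 : |r| = 1 := Int.isUnit_iff_abs_eq.mp hr
    have h2 : ‖(Int.castRingHom ℂ) r‖ = 1 := by
      rw [eq_intCast, Complex.norm_intCast]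
      exact_mod_cast h1
    rw [← hru, ml, Polynomial.map_C, logMahlerMeasure_const, h2, Real.log_one] at h
    exact lt_irrefl _ h
  · intro a p ha hp ih h
    rw [ml_mul hp.ne_zero ha] at h ⊢
    have h1 := ml_nonneg hp.ne_zero
    have h2 := ml_nonneg ha
    by_cases h3 : 0 < ml p
    · exact ⟨p, hp, dvd_mul_right _ _, h3, by linarith⟩
    · obtain ⟨q, hq1, hq2, hq3, hq4⟩ := ih (by linarith)
      exact ⟨q, hq1, hq2.mul_left p, hq3, by linarith⟩

/-- all zeros are common zeros -/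
lemma ncard_com {f : ℤ[X]} {H : ℂ[X]} (hf : f ≠ 0) (hnd : (f.map (Int.castRingHom ℂ)).roots.Nodup)
    (h : ∀ z : ℂ, aeval z f = 0 → H.eval z = 0) : (com f H).ncard = f.natDegree := by
  classical
  have h1 : com f H = ((f.map (Int.castRingHom ℂ)).roots.toFinset : Set ℂ) := by
    ext z
    rw [com, Set.mem_ofPred_eq, Finset.mem_coe, Multiset.mem_toFinset, ← aeval_iff hf]
    exact ⟨fun h2 => h2.1, fun h2 => ⟨h2, h z h2⟩⟩
  rw [h1, Set.ncard_coe_finset]
  exact rts_card (rts_of_nodup hnd)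


end Pool.Agent.K3h71.SP
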