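import Mathlib
import Pool.Agent.K3h71.SP.Main
import Pool.Agent.K3h71.SP.Elim
import Pool.Agent.K3h71.SP.KapInt

/-!
# Lehmer's problem for polynomials with few digits in a fixed or slowly varying base
-/

set_option autoImplicit false

open Polynomial

namespace Pool.Agent.K3h71.SP

/-- numerical bound for the constants -/
lemma num {m : ℕ} {B κ y : ℝ} (hm : 1 ≤ m) (hB : 1 ≤ B) (hκ0 : 0 < κ) (hκ1 : κ ≤ 1)
    (hy : 4 * m * B / κ ≤ y) :
    ((27 * (20 * (((2 * m : ℕ) : ℝ) + 1)) ^ 6 + 8 * (1 + m) * (120 * (((2 * m : ℕ) : ℝ) + 1)) ^ (2 * m) /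
      (κ / (26 * m * (m + 1) ^ 2 * B ^ 2 * 144 ^ m))) * 2 ^ (14 + 2 * (2 * m)) + 2) ≤
      y ^ (61 * m) := by
  have hm1 : (1:ℝ) ≤ m := by exact_mod_cast hm
  have hBκ : 4 * m * B / κ = 4 * m * (B / κ) := by ring
  have hBκ1 : B ≤ B / κ := by
    rw [le_div_iff₀ hκ0]; exact mul_le_of_le_one_right (by linarith) hκ1
  have hyBκ : B / κ ≤ y := by
    have : 1 * (B / κ) ≤ 4 * m * (B / κ) :=
      mul_le_mul_of_nonneg_right (by linarith) (by linarith)
    linarith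
  have hyB : B ≤ y := by linarith
  have hy4m : 4 * m ≤ y := by
    have : 4 * (m:ℝ) * 1 ≤ 4 * m * (B / κ) :=
      mul_le_mul_of_nonneg_left (by linarith) (by positivity)
    linarith
  have hy4 : 4 ≤ y := by linarith
  have hy1 : 1 ≤ y := by linarith
  have hy0 : 0 < y := by linarith
  have hmy : (m:ℝ) ≤ y := by linarith
  have h2m1 : ((2 * m : ℕ) : ℝ) + 1 ≤ y := by push_cast; linarith
  have hm1y : (m:ℝ) + 1 ≤ y := by linarith
  have p2 : (16:ℝ) ≤ y ^ 2 := by nlinarith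
  have p3 : (64:ℝ) ≤ y ^ 3 := by
    have := pow_le_pow_left₀ (by norm_num : (0:ℝ) ≤ 4) hy4 3
    norm_num at this; exact this
  have p4 : (256:ℝ) ≤ y ^ 4 := by
    have := pow_le_pow_left₀ (by norm_num : (0:ℝ) ≤ 4) hy4 4
    norm_num at this; exact this
  -- first constant
  have hK1 : 27 * (20 * (((2 * m : ℕ) : ℝ) + 1)) ^ 6 ≤ y ^ 27 := by
    have h1 : 20 * (((2 * m : ℕ) : ℝ) + 1) ≤ y ^ 4 := by
      calc 20 * (((2 * m : ℕ) : ℝ) + 1) ≤ y ^ 3 * y :=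
            mul_le_mul (by linarith) h2m1 (by positivity) (by positivity)
        _ = y ^ 4 := by ring
    calc 27 * (20 * (((2 * m : ℕ) : ℝ) + 1)) ^ 6 ≤ y ^ 3 * (y ^ 4) ^ 6 :=
          mul_le_mul (by linarith) (pow_le_pow_left₀ (by positivity) h1 6) (by positivity)
            (by positivity)
      _ = y ^ 27 := by ring
  -- second constant
  have hK2 : 8 * (1 + m) * (120 * (((2 * m : ℕ) : ℝ) + 1)) ^ (2 * m) /
      (κ / (26 * m * (m + 1) ^ 2 * B ^ 2 * 144 ^ m)) ≤ y ^ (11 + 14 * m) := by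
    have e : 8 * (1 + m) * (120 * (((2 * m : ℕ) : ℝ) + 1)) ^ (2 * m) /
      (κ / (26 * m * (m + 1) ^ 2 * B ^ 2 * 144 ^ m)) =
      (8 * (1 + m)) * (120 * (((2 * m : ℕ) : ℝ) + 1)) ^ (2 * m) *
      ((26 * m) * (m + 1) ^ 2 * ((B / κ) * B) * 144 ^ m) := by
      field_simp
    rw [e]
    have h1 : 8 * (1 + (m:ℝ)) ≤ y ^ 3 := by
      calc 8 * (1 + (m:ℝ)) ≤ y ^ 2 * y :=
            mul_le_mul (by linarith) (by linarith) (by positivity) (by positivity)
        _ = y ^ 3 := by ring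
    have h2 : (120 * (((2 * m : ℕ) : ℝ) + 1)) ^ (2 * m) ≤ y ^ (10 * m) := by
      have h3 : 120 * (((2 * m : ℕ) : ℝ) + 1) ≤ y ^ 5 := by
        calc 120 * (((2 * m : ℕ) : ℝ) + 1) ≤ y ^ 4 * y :=
              mul_le_mul (by linarith) h2m1 (by positivity) (by positivity)
          _ = y ^ 5 := by ring
      calc (120 * (((2 * m : ℕ) : ℝ) + 1)) ^ (2 * m) ≤ (y ^ 5) ^ (2 * m) :=
            pow_le_pow_left₀ (by positivity) h3 _
        _ = y ^ (10 * m) := by rw [← pow_mul]; congr 1; ring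
    have h4 : (26 * (m:ℝ)) * (m + 1) ^ 2 * ((B / κ) * B) * 144 ^ m ≤ y ^ (8 + 4 * m) := by
      have h5 : 26 * (m:ℝ) ≤ y ^ 4 := by
        calc 26 * (m:ℝ) ≤ y ^ 3 * y :=
              mul_le_mul (by linarith) hmy (by positivity) (by positivity)
          _ = y ^ 4 := by ring
      have h6 : ((m:ℝ) + 1) ^ 2 ≤ y ^ 2 := pow_le_pow_left₀ (by positivity) hm1y 2
      have h7 : (B / κ) * B ≤ y ^ 2 := by
        calc (B / κ) * B ≤ y * y := mul_le_mul hyBκ hyB (by linarith) (by linarith)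
          _ = y ^ 2 := by ring
      have h8 : (144:ℝ) ^ m ≤ y ^ (4 * m) := by
        rw [pow_mul]; exact pow_le_pow_left₀ (by norm_num) (by linarith) m
      calc (26 * (m:ℝ)) * (m + 1) ^ 2 * ((B / κ) * B) * 144 ^ m
          ≤ (y ^ 4 * y ^ 2 * y ^ 2) * y ^ (4 * m) := by
            apply mul_le_mul _ h8 (by positivity) (by positivity)
            apply mul_le_mul _ h7 (by positivity) (by positivity)
            exact mul_le_mul h5 h6 (by positivity) (by positivity)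
        _ = y ^ (8 + 4 * m) := by rw [pow_add]; ring
    calc 8 * (1 + (m:ℝ)) * (120 * (((2 * m : ℕ) : ℝ) + 1)) ^ (2 * m) *
      ((26 * m) * (m + 1) ^ 2 * ((B / κ) * B) * 144 ^ m) ≤ (y ^ 3 * y ^ (10 * m)) * y ^ (8 + 4 * m) := by
          apply mul_le_mul _ h4 (by positivity) (by positivity)
          exact mul_le_mul h1 h2 (by positivity) (by positivity)
      _ = y ^ (11 + 14 * m) := by
          rw [← pow_add, ← pow_add]; congr 1; ring
  have h1 : y ^ 27 ≤ y ^ (27 + 14 * m) := pow_le_pow_right₀ hy1 (by omega)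
  have h2 : y ^ (11 + 14 * m) ≤ y ^ (27 + 14 * m) := pow_le_pow_right₀ hy1 (by omega)
  have h3 : 27 * (20 * (((2 * m : ℕ) : ℝ) + 1)) ^ 6 +
      8 * (1 + m) * (120 * (((2 * m : ℕ) : ℝ) + 1)) ^ (2 * m) /
      (κ / (26 * m * (m + 1) ^ 2 * B ^ 2 * 144 ^ m)) ≤ y ^ (28 + 14 * m) := by
    calc _ ≤ y ^ (27 + 14 * m) + y ^ (27 + 14 * m) := by linarith
      _ = 2 * y ^ (27 + 14 * m) := by ring
      _ ≤ y * y ^ (27 + 14 * m) := mul_le_mul_of_nonneg_right (by linarith) (by positivity)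
      _ = y ^ (28 + 14 * m) := by rw [← pow_succ']; congr 1; ring
  have h4 : (2:ℝ) ^ (14 + 2 * (2 * m)) ≤ y ^ (14 + 2 * (2 * m)) :=
    pow_le_pow_left₀ (by norm_num) (by linarith) _
  have h5 : (27 * (20 * (((2 * m : ℕ) : ℝ) + 1)) ^ 6 +
      8 * (1 + m) * (120 * (((2 * m : ℕ) : ℝ) + 1)) ^ (2 * m) /
      (κ / (26 * m * (m + 1) ^ 2 * B ^ 2 * 144 ^ m))) * 2 ^ (14 + 2 * (2 * m)) ≤
      y ^ (42 + 18 * m) := by
    calc _ ≤ y ^ (28 + 14 * m) * y ^ (14 + 2 * (2 * m)) :=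
          mul_le_mul h3 h4 (by positivity) (by positivity)
      _ = y ^ (42 + 18 * m) := by rw [← pow_add]; congr 1; ring
  have h6 : (2:ℝ) ≤ y ^ (42 + 18 * m) := by
    calc (2:ℝ) ≤ y ^ 1 := by rw [pow_one]; linarith
      _ ≤ y ^ (42 + 18 * m) := pow_le_pow_right₀ hy1 (by omega)
  calc _ ≤ y ^ (42 + 18 * m) + y ^ (42 + 18 * m) := by linarith
    _ = 2 * y ^ (42 + 18 * m) := by ring
    _ ≤ y * y ^ (42 + 18 * m) := mul_le_mul_of_nonneg_right (by linarith) (by positivity)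
    _ = y ^ (43 + 18 * m) := by rw [← pow_succ']; congr 1; ring
    _ ≤ y ^ (61 * m) := pow_le_pow_right₀ hy1 (by omega)

/-- **degree bound** -/
theorem core (m : ℕ) (hm : 1 ≤ m) (P Q : ℂ[X]) (hP : P.natDegree ≤ m) (hQ : Q.natDegree ≤ m)
    (hcop : IsCoprime P Q) (hI : Ind P Q) (B : ℝ) (hB1 : 1 ≤ B) (hPB : ∀ i, ‖P.coeff i‖ ≤ B)
    (hQB : ∀ i, ‖Q.coeff i‖ ≤ B) (κ : ℝ) (hκ0 : 0 < κ) (hκ1 : κ ≤ 1) (hκ : Kap m P Q κ)
    (k N : ℕ) (S : Finset ℕ) (h : ℕ → ℂ[X]) (hS : S.card ≤ k)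
    (hh : ∀ j ∈ S, (h j).natDegree ≤ m ∧ j ≤ N) (hH : dform h S N P Q ≠ 0)
    (f : ℤ[X]) (hf : f ≠ 0) (hnd : (f.map (Int.castRingHom ℂ)).roots.Nodup) (θ : ℝ) (hθ0 : 0 < θ)
    (hθ1 : θ ≤ 1) (hθ : θ * f.natDegree ≤ (com f (dform h S N P Q)).ncard) :
    1 ≤ 4 * m * B / κ * k / θ ∧ 2 ≤ 4 * m * B / κ * k / θ ∧
    (f.natDegree : ℝ) ≤ (4 * m * B / κ * k / θ) ^ (80 * m ^ 2) * (1 + ml f) := by
  classical
  have hm1 : (1:ℝ) ≤ m := by exact_mod_cast hm
  have hSne : S.Nonempty := by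
    rw [Finset.nonempty_iff_ne_empty]
    rintro rfl
    apply hH; rw [dform, Finset.sum_empty]
  have hk0 : 0 < k := lt_of_lt_of_le (Finset.card_pos.mpr hSne) hS
  have hk1 : (1:ℝ) ≤ k := by exact_mod_cast hk0
  have hmax0 : 0 < max P.natDegree Q.natDegree := by
    rw [Nat.pos_iff_ne_zero]
    intro h0
    have h1 : P.natDegree = 0 := by have := le_max_left P.natDegree Q.natDegree; omega
    have h2 : Q.natDegree = 0 := by have := le_max_right P.natDegree Q.natDegree; omega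
    have h3 := ind_ne_left hI
    have h4 := ind_ne_right hI
    rw [eq_C_of_natDegree_eq_zero h1] at h3 hI
    rw [eq_C_of_natDegree_eq_zero h2] at h4 hI
    have h5 := (hI (‖Q.coeff 0‖ ^ 2) (‖P.coeff 0‖ ^ 2) (by
      intro z _; simp only [eval_C]; ring)).1
    apply h4
    rw [pow_eq_zero_iff two_ne_zero, norm_eq_zero] at h5
    rw [h5, C_0]
  obtain ⟨G, hG0, hGk, hGr⟩ := elim P Q hcop _ rfl hmax0 m h S N (fun j hj => (hh j hj).1)
    (fun j hj => (hh j hj).2) hH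
  have hGk2 : G.support.card ≤ (2 * k) ^ m := by
    refine hGk.trans ?_
    rw [mul_comm 2 k, mul_pow]
    apply Nat.mul_le_mul_right
    calc S.card ^ (max P.natDegree Q.natDegree) ≤ k ^ (max P.natDegree Q.natDegree) :=
          Nat.pow_le_pow_left hS _
      _ ≤ k ^ m := Nat.pow_le_pow_right hk0 (max_le hP hQ)
  set c : ℝ := κ / (26 * m * (m + 1) ^ 2 * B ^ 2 * 144 ^ m) with hc
  have hc0 : 0 < c := by rw [hc]; positivity
  have hc1 : c ≤ 1 := by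
    rw [hc, div_le_one (by positivity)]
    have h1 : (1:ℝ) ≤ 26 * m := by linarith
    have h2 : (1:ℝ) ≤ (m + 1) ^ 2 := one_le_pow₀ (by linarith)
    have h3 : (1:ℝ) ≤ B ^ 2 := one_le_pow₀ hB1
    have h4 : (1:ℝ) ≤ 144 ^ m := one_le_pow₀ (by norm_num)
    exact hκ1.trans (one_le_mul_of_one_le_of_one_le (one_le_mul_of_one_le_of_one_le
      (one_le_mul_of_one_le_of_one_le h1 h2) h3) h4)
  have hwin := winE P Q m hm hP hQ B hB1 hPB hQB κ hκ0 hκ1 hκ
  rw [← hc] at hwin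
  set Z := (f.map (Int.castRingHom ℂ)).roots.toFinset with hZ
  have hset : com f (dform h S N P Q) =
      ((Z.filter fun z => (dform h S N P Q).eval z = 0 : Finset ℂ) : Set ℂ) := by
    ext z
    rw [com, Set.mem_ofPred_eq, Finset.mem_coe, Finset.mem_filter, hZ, Multiset.mem_toFinset,
      aeval_iff hf]
  rw [hset, Set.ncard_coe_finset] at hθ
  have hcount := count P Q hI m hP hQ c (2 * m) hc0 hc1 hwin ((2 * k) ^ m) G hG0 hGk2 f Z _ hf
    (rts_of_nodup hnd) (Finset.filter_subset _ _) θ hθ0 hθ1 hθ (fun z hz hQz =>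
      hGr z (Finset.mem_filter.mp hz).2 hQz)
  set Λ : ℝ := 4 * m * B / κ with hΛ
  have hΛ4 : 4 ≤ Λ := by
    rw [hΛ, le_div_iff₀ hκ0]
    have h1 : 1 ≤ m * B := one_le_mul_of_one_le_of_one_le hm1 hB1
    nlinarith
  set y : ℝ := Λ * k / θ with hy
  have hkθ : (1:ℝ) ≤ k / θ := by rw [le_div_iff₀ hθ0]; linarith
  have hyΛ : Λ ≤ y := by
    rw [hy, mul_div_assoc]; exact le_mul_of_one_le_right (by linarith) hkθ
  have hy4 : 4 ≤ y := by linarith
  have hlam := ml_nonneg hf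
  refine ⟨by linarith, by linarith, ?_⟩
  have hnum := num (m := m) hm hB1 hκ0 hκ1 hyΛ
  rw [← hc] at hnum
  have hpow : ((((2 * k) ^ m : ℕ) : ℝ) / θ) ^ (15 + 2 * (2 * m)) ≤ y ^ (19 * m ^ 2) := by
    have h1 : (((2 * k) ^ m : ℕ) : ℝ) / θ ≤ y ^ m := by
      have h2 : (((2 * k) ^ m : ℕ) : ℝ) / θ ≤ (2 * k / θ) ^ m := by
        push_cast
        rw [div_pow, div_le_div_iff_of_pos_left (by positivity) hθ0 (by positivity)]
        calc θ ^ m ≤ θ ^ 1 := pow_le_pow_of_le_one hθ0.le hθ1 hm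
          _ = θ := pow_one θ
      refine h2.trans (pow_le_pow_left₀ (by positivity) ?_ m)
      rw [hy]
      exact div_le_div_of_nonneg_right (mul_le_mul_of_nonneg_right (by linarith) (by linarith)) hθ0.le
    calc ((((2 * k) ^ m : ℕ) : ℝ) / θ) ^ (15 + 2 * (2 * m)) ≤ (y ^ m) ^ (15 + 2 * (2 * m)) :=
          pow_le_pow_left₀ (by positivity) h1 _
      _ = y ^ (m * (15 + 2 * (2 * m))) := by rw [← pow_mul]
      _ ≤ y ^ (19 * m ^ 2) := by
          apply pow_le_pow_right₀ (by linarith)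
          nlinarith
  refine hcount.trans ?_
  apply mul_le_mul_of_nonneg_right _ (by linarith)
  calc _ ≤ y ^ (61 * m) * y ^ (19 * m ^ 2) :=
        mul_le_mul hnum hpow (by positivity) (by positivity)
    _ = y ^ (61 * m + 19 * m ^ 2) := by rw [← pow_add]
    _ ≤ y ^ (80 * m ^ 2) := by
        apply pow_le_pow_right₀ (by linarith)
        nlinarith

/-- the condition on `P, Q` satisfied by the constant `Λ` -/
theorem final : ∃ c : ℝ, 0 < c ∧ ∀ (m : ℕ) (P Q : ℂ[X]), 1 ≤ m → P.natDegree ≤ m →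
    Q.natDegree ≤ m → IsCoprime P Q → Ind P Q →
    ∃ Λ : ℝ, 2 ≤ Λ ∧
      (∀ (P₀ Q₀ : ℤ[X]) (B : ℕ), P = P₀.map (Int.castRingHom ℂ) → Q = Q₀.map (Int.castRingHom ℂ) →
        (∀ i, |P₀.coeff i| ≤ B ∧ |Q₀.coeff i| ≤ B) → Λ ≤ (2 * m * B) ^ 5) ∧
      ∀ (k N : ℕ) (S : Finset ℕ) (h : ℕ → ℂ[X]), S.card ≤ k →
        (∀ j ∈ S, (h j).natDegree ≤ m ∧ j ≤ N) → dform h S N P Q ≠ 0 →
        (∀ f : ℤ[X], f ≠ 0 → (f.map (Int.castRingHom ℂ)).roots.Nodup →
          ∀ θ : ℝ, 0 < θ → θ ≤ 1 → θ * f.natDegree ≤ (com f (dform h S N P Q)).ncard →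
          (f.natDegree : ℝ) ≤ (Λ * k / θ) ^ (80 * m ^ 2) * (1 + ml f) ∧
          (Irreducible f → 0 < ml f → c / (m ^ 2 * Real.log (Λ * k / θ)) ^ 3 ≤ ml f)) ∧
        (∀ F : ℤ[X], 0 < ml F → (∀ z : ℂ, aeval z F = 0 → (dform h S N P Q).eval z = 0) →
          c / (m ^ 2 * Real.log (Λ * k)) ^ 3 ≤ ml F) := by
  classical
  obtain ⟨c0, hc0, hdob⟩ := dob_abs
  refine ⟨c0 / 81 ^ 3, by positivity, ?_⟩
  intro m P Q hm hP hQ hcop hI
  have hm1 : (1:ℝ) ≤ m := by exact_mod_cast hm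
  -- the general part
  have gen : ∀ (B κ : ℝ), 1 ≤ B → (∀ i, ‖P.coeff i‖ ≤ B) → (∀ i, ‖Q.coeff i‖ ≤ B) → 0 < κ →
      κ ≤ 1 → Kap m P Q κ → 2 ≤ 4 * m * B / κ ∧
      ∀ (k N : ℕ) (S : Finset ℕ) (h : ℕ → ℂ[X]), S.card ≤ k →
        (∀ j ∈ S, (h j).natDegree ≤ m ∧ j ≤ N) → dform h S N P Q ≠ 0 →
        (∀ f : ℤ[X], f ≠ 0 → (f.map (Int.castRingHom ℂ)).roots.Nodup →
          ∀ θ : ℝ, 0 < θ → θ ≤ 1 → θ * f.natDegree ≤ (com f (dform h S N P Q)).ncard →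
          (f.natDegree : ℝ) ≤ (4 * m * B / κ * k / θ) ^ (80 * m ^ 2) * (1 + ml f) ∧
          (Irreducible f → 0 < ml f →
            c0 / 81 ^ 3 / (m ^ 2 * Real.log (4 * m * B / κ * k / θ)) ^ 3 ≤ ml f)) ∧
        (∀ F : ℤ[X], 0 < ml F → (∀ z : ℂ, aeval z F = 0 → (dform h S N P Q).eval z = 0) →
          c0 / 81 ^ 3 / (m ^ 2 * Real.log (4 * m * B / κ * k)) ^ 3 ≤ ml F) := by
    intro B κ hB1 hPB hQB hκ0 hκ1 hκ
    constructor
    · rw [le_div_iff₀ hκ0]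
      have h1 : 1 ≤ m * B := one_le_mul_of_one_le_of_one_le hm1 hB1
      nlinarith
    intro k N S h hS hh hH
    have hpart : ∀ f : ℤ[X], f ≠ 0 → (f.map (Int.castRingHom ℂ)).roots.Nodup →
          ∀ θ : ℝ, 0 < θ → θ ≤ 1 → θ * f.natDegree ≤ (com f (dform h S N P Q)).ncard →
          (f.natDegree : ℝ) ≤ (4 * m * B / κ * k / θ) ^ (80 * m ^ 2) * (1 + ml f) ∧
          (0 < ml f → c0 / 81 ^ 3 / (m ^ 2 * Real.log (4 * m * B / κ * k / θ)) ^ 3 ≤ ml f) := by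
      intro f hf hnd θ hθ0 hθ1 hθ
      obtain ⟨hy1, hy2, hdeg⟩ := core m hm P Q hP hQ hcop hI B hB1 hPB hQB κ hκ0 hκ1 hκ k N S h hS
        hh hH f hf hnd θ hθ0 hθ1 hθ
      refine ⟨hdeg, ?_⟩
      intro hml
      set y := 4 * m * B / κ * k / θ with hy
      have h1 := hdob (y ^ (80 * m ^ 2)) (one_le_pow₀ hy1) f hml hdeg
      refine le_trans ?_ h1
      have hlog2 : 0 < Real.log 2 := Real.log_pos (by norm_num)
      have hly : Real.log 2 ≤ Real.log y := Real.log_le_log (by norm_num) hy2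
      have h2 : Real.log (2 * y ^ (80 * m ^ 2)) ≤ 81 * (m ^ 2 * Real.log y) := by
        rw [Real.log_mul two_ne_zero (by positivity), Real.log_pow]
        push_cast
        have h3 : (1:ℝ) ≤ m ^ 2 := one_le_pow₀ hm1
        have h4 : Real.log y ≤ m ^ 2 * Real.log y := le_mul_of_one_le_left (by linarith) h3
        linarith
      have h3 : 0 < Real.log (2 * y ^ (80 * m ^ 2)) := by
        apply Real.log_pos
        have : (1:ℝ) ≤ y ^ (80 * m ^ 2) := one_le_pow₀ hy1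
        linarith
      have h4 : c0 / 81 ^ 3 / (m ^ 2 * Real.log y) ^ 3 = c0 / (81 * (m ^ 2 * Real.log y)) ^ 3 := by
        rw [div_div, ← mul_pow]
      rw [h4]
      apply div_le_div_of_nonneg_left hc0.le (by positivity)
      exact pow_le_pow_left₀ h3.le h2 3
    refine ⟨fun f hf hnd θ hθ0 hθ1 hθ => ⟨(hpart f hf hnd θ hθ0 hθ1 hθ).1, fun _ =>
      (hpart f hf hnd θ hθ0 hθ1 hθ).2⟩, ?_⟩
    intro F hF hroot
    obtain ⟨p, hp, hpF, hp0, hpF2⟩ := exists_irr F hF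
    refine le_trans ?_ hpF2
    have h1 := (hpart p hp.ne_zero (nodup_irr hp) 1 one_pos le_rfl (by
      rw [one_mul, ncard_com hp.ne_zero (nodup_irr hp)]
      intro z hz
      apply hroot
      obtain ⟨q, rfl⟩ := hpF
      rw [map_mul, hz, zero_mul])).2 hp0
    rwa [div_one] at h1
  by_cases hint : ∃ (P₀ Q₀ : ℤ[X]), P = P₀.map (Int.castRingHom ℂ) ∧ Q = Q₀.map (Int.castRingHom ℂ)
  · obtain ⟨P₀, Q₀, hP₀, hQ₀⟩ := hint
    have hinj : Function.Injective (Int.castRingHom ℂ) := RingHom.injective_int _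
    -- the largest coefficient
    set B₀ : ℕ := (Finset.range (m + 1)).sup fun i => max (P₀.coeff i).natAbs (Q₀.coeff i).natAbs
      with hB₀
    have hP₀d : P₀.natDegree ≤ m := by
      rw [hP₀, natDegree_map_eq_of_injective hinj] at hP; exact hP
    have hQ₀d : Q₀.natDegree ≤ m := by
      rw [hQ₀, natDegree_map_eq_of_injective hinj] at hQ; exact hQ
    have hb : ∀ i, (P₀.coeff i).natAbs ≤ B₀ ∧ (Q₀.coeff i).natAbs ≤ B₀ := by
      intro i
      by_cases hi : i ∈ Finset.range (m + 1)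
      · have h1 : max (P₀.coeff i).natAbs (Q₀.coeff i).natAbs ≤ B₀ :=
          Finset.le_sup (f := fun i => max (P₀.coeff i).natAbs (Q₀.coeff i).natAbs) hi
        exact ⟨(le_max_left _ _).trans h1, (le_max_right _ _).trans h1⟩
      · rw [Finset.mem_range, not_lt] at hi
        rw [coeff_eq_zero_of_natDegree_lt (by omega), coeff_eq_zero_of_natDegree_lt (by omega)]
        simp
    have hB₀min : ∀ B : ℕ, (∀ i, |P₀.coeff i| ≤ B ∧ |Q₀.coeff i| ≤ B) → B₀ ≤ B := by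
      intro B hB
      apply Finset.sup_le
      intro i _
      obtain ⟨h1, h2⟩ := hB i
      rw [Int.abs_eq_natAbs] at h1 h2
      apply max_le
      · exact_mod_cast h1
      · exact_mod_cast h2
    have hB₀1 : 1 ≤ B₀ := by
      by_contra h0
      have h1 : B₀ = 0 := by omega
      apply ind_ne_left hI
      rw [hP₀]
      have : P₀ = 0 := by
        ext i
        have := (hb i).1
        rw [coeff_zero]; omega
      rw [this, Polynomial.map_zero]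
    have hB₀r : (1:ℝ) ≤ B₀ := by exact_mod_cast hB₀1
    have hPB' : ∀ i, |(P₀.coeff i : ℝ)| ≤ B₀ := by
      intro i
      have h1 := (hb i).1
      have h2 : |P₀.coeff i| ≤ (B₀ : ℤ) := by
        rw [Int.abs_eq_natAbs]; exact_mod_cast h1
      exact_mod_cast h2
    have hQB' : ∀ i, |(Q₀.coeff i : ℝ)| ≤ B₀ := by
      intro i
      have h1 := (hb i).2
      have h2 : |Q₀.coeff i| ≤ (B₀ : ℤ) := by
        rw [Int.abs_eq_natAbs]; exact_mod_cast h1
      exact_mod_cast h2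
    have hPB : ∀ i, ‖P.coeff i‖ ≤ B₀ := by
      intro i
      rw [hP₀, coeff_map, eq_intCast, Complex.norm_intCast]; exact hPB' i
    have hQB : ∀ i, ‖Q.coeff i‖ ≤ B₀ := by
      intro i
      rw [hQ₀, coeff_map, eq_intCast, Complex.norm_intCast]; exact hQB' i
    have hkap := kap_int m P₀ Q₀ hP₀d hQ₀d (by rw [← hP₀, ← hQ₀]; exact hI) B₀ hB₀r hPB' hQB'
    rw [← hP₀, ← hQ₀] at hkap
    have hs1 : (1:ℝ) ≤ 4 * ((m + 1) * (B₀:ℝ) ^ 2) := by
      have : (1:ℝ) ≤ (B₀:ℝ) ^ 2 := one_le_pow₀ hB₀r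
      nlinarith
    obtain ⟨g1, g2⟩ := gen B₀ (1 / (4 * ((m + 1) * (B₀:ℝ) ^ 2))) hB₀r hPB hQB (by positivity)
      (by rw [div_le_one (by linarith)]; exact hs1) hkap
    refine ⟨_, g1, ?_, g2⟩
    intro P₁ Q₁ B hP₁ hQ₁ hB
    have e1 : P₁ = P₀ := Polynomial.map_injective _ hinj (by rw [← hP₁, ← hP₀])
    have e2 : Q₁ = Q₀ := Polynomial.map_injective _ hinj (by rw [← hQ₁, ← hQ₀])
    rw [e1, e2] at hB
    have h1 : (B₀ : ℝ) ≤ B := by exact_mod_cast hB₀min B hB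
    have h2 : 4 * (m:ℝ) * B₀ / (1 / (4 * ((m + 1) * (B₀:ℝ) ^ 2))) = 16 * (m * (m + 1)) * (B₀:ℝ) ^ 3 := by
      field_simp; ring
    rw [h2]
    have h3 : (m:ℝ) * (m + 1) ≤ 2 * m ^ 5 := by
      have h4 : (m:ℝ) ^ 2 ≤ m ^ 5 := pow_le_pow_right₀ hm1 (by norm_num)
      nlinarith
    have h5 : (B₀:ℝ) ^ 3 ≤ (B:ℝ) ^ 5 := by
      calc (B₀:ℝ) ^ 3 ≤ (B₀:ℝ) ^ 5 := pow_le_pow_right₀ hB₀r (by norm_num)
        _ ≤ (B:ℝ) ^ 5 := pow_le_pow_left₀ (by linarith) h1 5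
    calc 16 * ((m:ℝ) * (m + 1)) * (B₀:ℝ) ^ 3 ≤ 16 * (2 * m ^ 5) * (B:ℝ) ^ 5 := by
          apply mul_le_mul _ h5 (by positivity) (by positivity)
          linarith
      _ = (2 * (m:ℝ) * (B:ℝ)) ^ 5 := by ring
  · obtain ⟨κ, hκ0, hκ⟩ := exists_coeff P Q m hP hQ hI
    have hκ' : Kap m P Q (min κ 1) := by
      intro c hc
      obtain ⟨i, hi⟩ := hκ c hc
      exact ⟨i, (mul_le_mul_of_nonneg_right (min_le_left _ _) (by linarith)).trans hi⟩
    obtain ⟨B, hB1, hB2, hB3⟩ : ∃ B : ℝ, 1 ≤ B ∧ (∀ i, ‖P.coeff i‖ ≤ B) ∧ (∀ i, ‖Q.coeff i‖ ≤ B) := by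
      refine ⟨1 + ∑ i ∈ Finset.range (m + 1), (‖P.coeff i‖ + ‖Q.coeff i‖), ?_, ?_, ?_⟩
      · have : 0 ≤ ∑ i ∈ Finset.range (m + 1), (‖P.coeff i‖ + ‖Q.coeff i‖) := by positivity
        linarith
      · intro i
        by_cases hi : i ∈ Finset.range (m + 1)
        · have h1 := Finset.single_le_sum (f := fun i => ‖P.coeff i‖ + ‖Q.coeff i‖)
            (fun j _ => by positivity) hi
          have h2 := norm_nonneg (Q.coeff i)
          linarith
        · rw [Finset.mem_range, not_lt] at hi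
          rw [coeff_eq_zero_of_natDegree_lt (by omega), norm_zero]
          positivity
      · intro i
        by_cases hi : i ∈ Finset.range (m + 1)
        · have h1 := Finset.single_le_sum (f := fun i => ‖P.coeff i‖ + ‖Q.coeff i‖)
            (fun j _ => by positivity) hi
          have h2 := norm_nonneg (P.coeff i)
          linarith
        · rw [Finset.mem_range, not_lt] at hi
          rw [coeff_eq_zero_of_natDegree_lt (by omega), norm_zero]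
          positivity
    obtain ⟨g1, g2⟩ := gen B (min κ 1) hB1 hB2 hB3 (lt_min hκ0 one_pos) (min_le_right _ _) hκ'
    refine ⟨_, g1, ?_, g2⟩
    intro P₀ Q₀ _ hP₀ hQ₀ _
    exact absurd ⟨P₀, Q₀, hP₀, hQ₀⟩ hint

end Pool.Agent.K3h71.SP
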